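import Pool.Agent.Work.MP_46fa68_95.CentK

/-! # Positive semidefiniteness of two block (flagged) kernels for one cell

`N = n + 1`, the cell is `(last, last)`, `H = S_n` the stabiliser of the last point. `u` is a vector
supported on `H`, `v` a vector supported off `H`. Left multiplication by the idempotents `P_C` of level
`n`, by the pieces `Pc C x = P_C P_(mv C x)`, and right multiplication `rv P_C'`.
-/

set_option autoImplicit false

open Finset Equiv

namespace Pool.JM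

section rv

variable {N : ℕ}

/-- the right version of an operator (conjugation with the inversion) -/
def rv (T : Mat N) : Mat N := fun g h => T g⁻¹ h⁻¹

theorem rv_one : rv (1 : Mat N) = 1 := by
  ext g h
  simp [rv, Matrix.one_apply]

theorem rv_zero : rv (0 : Mat N) = 0 := rfl

theorem rv_add (S T : Mat N) : rv (S + T) = rv S + rv T := rfl

theorem rv_smul (c : ℝ) (T : Mat N) : rv (c • T) = c • rv T := rfl

theorem rv_mul (S T : Mat N) : rv (S * T) = rv S * rv T := by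
  ext g h
  simp only [rv, Matrix.mul_apply]
  rw [← Fintype.sum_equiv (Equiv.inv (Perm (Fin N)))
    (fun x => S g⁻¹ x⁻¹ * T x⁻¹ h⁻¹) (fun x => S g⁻¹ x * T x h⁻¹) fun x => rfl]

theorem rv_sum {ι : Type*} (s : Finset ι) (f : ι → Mat N) :
    rv (∑ i ∈ s, f i) = ∑ i ∈ s, rv (f i) := by
  ext g h
  simp only [rv, Matrix.sum_apply]

theorem rv_transpose (T : Mat N) : (rv T).transpose = rv T.transpose := rfl

theorem rv_comm {S T : Mat N} (hS : Inv S) (hT : Inv T) : S * rv T = rv T * S := by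
  rw [hT.eq_sum, rv_sum, Finset.mul_sum, Finset.sum_mul]
  refine Finset.sum_congr rfl fun σ _ => ?_
  rw [rv_smul, Matrix.mul_smul, Matrix.smul_mul]
  congr 1
  ext g h
  rw [Matrix.mul_apply, Matrix.mul_apply, Finset.sum_eq_single (h * σ⁻¹),
    Finset.sum_eq_single (g * σ)]
  · have e1 : rv (U σ) (h * σ⁻¹) h = 1 := by
      simp [rv, U]
    have e2 : rv (U σ) g (g * σ) = 1 := by
      simp [rv, U]
    rw [e1, e2, mul_one, one_mul]
    have := hS g (h * σ⁻¹) σ
    rw [← this]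
    congr 1
    group
  · intro b _ hb
    have : rv (U σ) g b = 0 := by
      unfold rv U
      rw [if_neg]
      intro hh
      apply hb
      have h1 : b⁻¹ = σ⁻¹ * g⁻¹ := by rw [hh]; group
      have h2 : b = (σ⁻¹ * g⁻¹)⁻¹ := by rw [← h1, inv_inv]
      rw [h2]
      group
    rw [this, zero_mul]
  · intro h
    exact absurd (mem_univ _) h
  · intro b _ hb
    have : rv (U σ) b h = 0 := by
      unfold rv U
      rw [if_neg]
      intro hh
      apply hb
      have h2 : b = (σ * h⁻¹)⁻¹ := by rw [← hh, inv_inv]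
      rw [h2]
      group
    rw [this, mul_zero]
  · intro h
    exact absurd (mem_univ _) h

end rv

section basic

variable {n : ℕ}

theorem Sn_last95 {g : Perm (Fin (n + 1))} : Sn n g ↔ g (Fin.last n) = Fin.last n := by
  constructor
  · intro h
    exact h _ (by simp)
  · intro h k hk
    have : k = Fin.last n := Fin.ext (by have := k.2; simp only [Fin.val_last]; omega)
    rw [this, h]

/-- supported on the stabiliser of the last point -/
def On (u : Perm (Fin (n + 1)) → ℝ) : Prop := ∀ g, ¬ Sn n g → u g = 0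

/-- supported off the stabiliser of the last point -/
def Off (v : Perm (Fin (n + 1)) → ℝ) : Prop := ∀ g, Sn n g → v g = 0

theorem ip_eq (T : Mat (n + 1)) (u v : Perm (Fin (n + 1)) → ℝ) :
    u ⬝ᵥ (T.mulVec v) = ∑ g, ∑ h, u g * (T g h * v h) := by
  simp only [dotProduct, Matrix.mulVec, Finset.mul_sum]

theorem ip_E {u : Perm (Fin (n + 1)) → ℝ} (hu : On u) (T : Mat (n + 1)) :
    u ⬝ᵥ (T.mulVec u) = u ⬝ᵥ ((E n T).mulVec u) := by
  rw [ip_eq, ip_eq]
  refine Finset.sum_congr rfl fun g _ => Finset.sum_congr rfl fun h _ => ?_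
  by_cases hg : Sn n g
  · by_cases hh : Sn n h
    · rw [E_apply_of (Sn_mul hg (Sn_inv hh))]
    · simp only [hu h hh, mul_zero]
  · rw [hu g hg, zero_mul, zero_mul]

theorem ip_off {u v : Perm (Fin (n + 1)) → ℝ} (hu : On u) (hv : Off v) {T : Mat (n + 1)}
    (hT : Bd n T) : u ⬝ᵥ (T.mulVec v) = 0 := by
  rw [ip_eq]
  refine Finset.sum_eq_zero fun g _ => Finset.sum_eq_zero fun h _ => ?_
  by_cases hg : Sn n g
  · by_cases hh : Sn n h
    · rw [hv h hh, mul_zero, mul_zero]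
    · have : ¬ Sn n (g * h⁻¹) := by
        intro h'
        apply hh
        rw [Sn_mul_iff hg] at h'
        simpa using Sn_inv h'
      rw [hT g h this, zero_mul, mul_zero]
  · rw [hu g hg, zero_mul]

/-- move a symmetric operator -/
theorem ip_symm {T : Mat (n + 1)} (hT : T.transpose = T) (u v : Perm (Fin (n + 1)) → ℝ) :
    u ⬝ᵥ (T.mulVec v) = (T.mulVec u) ⬝ᵥ v := by
  rw [Matrix.dotProduct_mulVec, ← Matrix.mulVec_transpose, hT]

theorem ip_idem {T : Mat (n + 1)} (hT : T.transpose = T) (hi : T * T = T)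
    (u v : Perm (Fin (n + 1)) → ℝ) :
    u ⬝ᵥ (T.mulVec v) = (T.mulVec u) ⬝ᵥ (T.mulVec v) := by
  nth_rewrite 1 [← hi]
  rw [← Matrix.mulVec_mulVec, ip_symm hT]

end basic

section main

variable {n M : ℕ}

/-- a class function of `S_n` acts in the same way from the left and from the right on functions on
`S_n` -/
theorem rv_On {T : Mat (n + 1)} (hT : Al n T) (hs : T.transpose = T)
    (hc : ∀ σ : Perm (Fin (n + 1)), Sn n σ → U σ * T = T * U σ)
    {u : Perm (Fin (n + 1)) → ℝ} (hu : On u) : (rv T).mulVec u = T.mulVec u := by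
  ext g
  simp only [Matrix.mulVec, dotProduct]
  refine Finset.sum_congr rfl fun h _ => ?_
  by_cases hh : Sn n h
  · congr 1
    by_cases hg : Sn n g
    · -- T g⁻¹ h⁻¹ = T (g⁻¹ h) 1 = T (h g⁻¹) 1 = T h g
      have e1 : T g⁻¹ h⁻¹ = T (g⁻¹ * h) 1 := by
        have := hT.2 (g⁻¹ * h) 1 h⁻¹
        rw [one_mul] at this
        rw [← this]
        congr 1
        group
      have e2 : T (g⁻¹ * h) 1 = T (h * (g⁻¹ * h) * h⁻¹) 1 := by
        have e3 : (U h⁻¹ * T) (g⁻¹ * h * h⁻¹) 1 = T (h * (g⁻¹ * h) * h⁻¹) 1 := by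
          rw [U_mul_apply, inv_inv, ← mul_assoc]
        rw [← e3, hc _ (Sn_inv hh), mul_U_apply, mul_one]
        have := hT.2 (g⁻¹ * h) 1 h⁻¹
        rw [one_mul] at this
        exact this.symm
      have e4 : T (h * (g⁻¹ * h) * h⁻¹) 1 = T h g := by
        have := hT.2 (h * g⁻¹) 1 g
        rw [one_mul] at this
        have e5 : h * g⁻¹ * g = h := by group
        rw [e5] at this
        rw [this]
        congr 1
        group
      have e6 : T h g = T g h := by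
        have := congrFun (congrFun hs g) h
        rwa [Matrix.transpose_apply] at this
      change T g⁻¹ h⁻¹ = T g h
      rw [e1, e2, e4, e6]
    · have h1 : ¬ Sn n (g * h⁻¹) := fun h' => hg ((Sn_mul_iff' (Sn_inv hh)).1 h')
      have h2 : ¬ Sn n (g⁻¹ * (h⁻¹)⁻¹) := by
        intro h'
        rw [inv_inv] at h'
        have := (Sn_mul_iff' hh).1 h'
        exact hg (by simpa using Sn_inv this)
      change T g⁻¹ h⁻¹ = T g h
      rw [hT.1 _ _ h1, hT.1 _ _ h2]
  · rw [hu h hh, mul_zero, mul_zero]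

/-- a class function of the whole group is symmetric under inversion -/
theorem rv_class {N : ℕ} {T : Mat N} (hT : Inv T) (hs : T.transpose = T)
    (hc : ∀ σ : Perm (Fin N), U σ * T = T * U σ) : rv T = T := by
  ext g h
  have e1 : T g⁻¹ h⁻¹ = T (g⁻¹ * h) 1 := by
    have := hT (g⁻¹ * h) 1 h⁻¹
    rw [one_mul] at this
    rw [← this]
    congr 1
    group
  have e2 := class_of hT hc (g⁻¹ * h) h
  have e4 : T (h * (g⁻¹ * h) * h⁻¹) 1 = T h g := by
    have := hT (h * g⁻¹) 1 g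
    rw [one_mul] at this
    have e5 : h * g⁻¹ * g = h := by group
    rw [e5] at this
    rw [this]
    congr 1
    group
  have e6 : T h g = T g h := by
    have := congrFun (congrFun hs g) h
    rwa [Matrix.transpose_apply] at this
  change T g⁻¹ h⁻¹ = T g h
  rw [e1, ← e2, e4, e6]

/-- the pairs (partition of `n`, addable box) -/
noncomputable def Pr (M n : ℕ) : Finset (Σ _ : Finset ℕ, ℕ) := (Lv M n).sigma fun C => ad C

theorem mem_Pr {q : Σ _ : Finset ℕ, ℕ} : q ∈ Pr M n ↔ q.1 ∈ Lv M n ∧ q.2 ∈ ad q.1 := by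
  unfold Pr
  rw [mem_sigma]

/-- cross operator -/
noncomputable def XY (M n : ℕ) (F : Finset ℕ → ℕ → ℝ) : Mat (n + 1) :=
  ∑ q ∈ Pr M n, F q.1 q.2 • Pc (n + 1) M n q.1 q.2

/-- operator for the pairs off the stabiliser -/
noncomputable def YY95 (M n : ℕ) (g : Finset ℕ → Finset ℕ → Finset ℕ → ℝ) : Mat (n + 1) :=
  ∑ q ∈ Pr M n, ∑ C' ∈ Lv M n,
    g (mv q.1 q.2) q.1 C' • (Pc (n + 1) M n q.1 q.2 * rv (P (n + 1) M n C'))

/-- if the right idempotent `C'` meets the piece `(C, x)` then `C'` is below `mv C x` -/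
theorem pc_rv_zero (hM : n + 1 < M) {C C' : Finset ℕ} (hC : C ∈ Lv M n) {x : ℕ} (hx : x ∈ ad C)
    (h : ∀ y ∈ ad C', mv C' y ≠ mv C x) :
    Pc (n + 1) M n C x * rv (P (n + 1) M n C') = 0 := by
  have hg := good (N := n + 1) hM n (by omega)
  have hgN := good (N := n + 1) hM (n + 1) le_rfl
  set B := mv C x with hB
  have hBm : B ∈ Lv M (n + 1) := mv_mem hC hx
  -- P_B * P_C' = 0
  have h1 : P (n + 1) M (n + 1) B * P (n + 1) M n C' = 0 := by
    rw [P_succ, Finset.sum_mul]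
    refine Finset.sum_eq_zero fun q hq => ?_
    obtain ⟨hq1, hq2⟩ := mem_sigma.1 hq
    split_ifs with hqB
    · have hne : q.1 ≠ C' := by
        rintro h'
        refine h q.2 (h' ▸ hq2) ?_
        rw [← h', hqB]
      unfold Pc
      rw [mul_assoc, ← hg.comm (by omega), ← mul_assoc, hg.orth _ _ hne, zero_mul]
    · exact zero_mul _
  -- Pc = Pc * P_B
  have h2 : Pc (n + 1) M n C x * P (n + 1) M (n + 1) B = Pc (n + 1) M n C x := by
    rw [P_succ, Finset.mul_sum, Finset.sum_eq_single ⟨C, x⟩]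
    · simp only
      rw [if_pos hB.symm, hg.pc_mul (by omega) hC hx, if_pos ⟨rfl, rfl⟩]
    · rintro ⟨D, y⟩ hq hne
      obtain ⟨hq1, hq2⟩ := mem_sigma.1 hq
      simp only
      split_ifs
      · rw [hg.pc_mul (by omega) hq1 hq2, if_neg]
        rintro ⟨rfl, rfl⟩
        exact hne rfl
      · exact mul_zero _
    · intro h'
      exact absurd (mem_sigma.2 ⟨hC, hx⟩) h'
  have h3 : rv (P (n + 1) M (n + 1) B) = P (n + 1) M (n + 1) B :=
    rv_class (hgN.al B).2 (hgN.symm B) fun σ => P_cent_k hM le_rfl hBm σ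
      (fun k hk => absurd k.2 (by omega))
  rw [← h2, mul_assoc, ← h3, ← rv_mul, h1, rv_zero, mul_zero]

/-- the criterion -/
theorem block_psd (hM : n + 1 < M) (α c : Finset ℕ → ℝ) (F : Finset ℕ → ℕ → ℝ)
    (g : Finset ℕ → Finset ℕ → Finset ℕ → ℝ)
    (h1 : ∀ C ∈ Lv M n, ∀ x ∈ ad C, ∀ C' ∈ Lv M n, ∀ y ∈ ad C', C ≠ C' → mv C' y = mv C x →
      0 ≤ g (mv C x) C C')
    (h2 : ∀ C ∈ Lv M n, ∀ x ∈ ad C, 0 ≤ g (mv C x) C C ∧
      (g (mv C x) C C = 0 → F C x = c C))
    (h3 : ∀ C ∈ Lv M n, ∑ x ∈ ad C, w C x * ((F C x - c C) ^ 2 / g (mv C x) C C) ≤ α C)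
    {u v : Perm (Fin (n + 1)) → ℝ} (hu : On u) (hv : Off v) :
    0 ≤ u ⬝ᵥ ((G (n + 1) M α n).mulVec u) + 2 * (u ⬝ᵥ ((XY M n F).mulVec v)) +
      v ⬝ᵥ ((YY95 M n g).mulVec v) := by
  have hg := good (N := n + 1) hM n (by omega)
  have hn : n < n + 1 := by omega
  -- facts about the pieces
  set S : (Σ _ : Finset ℕ, ℕ) → Finset ℕ → Mat (n + 1) := fun q C' =>
    Pc (n + 1) M n q.1 q.2 * rv (P (n + 1) M n C') with hS
  have hcm : ∀ q : (Σ _ : Finset ℕ, ℕ), ∀ C', Pc (n + 1) M n q.1 q.2 * rv (P (n + 1) M n C') =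
      rv (P (n + 1) M n C') * Pc (n + 1) M n q.1 q.2 := fun q C' =>
    rv_comm (hg.pc_al _ _).2 (hg.al C').2
  have hSs : ∀ q C', (S q C').transpose = S q C' := by
    intro q C'
    rw [hS]
    simp only
    rw [Matrix.transpose_mul, hg.pc_symm hn, rv_transpose, hg.symm, hcm]
  have hSi : ∀ q ∈ Pr M n, ∀ C', S q C' * S q C' = S q C' := by
    intro q hq C'
    obtain ⟨hq1, hq2⟩ := mem_Pr.1 hq
    rw [hS]
    simp only
    have e := hg.pc_mul (N := n + 1) hn (C := q.1) (x := q.2) hq1 hq2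
    rw [if_pos ⟨rfl, rfl⟩] at e
    calc Pc (n + 1) M n q.1 q.2 * rv (P (n + 1) M n C') *
          (Pc (n + 1) M n q.1 q.2 * rv (P (n + 1) M n C')) =
        Pc (n + 1) M n q.1 q.2 * (rv (P (n + 1) M n C') *
          Pc (n + 1) M n q.1 q.2) * rv (P (n + 1) M n C') := by noncomm_ring
      _ = Pc (n + 1) M n q.1 q.2 * Pc (n + 1) M n q.1 q.2 *
          (rv (P (n + 1) M n C') * rv (P (n + 1) M n C')) := by
          rw [← hcm]; noncomm_ring
      _ = _ := by rw [e, ← rv_mul, hg.idem]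
  -- the YY95 part
  have hYY : v ⬝ᵥ ((YY95 M n g).mulVec v) = ∑ q ∈ Pr M n, ∑ C' ∈ Lv M n,
      g (mv q.1 q.2) q.1 C' * (v ⬝ᵥ ((S q C').mulVec v)) := by
    unfold YY95
    rw [Matrix.sum_mulVec, dotProduct_sum]
    refine Finset.sum_congr rfl fun q _ => ?_
    rw [Matrix.sum_mulVec, dotProduct_sum]
    refine Finset.sum_congr rfl fun C' _ => ?_
    rw [Matrix.smul_mulVec, dotProduct_smul, smul_eq_mul]
  have hYY2 : ∑ q ∈ Pr M n, g (mv q.1 q.2) q.1 q.1 * (v ⬝ᵥ ((S q q.1).mulVec v)) ≤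
      v ⬝ᵥ ((YY95 M n g).mulVec v) := by
    rw [hYY]
    refine Finset.sum_le_sum fun q hq => ?_
    obtain ⟨hq1, hq2⟩ := mem_Pr.1 hq
    refine Finset.single_le_sum (f := fun C' => g (mv q.1 q.2) q.1 C' *
      (v ⬝ᵥ ((S q C').mulVec v))) ?_ hq1
    intro C' hC'
    by_cases hCC : q.1 = C'
    · subst hCC
      refine mul_nonneg (h2 q.1 hq1 q.2 hq2).1 ?_
      rw [ip_idem (hSs _ _) (hSi q hq _)]
      exact Finset.sum_nonneg fun i _ => mul_self_nonneg _
    · by_cases hex : ∃ y ∈ ad C', mv C' y = mv q.1 q.2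
      · obtain ⟨y, hy, hyB⟩ := hex
        refine mul_nonneg (h1 q.1 hq1 q.2 hq2 C' hC' y hy hCC hyB) ?_
        rw [ip_idem (hSs _ _) (hSi q hq _)]
        exact Finset.sum_nonneg fun i _ => mul_self_nonneg _
      · push Not at hex
        have : S q C' = 0 := pc_rv_zero hM hq1 hq2 hex
        rw [this, Matrix.zero_mulVec, dotProduct_zero, mul_zero]
  -- the XY part
  have hS1 : ∀ q ∈ Pr M n, u ⬝ᵥ ((Pc (n + 1) M n q.1 q.2).mulVec v) =
      u ⬝ᵥ ((S q q.1).mulVec v) := by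
    intro q hq
    obtain ⟨hq1, hq2⟩ := mem_Pr.1 hq
    have e1 : P (n + 1) M n q.1 * Pc (n + 1) M n q.1 q.2 = Pc (n + 1) M n q.1 q.2 := by
      unfold Pc
      rw [← mul_assoc, hg.idem]
    have e2 : (rv (P (n + 1) M n q.1)).mulVec u = (P (n + 1) M n q.1).mulVec u :=
      rv_On (hg.al _) (hg.symm _) (fun σ hσ => P_cent_k hM (by omega) hq1 σ hσ) hu
    have e3 : (rv (P (n + 1) M n q.1)).transpose = rv (P (n + 1) M n q.1) := by
      rw [rv_transpose, hg.symm]
    calc u ⬝ᵥ ((Pc (n + 1) M n q.1 q.2).mulVec v) =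
        u ⬝ᵥ ((P (n + 1) M n q.1).mulVec ((Pc (n + 1) M n q.1 q.2).mulVec v)) := by
          rw [Matrix.mulVec_mulVec, e1]
      _ = ((rv (P (n + 1) M n q.1)).mulVec u) ⬝ᵥ ((Pc (n + 1) M n q.1 q.2).mulVec v) := by
          rw [ip_symm (hg.symm _), e2]
      _ = u ⬝ᵥ ((rv (P (n + 1) M n q.1)).mulVec ((Pc (n + 1) M n q.1 q.2).mulVec v)) := by
          rw [ip_symm e3]
      _ = u ⬝ᵥ ((S q q.1).mulVec v) := by
          rw [Matrix.mulVec_mulVec, ← hcm]
  have hXY : u ⬝ᵥ ((XY M n F).mulVec v) =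
      ∑ q ∈ Pr M n, (F q.1 q.2 - c q.1) * (u ⬝ᵥ ((S q q.1).mulVec v)) := by
    have e1 : u ⬝ᵥ ((XY M n F).mulVec v) =
        ∑ q ∈ Pr M n, F q.1 q.2 * (u ⬝ᵥ ((Pc (n + 1) M n q.1 q.2).mulVec v)) := by
      unfold XY
      rw [Matrix.sum_mulVec, dotProduct_sum]
      refine Finset.sum_congr rfl fun q _ => ?_
      rw [Matrix.smul_mulVec, dotProduct_smul, smul_eq_mul]
    have e2 : ∑ q ∈ Pr M n, c q.1 * (u ⬝ᵥ ((Pc (n + 1) M n q.1 q.2).mulVec v)) = 0 := by
      unfold Pr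
      rw [Finset.sum_sigma]
      refine Finset.sum_eq_zero fun C hC => ?_
      simp only
      rw [← Finset.mul_sum, ← dotProduct_sum, ← Matrix.sum_mulVec, pc_sum hC (by omega),
        ip_off hu hv (hg.al C).1, mul_zero]
    rw [e1, ← sub_zero (∑ q ∈ Pr M n, F q.1 q.2 *
      (u ⬝ᵥ ((Pc (n + 1) M n q.1 q.2).mulVec v))), ← e2, ← Finset.sum_sub_distrib]
    refine Finset.sum_congr rfl fun q hq => ?_
    rw [hS1 q hq]
    ring
  -- the norm of S u
  have hSu : ∀ q ∈ Pr M n, u ⬝ᵥ ((S q q.1).mulVec u) =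
      w q.1 q.2 * (u ⬝ᵥ ((P (n + 1) M n q.1).mulVec u)) := by
    intro q hq
    obtain ⟨hq1, hq2⟩ := mem_Pr.1 hq
    have e1 : Pc (n + 1) M n q.1 q.2 * P (n + 1) M n q.1 = Pc (n + 1) M n q.1 q.2 := by
      unfold Pc
      rw [mul_assoc, ← hg.comm hn, ← mul_assoc, hg.idem]
    have e2 : (rv (P (n + 1) M n q.1)).mulVec u = (P (n + 1) M n q.1).mulVec u :=
      rv_On (hg.al _) (hg.symm _) (fun σ hσ => P_cent_k hM (by omega) hq1 σ hσ) hu
    have e3 : (S q q.1).mulVec u = (Pc (n + 1) M n q.1 q.2).mulVec u := by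
      rw [hS]
      simp only
      rw [← Matrix.mulVec_mulVec, e2, Matrix.mulVec_mulVec, e1]
    rw [e3, ip_E hu, hg.pc_E hn hq1 hq2, Matrix.smul_mulVec, dotProduct_smul, smul_eq_mul]
  -- alpha
  have hα : ∑ q ∈ Pr M n, (w q.1 q.2 * ((F q.1 q.2 - c q.1) ^ 2 / g (mv q.1 q.2) q.1 q.1)) *
      (u ⬝ᵥ ((P (n + 1) M n q.1).mulVec u)) ≤ u ⬝ᵥ ((G (n + 1) M α n).mulVec u) := by
    have e1 : u ⬝ᵥ ((G (n + 1) M α n).mulVec u) =
        ∑ C ∈ Lv M n, α C * (u ⬝ᵥ ((P (n + 1) M n C).mulVec u)) := by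
      unfold G
      rw [Matrix.sum_mulVec, dotProduct_sum]
      refine Finset.sum_congr rfl fun B _ => ?_
      rw [Matrix.smul_mulVec, dotProduct_smul, smul_eq_mul]
    rw [e1]
    unfold Pr
    rw [Finset.sum_sigma]
    refine Finset.sum_le_sum fun C hC => ?_
    simp only
    rw [← Finset.sum_mul]
    refine mul_le_mul_of_nonneg_right (h3 C hC) ?_
    rw [ip_idem (hg.symm _) (hg.idem _)]
    exact Finset.sum_nonneg fun i _ => mul_self_nonneg _
  -- the squares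
  have hsq : ∀ q ∈ Pr M n, 0 ≤
      (w q.1 q.2 * ((F q.1 q.2 - c q.1) ^ 2 / g (mv q.1 q.2) q.1 q.1)) *
        (u ⬝ᵥ ((P (n + 1) M n q.1).mulVec u)) +
      2 * ((F q.1 q.2 - c q.1) * (u ⬝ᵥ ((S q q.1).mulVec v))) +
      g (mv q.1 q.2) q.1 q.1 * (v ⬝ᵥ ((S q q.1).mulVec v)) := by
    intro q hq
    obtain ⟨hq1, hq2⟩ := mem_Pr.1 hq
    obtain ⟨hg0, hg1⟩ := h2 q.1 hq1 q.2 hq2
    set γ := g (mv q.1 q.2) q.1 q.1 with hγ
    set f := F q.1 q.2 - c q.1 with hf
    have e1 : w q.1 q.2 * (f ^ 2 / γ) * (u ⬝ᵥ ((P (n + 1) M n q.1).mulVec u)) =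
        (f ^ 2 / γ) * (((S q q.1).mulVec u) ⬝ᵥ ((S q q.1).mulVec u)) := by
      rw [← ip_idem (hSs _ _) (hSi q hq _), hSu q hq]
      ring
    rw [e1, ip_idem (hSs _ _) (hSi q hq _) u v, ip_idem (hSs _ _) (hSi q hq _) v v]
    set a := (S q q.1).mulVec u with ha
    set b := (S q q.1).mulVec v with hb
    rcases eq_or_lt_of_le hg0 with h0 | h0
    · have : f = 0 := by
        rw [hf, hg1 h0.symm, sub_self]
      rw [← h0, this]
      simp
    · have e2 : f ^ 2 / γ * (a ⬝ᵥ a) + 2 * (f * (a ⬝ᵥ b)) + γ * (b ⬝ᵥ b) =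
          ∑ i, γ * (f / γ * a i + b i) ^ 2 := by
        simp only [dotProduct]
        rw [Finset.mul_sum, Finset.mul_sum, Finset.mul_sum, Finset.mul_sum,
          ← Finset.sum_add_distrib, ← Finset.sum_add_distrib]
        refine Finset.sum_congr rfl fun i _ => ?_
        field_simp
        ring
      rw [e2]
      exact Finset.sum_nonneg fun i _ => mul_nonneg h0.le (sq_nonneg _)
  have hfin := Finset.sum_nonneg hsq
  rw [Finset.sum_add_distrib, Finset.sum_add_distrib, ← Finset.mul_sum, ← hXY] at hfin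
  linarith

end main

end Pool.JM
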