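import Pool.Agent.Work.MP_46fa68_T.Op
import Pool.Agent.Work.MP_46fa68_R.Kern

/-! # Diagonal entries of the idempotents, sums over the shapes below, counting -/

set_option autoImplicit false

open Finset Equiv

namespace Pool.JM

variable {N M : ℕ}

theorem ad_w_pos {B : Finset ℕ} {x : ℕ} (hx : x ∈ ad B) : 0 < w B x := by
  have h1 := ex_mv hx
  have h2 := ex_pos B
  have h3 := ex_pos (mv B x)
  rw [h1] at h3
  exact (pos_iff_pos_of_mul_pos h3).2 h2

theorem mv_injOn {B : Finset ℕ} {x y : ℕ} (hx : x ∈ ad B) (hy : y ∈ ad B)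
    (h : mv B x = mv B y) : x = y := by
  by_contra hne
  obtain ⟨x1, x2⟩ := mem_ad.1 hx
  obtain ⟨y1, y2⟩ := mem_ad.1 hy
  have h1 : x ∈ mv B y := by
    unfold mv
    exact mem_insert_of_mem (mem_erase.2 ⟨hne, x1⟩)
  rw [← h] at h1
  unfold mv at h1
  rcases mem_insert.1 h1 with h2 | h2
  · omega
  · exact (mem_erase.1 h2).1 rfl

/-- the pairs with a given upper shape are the removable boxes -/
theorem sum_below {n : ℕ} {B : Finset ℕ} (hB : B ∈ Lv M (n + 1)) {α : Type*} [AddCommMonoid α]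
    (f : Finset ℕ → ℕ → α) :
    ∑ q ∈ (Lv M n).sigma fun C => ad C, (if mv q.1 q.2 = B then f q.1 q.2 else 0) =
      ∑ x ∈ rm B, f (mvd B x) (x - 1) := by
  rw [← Finset.sum_filter]
  symm
  refine Finset.sum_bij' (fun x _ => (⟨mvd B x, x - 1⟩ : Σ _ : Finset ℕ, ℕ))
    (fun q _ => q.2 + 1) ?_ ?_ ?_ ?_ ?_
  · intro x hx
    exact mem_filter.2 ⟨mem_sigma.2 ⟨mvd_mem hB hx, (mv_mvd hx).1⟩, (mv_mvd hx).2⟩
  · rintro ⟨C, u⟩ hq
    obtain ⟨hq1, hq2⟩ := mem_filter.1 hq
    obtain ⟨hC, hu⟩ := mem_sigma.1 hq1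
    obtain ⟨u1, u2⟩ := mem_ad.1 hu
    simp only at hq2
    rw [mem_rm, ← hq2]
    refine ⟨mem_insert_self _ _, by omega, ?_⟩
    simp only [Nat.add_sub_cancel, mv, mem_insert, mem_erase]
    omega
  · intro x hx
    have := (mem_rm.1 hx).2.1
    simp only
    omega
  · rintro ⟨C, u⟩ hq
    obtain ⟨hq1, hq2⟩ := mem_filter.1 hq
    obtain ⟨hC, hu⟩ := mem_sigma.1 hq1
    obtain ⟨u1, u2⟩ := mem_ad.1 hu
    simp only at hq2 u1 u2 ⊢
    have e : mvd B (u + 1) = C := by
      rw [← hq2]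
      ext z
      simp only [mvd, mv, mem_insert, mem_erase, Nat.add_sub_cancel]
      constructor
      · rintro (h | ⟨h1, h2 | ⟨h3, h4⟩⟩)
        · exact h ▸ u1
        · exact absurd h2 h1
        · exact h4
      · intro h
        by_cases hz : z = u
        · exact Or.inl hz
        · exact Or.inr ⟨fun h' => u2 (h' ▸ h), Or.inr ⟨hz, h⟩⟩
    rw [e, Nat.add_sub_cancel]
  · intro x _
    rfl

theorem ex_range' : ex (range M) = 1 := by
  unfold ex vd
  rw [div_eq_one_iff_eq]
  · refine Finset.prod_congr rfl fun x hx => ?_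
    have hxM := mem_range.1 hx
    have h1 : (range M).filter (· < x) = range x := by
      ext y
      rw [mem_filter, mem_range, mem_range]
      omega
    rw [h1]
    have h2 : ∀ x : ℕ, ∏ y ∈ range x, ((x : ℝ) - y) = (x.factorial : ℝ) := by
      intro x
      have h3 : ∏ y ∈ range x, ((x : ℝ) - y) = ∏ y ∈ range x, (((x - 1 - y : ℕ) : ℝ) + 1) := by
        refine Finset.prod_congr rfl fun y hy => ?_
        have := mem_range.1 hy
        rw [Nat.cast_sub (by omega), Nat.cast_sub (by omega)]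
        push_cast
        ring
      rw [h3, Finset.prod_range_reflect (fun y => ((y : ℕ) : ℝ) + 1) x]
      rw [← Finset.prod_range_add_one_eq_factorial]
      push_cast
      rfl
    exact h2 x
  · exact Finset.prod_ne_zero_iff.2 fun x _ => by exact_mod_cast x.factorial_ne_zero

/-- diagonal entries of the idempotents -/
theorem P_diag (hM : N < M) : ∀ n, n ≤ N → ∀ B ∈ Lv M n,
    P N M n B 1 1 = n.factorial * ex B ^ 2
  | 0, _, B, hB => by
    have e : P N M 0 B = if B = range M then 1 else 0 := rfl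
    simp only [Lv, mem_singleton] at hB
    rw [e, if_pos hB, hB, ex_range', Matrix.one_apply_eq]
    simp
  | n + 1, h, B, hB => by
    have h1 : Sn n ((1 : Perm (Fin N)) * 1⁻¹) := by simpa using Sn_one (N := N) n
    have e1 := E_apply_of (T := P N M (n + 1) B) h1
    rw [← e1, E_P (by omega) hM, Matrix.sum_apply]
    have h2 : ∀ q ∈ (Lv M n).sigma fun C => ad C,
        (if mv q.1 q.2 = B then w q.1 q.2 • P N M n q.1 else 0 : Mat N) 1 1 =
          if mv q.1 q.2 = B then n.factorial * ex B * ex q.1 else 0 := by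
      intro q hq
      obtain ⟨hC, hu⟩ := mem_sigma.1 hq
      split_ifs with hqB
      · rw [Matrix.smul_apply, P_diag hM n (by omega) q.1 hC, smul_eq_mul, ← hqB, ex_mv hu]
        ring
      · rfl
    rw [Finset.sum_congr rfl h2, sum_below hB (fun C _ => (n.factorial : ℝ) * ex B * ex C),
      ← Finset.mul_sum, sum_rm_ex hB, Nat.factorial_succ]
    push_cast
    ring

/-- entries at the identity of a piece -/
theorem Pc_diag (hM : N < M) {n : ℕ} (hn : n < N) {C : Finset ℕ} (hC : C ∈ Lv M n) {x : ℕ}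
    (hx : x ∈ ad C) : Pc N M n C x 1 1 = w C x * P N M n C 1 1 := by
  have h1 : Sn n ((1 : Perm (Fin N)) * 1⁻¹) := by simpa using Sn_one (N := N) n
  have e1 := E_apply_of (T := Pc N M n C x) h1
  rw [← e1, (good (N := N) hM n hn.le).pc_E hn hC hx, Matrix.smul_apply, smul_eq_mul]

/-- second inverse moment of the transition measure -/
theorem sum_w_sq {C : Finset ℕ} (h0 : 0 ∈ C) {u : ℕ} (hu : u ∈ ad C) (h0' : 0 ∈ mv C u) :
    ∑ x ∈ mv C u, w (mv C u) x * (((x : ℝ) - u)⁻¹) ^ 2 = w C u := by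
  obtain ⟨hu1, hu2⟩ := mem_ad.1 hu
  have n1 : u + 1 ∉ C.erase u := fun h => hu2 (mem_of_mem_erase h)
  have h1 : ∑ x ∈ mv C u, w (mv C u) x * (1 - 1 / ((x : ℝ) - u) ^ 2) = 1 - w C u := by
    have e : mv C u = insert (u + 1) (C.erase u) := rfl
    rw [show (∑ x ∈ mv C u, w (mv C u) x * (1 - 1 / ((x : ℝ) - u) ^ 2)) =
      ∑ x ∈ insert (u + 1) (C.erase u), w (mv C u) x * (1 - 1 / ((x : ℝ) - u) ^ 2) from rfl,
      sum_insert n1]
    have z1 : w (mv C u) (u + 1) * (1 - 1 / (((u + 1 : ℕ) : ℝ) - u) ^ 2) = 0 := by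
      push_cast
      simp
    rw [z1, zero_add]
    have h2 : ∀ x ∈ C.erase u, w (mv C u) x * (1 - 1 / ((x : ℝ) - u) ^ 2) = w C x := by
      intro x hx
      rw [mem_erase] at hx
      exact w_step hu1 hu2 hx.2 hx.1
    rw [Finset.sum_congr rfl h2]
    have h3 := add_sum_erase C (fun x => w C x) hu1
    have h4 := w_sum C h0
    linarith
  have h5 := w_sum (mv C u) h0'
  have h6 : ∑ x ∈ mv C u, w (mv C u) x * (1 - 1 / ((x : ℝ) - u) ^ 2) =
      ∑ x ∈ mv C u, w (mv C u) x - ∑ x ∈ mv C u, w (mv C u) x * (((x : ℝ) - u)⁻¹) ^ 2 := by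
    rw [← Finset.sum_sub_distrib]
    refine Finset.sum_congr rfl fun x _ => ?_
    rw [inv_pow]
    ring
  rw [h6, h5] at h1
  linarith

/-- one more addable than removable box -/
theorem card_ad_rm {C : Finset ℕ} (h0 : 0 ∈ C) : (ad C).card = (rm C).card + 1 := by
  have h1 := Finset.card_filter_add_card_filter_not (s := C) (fun x => x + 1 ∉ C)
  have h2 := Finset.card_filter_add_card_filter_not (s := C.erase 0) (fun x => x - 1 ∉ C)
  have h3 : (rm C) = (C.erase 0).filter fun x => x - 1 ∉ C := by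
    ext x
    rw [mem_rm, mem_filter, mem_erase]
    constructor
    · rintro ⟨h4, h5, h6⟩
      exact ⟨⟨by omega, h4⟩, h6⟩
    · rintro ⟨⟨h4, h5⟩, h6⟩
      exact ⟨h5, by omega, h6⟩
  have h4 : (C.filter fun x => ¬ (x + 1 ∉ C)).card =
      ((C.erase 0).filter fun x => ¬ (x - 1 ∉ C)).card := by
    refine Finset.card_bij' (fun x _ => x + 1) (fun x _ => x - 1) ?_ ?_ ?_ ?_
    · intro x hx
      rw [mem_filter, not_not] at hx
      rw [mem_filter, not_not, mem_erase]
      exact ⟨⟨by omega, hx.2⟩, by simpa using hx.1⟩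
    · intro x hx
      rw [mem_filter, not_not, mem_erase] at hx
      rw [mem_filter, not_not]
      refine ⟨hx.2, ?_⟩
      rw [Nat.sub_add_cancel (by omega)]
      exact hx.1.2
    · intro x _
      simp
    · intro x hx
      rw [mem_filter, not_not, mem_erase] at hx
      change x - 1 + 1 = x
      omega
  have h5 := card_erase_of_mem h0
  have h6 : 0 < C.card := card_pos.2 ⟨0, h0⟩
  rw [← h3] at h2
  unfold ad
  omega

end Pool.JM
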