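import Pool.Agent.Work.MP_46fa68_82.KKdef
import Pool.Agent.Work.MP_46fa68_95.Block

/-! # Full marked kernels: entry bounds and positive semidefiniteness -/

set_option autoImplicit false

open Finset Equiv

namespace Pool.JM

variable {N M : ℕ}

section ent

theorem row_sq {T : Mat N} (hs : T.transpose = T) (hi : T * T = T) (g : Perm (Fin N)) :
    ∑ z, T g z ^ 2 ≤ 1 := by
  have h1 : ∑ z, T g z ^ 2 = T g g := by
    nth_rewrite 2 [← hi]
    rw [Matrix.mul_apply]
    refine Finset.sum_congr rfl fun z _ => ?_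
    have : T z g = T g z := by
      have := congrFun (congrFun hs g) z
      rwa [Matrix.transpose_apply] at this
    rw [this, sq]
  have h2 : T g g ^ 2 ≤ ∑ z, T g z ^ 2 :=
    Finset.single_le_sum (f := fun z => T g z ^ 2) (fun z _ => sq_nonneg _) (mem_univ g)
  rw [h1] at h2 ⊢
  nlinarith

theorem col_sq {T : Mat N} (hs : T.transpose = T) (hi : T * T = T) (h : Perm (Fin N)) :
    ∑ z, T z h ^ 2 ≤ 1 := by
  have h1 := row_sq hs hi h
  refine le_trans (le_of_eq ?_) h1
  refine Finset.sum_congr rfl fun z _ => ?_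
  have : T z h = T h z := by
    have := congrFun (congrFun hs h) z
    rwa [Matrix.transpose_apply] at this
  rw [this]

theorem mul_entry {S T : Mat N} {g h : Perm (Fin N)} (h1 : ∑ z, S g z ^ 2 ≤ 1)
    (h2 : ∑ z, T z h ^ 2 ≤ 1) : |(S * T) g h| ≤ 1 := by
  rw [Matrix.mul_apply]
  have h3 := Finset.sum_mul_sq_le_sq_mul_sq univ (fun z => S g z) (fun z => T z h)
  have h4 : (∑ z, S g z * T z h) ^ 2 ≤ 1 := by
    refine h3.trans ?_
    calc (∑ z, S g z ^ 2) * ∑ z, T z h ^ 2 ≤ 1 * 1 := by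
          refine mul_le_mul h1 h2 (Finset.sum_nonneg fun z _ => sq_nonneg _) zero_le_one
      _ = 1 := one_mul 1
  rw [← sq_le_one_iff_abs_le_one]
  exact h4

theorem Dg_row {T : Mat N} (n : ℕ) {g : Perm (Fin N)} (h1 : ∑ z, T g z ^ 2 ≤ 1) :
    ∑ z, (T * Dg N n) g z ^ 2 ≤ 1 := by
  classical
  refine le_trans (Finset.sum_le_sum fun z _ => ?_) h1
  rw [mul_Dg_apply]
  split_ifs
  · exact le_rfl
  · rw [zero_pow two_ne_zero]
    exact sq_nonneg _

theorem B_entry (hM : N < M) {k : ℕ} (hk : k < N) (C : Finset ℕ) (hC : C ∈ Lv M k) {x y : ℕ}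
    (hx : x ∈ ad C) (hy : y ∈ ad C) (g h : Perm (Fin N)) :
    |(Pc N M k C x * Dg N k * Pc N M k C y) g h| ≤ 1 := by
  have hg := good (N := N) hM k hk.le
  have hi : ∀ z ∈ ad C, Pc N M k C z * Pc N M k C z = Pc N M k C z := by
    intro z hz
    have := hg.pc_mul hk (C := C) (x := z) hC hz
    rwa [if_pos ⟨rfl, rfl⟩] at this
  exact mul_entry (Dg_row k (row_sq (hg.pc_symm hk C x) (hi x hx) g))
    (col_sq (hg.pc_symm hk C y) (hi y hy) h)

theorem D_entry (hM : N < M) {k : ℕ} (hk : k < N) (C C' : Finset ℕ) (g h : Perm (Fin N)) :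
    |(P N M k C * rv (P N M k C') * Dg N (k + 1)) g h| ≤ 1 := by
  classical
  have hg := good (N := N) hM k hk.le
  rw [mul_Dg_apply]
  split_ifs
  · refine mul_entry (row_sq (hg.symm C) (hg.idem C) g) ?_
    have h1 := col_sq (hg.symm C') (hg.idem C') h⁻¹
    refine le_trans (le_of_eq ?_) h1
    exact Fintype.sum_equiv (Equiv.inv (Perm (Fin N))) _ _ fun z => rfl
  · rw [abs_zero]
    exact zero_le_one

end ent

section lin

theorem KK_sub (k : ℕ) (b b' : Finset ℕ → ℕ → ℕ → ℝ) (d d' : Finset ℕ → Finset ℕ → ℝ) :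
    KK N M k b d - KK N M k b' d' =
      KK N M k (fun C x y => b C x y - b' C x y) (fun C C' => d C C' - d' C C') := by
  unfold KK
  simp only [sub_smul, Finset.sum_sub_distrib, sub_mul]
  abel

theorem KK_add (k : ℕ) (b b' : Finset ℕ → ℕ → ℕ → ℝ) (d d' : Finset ℕ → Finset ℕ → ℝ) :
    KK N M k b d + KK N M k b' d' =
      KK N M k (fun C x y => b C x y + b' C x y) (fun C C' => d C C' + d' C C') := by
  unfold KK
  simp only [add_smul, Finset.sum_add_distrib, add_mul]
  abel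

theorem KK_congr {k : ℕ} {b b' : Finset ℕ → ℕ → ℕ → ℝ} {d d' : Finset ℕ → Finset ℕ → ℝ}
    (hb : ∀ C ∈ Lv M k, ∀ x ∈ ad C, ∀ y ∈ ad C, b C x y = b' C x y)
    (hd : ∀ C ∈ Lv M k, ∀ C' ∈ Lv M k, C' ≠ C → d C C' = d' C C') :
    KK N M k b d = KK N M k b' d' := by
  unfold KK
  congr 1
  · refine Finset.sum_congr rfl fun C hC => Finset.sum_congr rfl fun x hx =>
      Finset.sum_congr rfl fun y hy => ?_
    rw [hb C hC x hx y hy]
  · congr 1
    refine Finset.sum_congr rfl fun C hC => Finset.sum_congr rfl fun C' hC' => ?_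
    obtain ⟨h1, h2⟩ := mem_erase.1 hC'
    rw [hd C hC C' h2 h1]

/-- the entries of a marked kernel are bounded by the sum of the absolute values of its data -/
theorem KK_entry (hM : N < M) {k : ℕ} (hk : k < N) (b : Finset ℕ → ℕ → ℕ → ℝ)
    (d : Finset ℕ → Finset ℕ → ℝ) (g h : Perm (Fin N)) :
    |KK N M k b d g h| ≤ (∑ C ∈ Lv M k, ∑ x ∈ ad C, ∑ y ∈ ad C, |b C x y|) +
      ∑ C ∈ Lv M k, ∑ C' ∈ (Lv M k).erase C, |d C C'| := by
  unfold KK
  rw [Matrix.add_apply]
  refine (abs_add_le _ _).trans (add_le_add ?_ ?_)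
  · rw [Matrix.sum_apply]
    refine (abs_sum_le_sum_abs _ _).trans (Finset.sum_le_sum fun C hC => ?_)
    rw [Matrix.sum_apply]
    refine (abs_sum_le_sum_abs _ _).trans (Finset.sum_le_sum fun x hx => ?_)
    rw [Matrix.sum_apply]
    refine (abs_sum_le_sum_abs _ _).trans (Finset.sum_le_sum fun y hy => ?_)
    rw [Matrix.smul_apply, smul_eq_mul, abs_mul]
    exact mul_le_of_le_one_right (abs_nonneg _) (B_entry hM hk C hC hx hy g h)
  · rw [Finset.sum_mul, Matrix.sum_apply]
    refine (abs_sum_le_sum_abs _ _).trans (Finset.sum_le_sum fun C hC => ?_)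
    rw [Finset.sum_mul, Matrix.sum_apply]
    refine (abs_sum_le_sum_abs _ _).trans (Finset.sum_le_sum fun C' hC' => ?_)
    rw [Matrix.smul_mul, Matrix.smul_apply, smul_eq_mul, abs_mul]
    exact mul_le_of_le_one_right (abs_nonneg _) (D_entry hM hk C C' g h)

/-- total difference of two data sets of level `k` -/
noncomputable def dist95 (M k : ℕ) (b b' : Finset ℕ → ℕ → ℕ → ℝ) (d d' : Finset ℕ → Finset ℕ → ℝ) :
    ℝ :=
  (∑ C ∈ Lv M k, ∑ x ∈ ad C, ∑ y ∈ ad C, |b C x y - b' C x y|) +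
      ∑ C ∈ Lv M k, ∑ C' ∈ (Lv M k).erase C, |d C C' - d' C C'|

theorem KK_close (hM : N < M) {k : ℕ} (hk : k < N) (b b' : Finset ℕ → ℕ → ℕ → ℝ)
    (d d' : Finset ℕ → Finset ℕ → ℝ) (g h : Perm (Fin N)) :
    KK N M k b d g h ≤ KK N M k b' d' g h + dist95 M k b b' d d' := by
  have h1 := KK_entry (N := N) hM hk (fun C x y => b C x y - b' C x y)
    (fun C C' => d C C' - d' C C') g h
  rw [← KK_sub, Matrix.sub_apply] at h1
  have h2 := (abs_le.1 h1).2
  unfold dist95
  linarith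

end lin

section psd

variable {n : ℕ}

/-- projections on different shapes without a common cover -/
theorem P_rvP_zero (hM : n + 1 < M) {C C' : Finset ℕ} (hC : C ∈ Lv M n)
    (h : ∀ x ∈ ad C, ∀ y ∈ ad C', mv C' y ≠ mv C x) :
    P (n + 1) M n C * rv (P (n + 1) M n C') = 0 := by
  rw [← pc_sum (N := n + 1) hC (by omega), Finset.sum_mul]
  exact Finset.sum_eq_zero fun x hx => pc_rv_zero hM hC hx (h x hx)

/-- **positive semidefiniteness of a marked kernel** -/
theorem KK_psd (hM : n + 1 < M) (b : Finset ℕ → ℕ → ℕ → ℝ) (d : Finset ℕ → Finset ℕ → ℝ)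
    (hb : ∀ C ∈ Lv M n, ∀ v : ℕ → ℝ, 0 ≤ ∑ x ∈ ad C, ∑ y ∈ ad C, b C x y * (v x * v y))
    (hd : ∀ C ∈ Lv M n, ∀ x ∈ ad C, ∀ C' ∈ Lv M n, ∀ y ∈ ad C', C ≠ C' → mv C' y = mv C x →
      0 ≤ d C C')
    (v : Perm (Fin (n + 1)) → ℝ) : 0 ≤ v ⬝ᵥ ((KK (n + 1) M n b d).mulVec v) := by
  classical
  have hg := good (N := n + 1) hM n (by omega)
  have hn : n < n + 1 := by omega
  unfold KK
  rw [Dg_top (N := n + 1) (n + 1) le_rfl, mul_one, Matrix.add_mulVec, dotProduct_add]
  refine add_nonneg ?_ ?_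
  · rw [Matrix.sum_mulVec, dotProduct_sum]
    refine Finset.sum_nonneg fun C hC => ?_
    have h1 : v ⬝ᵥ ((∑ x ∈ ad C, ∑ y ∈ ad C, b C x y •
        (Pc (n + 1) M n C x * Dg (n + 1) n * Pc (n + 1) M n C y)).mulVec v) =
        ∑ g, ∑ x ∈ ad C, ∑ y ∈ ad C, b C x y *
          (((Dg (n + 1) n * Pc (n + 1) M n C x).mulVec v) g *
            ((Dg (n + 1) n * Pc (n + 1) M n C y).mulVec v) g) := by
      rw [Matrix.sum_mulVec, dotProduct_sum, Finset.sum_comm]
      refine Finset.sum_congr rfl fun x _ => ?_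
      rw [Matrix.sum_mulVec, dotProduct_sum, Finset.sum_comm]
      refine Finset.sum_congr rfl fun y _ => ?_
      rw [Matrix.smul_mulVec, dotProduct_smul, smul_eq_mul, ← Finset.mul_sum]
      congr 1
      have e1 : Pc (n + 1) M n C x * Dg (n + 1) n * Pc (n + 1) M n C y =
          (Dg (n + 1) n * Pc (n + 1) M n C x).transpose * (Dg (n + 1) n * Pc (n + 1) M n C y) := by
        rw [Matrix.transpose_mul, hg.pc_symm hn, Dg_transpose]
        calc Pc (n + 1) M n C x * Dg (n + 1) n * Pc (n + 1) M n C y =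
            Pc (n + 1) M n C x * (Dg (n + 1) n * Dg (n + 1) n) * Pc (n + 1) M n C y := by
              rw [Dg_idem]
          _ = _ := by noncomm_ring
      rw [e1, ← Matrix.mulVec_mulVec, Matrix.dotProduct_mulVec, ← Matrix.mulVec_transpose,
        Matrix.transpose_transpose]
      rfl
    rw [h1]
    refine Finset.sum_nonneg fun g _ => ?_
    exact hb C hC fun x => ((Dg (n + 1) n * Pc (n + 1) M n C x).mulVec v) g
  · rw [Matrix.sum_mulVec, dotProduct_sum]
    refine Finset.sum_nonneg fun C hC => ?_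
    rw [Matrix.sum_mulVec, dotProduct_sum]
    refine Finset.sum_nonneg fun C' hC' => ?_
    obtain ⟨hne, hC'1⟩ := mem_erase.1 hC'
    rw [Matrix.smul_mulVec, dotProduct_smul, smul_eq_mul]
    by_cases hcov : ∀ x ∈ ad C, ∀ y ∈ ad C', mv C' y ≠ mv C x
    · rw [P_rvP_zero hM hC hcov, Matrix.zero_mulVec, dotProduct_zero, mul_zero]
    · push Not at hcov
      obtain ⟨x, hx, y, hy, hxy⟩ := hcov
      refine mul_nonneg (hd C hC x hx C' hC'1 y hy (Ne.symm hne) hxy) ?_
      have hcm : P (n + 1) M n C * rv (P (n + 1) M n C') =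
          rv (P (n + 1) M n C') * P (n + 1) M n C := rv_comm (hg.al C).2 (hg.al C').2
      have hs : (P (n + 1) M n C * rv (P (n + 1) M n C')).transpose =
          P (n + 1) M n C * rv (P (n + 1) M n C') := by
        rw [Matrix.transpose_mul, rv_transpose, hg.symm, hg.symm, hcm]
      have hi : P (n + 1) M n C * rv (P (n + 1) M n C') *
          (P (n + 1) M n C * rv (P (n + 1) M n C')) =
          P (n + 1) M n C * rv (P (n + 1) M n C') := by
        calc P (n + 1) M n C * rv (P (n + 1) M n C') *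
              (P (n + 1) M n C * rv (P (n + 1) M n C')) =
            P (n + 1) M n C * (rv (P (n + 1) M n C') * P (n + 1) M n C) *
              rv (P (n + 1) M n C') := by noncomm_ring
          _ = (P (n + 1) M n C * P (n + 1) M n C) *
              (rv (P (n + 1) M n C') * rv (P (n + 1) M n C')) := by
              rw [← hcm]; noncomm_ring
          _ = _ := by rw [hg.idem, ← rv_mul, hg.idem]
      rw [ip_idem hs hi]
      exact Finset.sum_nonneg fun i _ => mul_self_nonneg _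

end psd

end Pool.JM
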