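import Pool.Agent.Work.MP_46fa68_95.PsdZ
import Pool.Agent.Work.MP_46fa68_19.Mk5
import Pool.Agent.Work.MP_46fa68_31.Tree

/-! # Positivity of the tables of the top level -/

set_option autoImplicit false

open Finset

namespace Pool.PsdZ

open Pool.JM.RT (fI fI_eq)

theorem rowK_eq {β : Type} (a ui : ℤ) : ∀ (r u : List ℤ) (k : List ℤ → β),
    rowK a ui r u k = k (row a ui r u) := by
  intro r
  induction r with
  | nil => intro u k; cases u <;> rfl
  | cons z zs ih =>
    intro u k
    cases u with
    | nil => rfl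
    | cons y ys =>
      change fI (a * z - ui * y) (fun v => rowK a ui zs ys fun l => k (v :: l)) = _
      rw [fI_eq, ih]
      rfl

theorem stepK_eq {β : Type} (a : ℤ) : ∀ (us : List ℤ) (rows : List (List ℤ))
    (k : List (List ℤ) → β), stepK a us rows k = k (step a us rows) := by
  intro us
  induction us with
  | nil => intro rows k; cases rows <;> rfl
  | cons ui us ih =>
    intro rows k
    cases rows with
    | nil => rfl
    | cons r rs =>
      change rowK a ui r (ui :: us) (fun v => stepK a us rs fun l => k (v :: l)) = _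
      rw [rowK_eq, ih]
      rfl

theorem psdK_eq : ∀ (n : ℕ) (rows : List (List ℤ)), psdK n rows = psdT n rows := by
  intro n
  induction n with
  | zero =>
    intro rows
    cases rows with
    | nil => rfl
    | cons r rows => cases r <;> rfl
  | succ n ih =>
    intro rows
    cases rows with
    | nil => rfl
    | cons r rows =>
      cases r with
      | nil => rfl
      | cons a u =>
        change (Nat.ble 1 a.toNat && stepK a u rows fun rs => psdK n rs) = _
        rw [stepK_eq, ih]
        rfl

theorem lstK_eq {β : Type} (f : ℕ → ℤ) : ∀ (xs : List ℕ) (k : List ℤ → β),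
    lstK f xs k = k (xs.map f) := by
  intro xs
  induction xs with
  | nil => intro k; rfl
  | cons x xs ih =>
    intro k
    change fI (f x) (fun v => lstK f xs fun l => k (v :: l)) = _
    rw [fI_eq, ih]
    rfl

theorem mkK_eq {β : Type} (B : ℕ → ℕ → ℤ) : ∀ (xs : List ℕ) (k : List (List ℤ) → β),
    mkK B xs k = k (mk B xs) := by
  intro xs
  induction xs with
  | nil => intro k; rfl
  | cons x xs ih =>
    intro k
    change lstK (B x) (x :: xs) (fun r => mkK B xs fun l => k (r :: l)) = _
    rw [lstK_eq, ih]
    rfl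

end Pool.PsdZ

namespace Pool.JM.MK

open Pool.PsdZ

theorem chP_eq (W : ℕ) (t : Tr) (c : ℕ) : chP W t c = psdT 64 (mk (gt t c) (posl 1 W c)) := by
  unfold chP
  rw [mkK_eq, psdK_eq]

/-- **positivity at the top level, from the table** -/
theorem chP_sound {M n W : ℕ} {S : ℝ} {tB : Tr} (hS : 0 < S) (hW : M + n ≤ W)
    {cs : List ℕ} (hcs : ∀ C ∈ Lv M n, cd C ∈ cs) (h : allL cs (chP W tB) = true) :
    ∀ C ∈ Lv M n, ∀ v : ℕ → ℝ,
      0 ≤ ∑ x ∈ ad C, ∑ y ∈ ad C, bK (S * n.factorial) tB C x y * (v x * v y) := by
  intro C hC v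
  have h1 := allL_iff.1 h _ (hcs C hC)
  rw [chP_eq] at h1
  have hex := ex_pos C
  have hf : (0 : ℝ) < n.factorial := by exact_mod_cast n.factorial_pos
  have had : (posl 1 W (cd C)).toFinset = ad C := posl_ad fun z hz => by
    have := Lv_ad_lt hC hz
    omega
  refine psd_norm (Bh := fun x y => (gt tB (cd C) x y : ℝ)) (c := S * n.factorial * ex C)
    (by positivity) (fun x hx => (ad_w_pos hx).ne') ?_ ?_ v
  · intro x hx y hy
    have h2 := (ad_w_pos hx).ne'
    have h3 := (ad_w_pos hy).ne'
    change (gt tB (cd C) x y : ℝ) = _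
    unfold bK bt
    field_simp
  · intro v'
    have h4 := psd_list (gt tB (cd C)) (posl 1 W (cd C)) (fun x _ y _ => gt_symm _ _ _ _)
      (nodup_posl _ _ _) 64 h1 v'
    rw [had] at h4
    exact h4

end Pool.JM.MK
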