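import Pool.Agent.Work.MP_46fa68_95.RowI
import Pool.Agent.Work.MP_46fa68_82.KK

/-! # Kernels supported on the pairs with a common value in the row (column) of the mark, in normal form -/

set_option autoImplicit false

open Finset Equiv

namespace Pool.JM

variable {N M : ℕ}

theorem inv_of_comm {K : Mat N} {a : Perm (Fin N)} (h : U a⁻¹ * K = K * U a⁻¹)
    (g x : Perm (Fin N)) : K (a * g) (a * x) = K g x := by
  have h1 : (U a⁻¹ * K) g (a * x) = K (a * g) (a * x) := by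
    rw [U_mul_apply, inv_inv]
  have h2 : (K * U a⁻¹) g (a * x) = K g x := by
    rw [mul_U_apply, inv_mul_cancel_left]
  rw [← h1, h, h2]

theorem inv_of_comm_rv {K : Mat N} {b : Perm (Fin N)} (h : rv (U b) * K = K * rv (U b))
    (g x : Perm (Fin N)) : K (g * b) (x * b) = K g x := by
  have h1 := congrArg rv h
  rw [rv_mul, rv_mul, rv_rv] at h1
  have h2 : U (b⁻¹)⁻¹ * rv K = rv K * U (b⁻¹)⁻¹ := by
    rw [inv_inv]
    exact h1
  have h3 := inv_of_comm h2 g⁻¹ x⁻¹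
  change K (b⁻¹ * g⁻¹)⁻¹ (b⁻¹ * x⁻¹)⁻¹ = K (g⁻¹)⁻¹ (x⁻¹)⁻¹ at h3
  rwa [mul_inv_rev, mul_inv_rev, inv_inv, inv_inv, inv_inv] at h3

/-- a marked kernel is invariant under `S_k` from both sides -/
theorem KK_inv2 (hM : N < M) {k : ℕ} (hk : k < N) (b : Finset ℕ → ℕ → ℕ → ℝ)
    (d : Finset ℕ → Finset ℕ → ℝ) {a c : Perm (Fin N)} (ha : Sn k a) (hc : Sn k c)
    (g h : Perm (Fin N)) :
    KK N M k b d (a * g * c) (a * h * c) = KK N M k b d g h := by
  rw [inv_of_comm_rv (KK_right hM hk b d hc), inv_of_comm (KK_left hM hk b d (Sn_inv ha))]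

theorem T1_delta {k : ℕ} {C : Finset ℕ} (hC : C ∈ Lv M k) {u : ℕ} (hu : u ∈ ad C)
    [DecidableEq (Finset ℕ)] :
    T1 N M k (fun B' C' => if B' = mv C u ∧ C' = C then 1 else 0) = Pc N M k C u := by
  unfold T1
  rw [Finset.sum_eq_single ⟨C, u⟩]
  · simp only
    rw [if_pos ⟨trivial, trivial⟩, one_smul]
  · rintro ⟨D, y⟩ hq hne
    obtain ⟨hD, hy⟩ := mem_sigma.1 hq
    simp only at hD hy ⊢
    rw [if_neg, zero_smul]
    rintro ⟨h1, rfl⟩
    have h2 : y = u := mv_inj82 hy h1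
    exact hne (by rw [h2])
  · intro h'
    exact absurd (mem_sigma.2 ⟨hC, hu⟩) h'

/-- the entries of the induced projection vanish off the fibres of the row of the mark -/
theorem Zr_zero (hM : N < M) {k : ℕ} (hk : k + 1 < N) {C : Finset ℕ} (hC : C ∈ Lv M k) {u : ℕ}
    (hu : u ∈ ad C) {g h : Perm (Fin N)} (hh : Sn (k + 2) h)
    (hgh : g ⟨k + 1, hk⟩ ≠ h ⟨k + 1, hk⟩ ∨ h ⟨k + 1, hk⟩ = ⟨k + 1, hk⟩) :
    KK N M (k + 1) (bZ C u) (dZ C u) g h = 0 := by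
  classical
  obtain ⟨h1, h2, h3⟩ := Zr_proj hM hk hC hu
  have hg0 := good (N := N) hM k (by omega)
  refine fib_zero hk h1 h2 (fun a ha g h => inv_of_comm (KK_left hM hk _ _ (Sn_inv ha)) g h) h3
    ?_ hh hgh
  have e1 : T1 N M k (rowF (bZ C u) (dZ C u)) = Pc N M k C u := by
    rw [← T1_delta (N := N) hC hu]
    refine T1_congr fun C' hC' x hx => ?_
    exact rowF_Z hM hk hC hu hC' hx rfl
  rw [KK_row hM hk, e1]
  have hc : Dg N (k + 1) * Pc N M k C u = Pc N M k C u * Dg N (k + 1) :=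
    Dg_comm le_rfl (hg0.pc_al C u).1
  have hpp : Pc N M k C u * Pc N M k C u = Pc N M k C u := by
    have := hg0.pc_mul (N := N) (by omega) (C := C) (x := u) hC hu
    rwa [if_pos ⟨rfl, rfl⟩] at this
  calc Pc N M k C u * Dg N (k + 1) * (Pc N M k C u * Dg N (k + 1)) =
      Pc N M k C u * (Dg N (k + 1) * Pc N M k C u) * Dg N (k + 1) := by noncomm_ring
    _ = Pc N M k C u * Pc N M k C u * (Dg N (k + 1) * Dg N (k + 1)) := by
        rw [hc]; noncomm_ring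
    _ = _ := by rw [hpp, Dg_idem]

/-- linear combinations of marked kernels -/
theorem KK_sum {ι : Type*} (s : Finset ι) (k : ℕ) (c : ι → ℝ) (b : ι → Finset ℕ → ℕ → ℕ → ℝ)
    (d : ι → Finset ℕ → Finset ℕ → ℝ) :
    ∑ i ∈ s, c i • KK N M k (b i) (d i) =
      KK N M k (fun C x y => ∑ i ∈ s, c i * b i C x y) (fun C C' => ∑ i ∈ s, c i * d i C C') := by
  unfold KK
  simp only [smul_add, Finset.sum_add_distrib]
  congr 1
  · simp only [Finset.smul_sum, Finset.sum_smul, smul_smul]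
    rw [Finset.sum_comm]
    refine Finset.sum_congr rfl fun C _ => ?_
    rw [Finset.sum_comm]
    refine Finset.sum_congr rfl fun x _ => ?_
    rw [Finset.sum_comm]
  · have h1 : ∀ i ∈ s, c i • ((∑ C ∈ Lv M k, ∑ C' ∈ (Lv M k).erase C, d i C C' •
        (P N M k C * rv (P N M k C'))) * Dg N (k + 1)) =
        (∑ C ∈ Lv M k, ∑ C' ∈ (Lv M k).erase C, (c i * d i C C') •
        (P N M k C * rv (P N M k C'))) * Dg N (k + 1) := by
      intro i _
      rw [← Matrix.smul_mul, Finset.smul_sum]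
      congr 1
      refine Finset.sum_congr rfl fun C _ => ?_
      rw [Finset.smul_sum]
      exact Finset.sum_congr rfl fun C' _ => by rw [smul_smul]
    rw [Finset.sum_congr rfl h1, ← Finset.sum_mul]
    congr 1
    rw [Finset.sum_comm]
    refine Finset.sum_congr rfl fun C _ => ?_
    rw [Finset.sum_comm]
    exact Finset.sum_congr rfl fun C' _ => by rw [Finset.sum_smul]

/-- rank one data of the row kernel with the function `f` -/
noncomputable def bR (M k : ℕ) (f : Finset ℕ → Finset ℕ → ℝ) (ν : Finset ℕ) (x y : ℕ) : ℝ :=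
  ∑ q ∈ (Lv M k).sigma fun C => ad C, f (mv q.1 q.2) q.1 * bZ q.1 q.2 ν x y

/-- block data of the row kernel with the function `f` -/
noncomputable def dR (M k : ℕ) (f : Finset ℕ → Finset ℕ → ℝ) (μ ν : Finset ℕ) : ℝ :=
  ∑ q ∈ (Lv M k).sigma fun C => ad C, f (mv q.1 q.2) q.1 * dZ q.1 q.2 μ ν

theorem bR_eq {k : ℕ} (f : Finset ℕ → Finset ℕ → ℝ) {ν : Finset ℕ} (hν : ν ∈ Lv M (k + 1))
    (x y : ℕ) : bR M k f ν x y = ∑ v ∈ rm ν, f ν (mvd ν v) * ((w (mvd ν v) (v - 1))⁻¹ *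
      (((x : ℝ) - ((v - 1 : ℕ) : ℝ))⁻¹ * ((y : ℝ) - ((v - 1 : ℕ) : ℝ))⁻¹)) := by
  rw [← sum_below hν (fun C u => f ν C * ((w C u)⁻¹ * (((x : ℝ) - (u : ℝ))⁻¹ *
    ((y : ℝ) - (u : ℝ))⁻¹)))]
  unfold bR
  refine Finset.sum_congr rfl fun q _ => ?_
  unfold bZ
  by_cases h : mv q.1 q.2 = ν
  · rw [if_pos h, if_pos h.symm, h]
  · rw [if_neg h, if_neg (Ne.symm h), mul_zero]

/-- the block data: the common lower shape -/
theorem dR_eq {k : ℕ} (f : Finset ℕ → Finset ℕ → ℝ) {C : Finset ℕ} (hC : C ∈ Lv M k) {y u : ℕ}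
    (hy : y ∈ ad C) (hu : u ∈ ad C) (hne : y ≠ u) :
    dR M k f (mv C y) (mv C u) = f (mv C u) C := by
  classical
  unfold dR
  rw [Finset.sum_eq_single ⟨C, u⟩]
  · simp only
    unfold dZ
    rw [if_pos ⟨rfl, y, hy, rfl⟩, mul_one]
  · rintro ⟨D, z⟩ hq hne'
    obtain ⟨hD, hz⟩ := mem_sigma.1 hq
    simp only at hD hz ⊢
    unfold dZ
    by_cases hDC : D = C
    · subst hDC
      rw [if_neg, mul_zero]
      rintro ⟨h1, -⟩
      exact hne' (by rw [mv_inj82 hu h1])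
    · rw [if_neg, mul_zero]
      rintro ⟨h1, z', hz', h2⟩
      exact hne (cover_unique (Ne.symm hDC) hy hz' h2.symm hu hz h1)
  · intro h
    exact absurd (mem_sigma.2 ⟨hC, hu⟩) h

/-- the block data vanish if there is no common lower shape -/
theorem dR_zero {k : ℕ} (f : Finset ℕ → Finset ℕ → ℝ) {μ ν : Finset ℕ}
    (h : ∀ C ∈ Lv M k, ∀ y ∈ ad C, ∀ u ∈ ad C, ¬ (mv C y = μ ∧ mv C u = ν)) :
    dR M k f μ ν = 0 := by
  classical
  unfold dR
  refine Finset.sum_eq_zero fun q hq => ?_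
  obtain ⟨hC, hu⟩ := mem_sigma.1 hq
  unfold dZ
  rw [if_neg, mul_zero]
  rintro ⟨h1, y, hy, h2⟩
  exact h q.1 hC y hy q.2 hu ⟨h2, h1.symm⟩

/-- **the row kernel vanishes off the fibres of the row of the mark** -/
theorem row_zero95 (hM : N < M) {k : ℕ} (hk : k + 1 < N) (f : Finset ℕ → Finset ℕ → ℝ)
    {g h : Perm (Fin N)} (hh : Sn (k + 2) h)
    (hgh : g ⟨k + 1, hk⟩ ≠ h ⟨k + 1, hk⟩ ∨ h ⟨k + 1, hk⟩ = ⟨k + 1, hk⟩) :
    KK N M (k + 1) (bR M k f) (dR M k f) g h = 0 := by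
  have e : KK N M (k + 1) (bR M k f) (dR M k f) =
      ∑ q ∈ (Lv M k).sigma fun C => ad C, f (mv q.1 q.2) q.1 •
        KK N M (k + 1) (bZ q.1 q.2) (dZ q.1 q.2) := by
    rw [KK_sum]
    rfl
  rw [e, Matrix.sum_apply]
  refine Finset.sum_eq_zero fun q hq => ?_
  obtain ⟨hC, hu⟩ := mem_sigma.1 hq
  rw [Matrix.smul_apply, Zr_zero hM hk hC hu hh hgh, smul_zero]

/-- **the column kernel vanishes off the fibres of the column of the mark** -/
theorem col_zero95 (hM : N < M) {k : ℕ} (hk : k + 1 < N) (f : Finset ℕ → Finset ℕ → ℝ)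
    {g h : Perm (Fin N)} (hh : Sn (k + 2) h)
    (hgh : g⁻¹ ⟨k + 1, hk⟩ ≠ h⁻¹ ⟨k + 1, hk⟩ ∨ h⁻¹ ⟨k + 1, hk⟩ = ⟨k + 1, hk⟩) :
    KK N M (k + 1) (bR M k f) (fun C C' => dR M k f C' C) g h = 0 := by
  rw [← rv_KK hM hk]
  exact row_zero95 hM hk f (Sn_inv hh) hgh

end Pool.JM
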