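import Pool.Agent.Work.MP_46fa68_95.RowI
import Pool.Agent.Work.MP_46fa68_28.Joint

/-! # The target kernel at level `m = j + 1` (mark `j`) -/

set_option autoImplicit false

open Finset Equiv

namespace Pool.JM

variable {N M : ℕ}

theorem Pc_Rw (hM : N < M) (j : ℕ) :
    Pc N M j (Rw M j) (M - 1 + j) = P N M (j + 1) (Rw M (j + 1)) := by
  rw [P_succ, Finset.sum_eq_single ⟨Rw M j, M - 1 + j⟩]
  · simp only
    rw [if_pos (Rw_mv M j)]
  · rintro ⟨C, x⟩ hq hne
    obtain ⟨hC, hx⟩ := mem_sigma.1 hq
    simp only at hC hx ⊢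
    rw [if_neg]
    intro h
    obtain ⟨h1, h2⟩ := Rw_of_mv (by omega) hC hx h
    subst h1 h2
    exact hne rfl
  · intro h
    exact absurd (mem_sigma.2 ⟨Rw_mem (by omega) j, Rw_ad M j⟩) h

theorem PRw_entry (hM : N < M) {m : ℕ} (hm : m ≤ N) {g h : Perm (Fin N)} (hgh : Sn m (g * h⁻¹)) :
    P N M m (Rw M m) g h = 1 / (m.factorial : ℝ) := by
  have hinv := ((good (N := N) hM m hm).al (Rw M m)).2
  have := hinv (g * h⁻¹) 1 h
  rw [one_mul, inv_mul_cancel_right] at this
  rw [this]
  exact P_Rw hM hm hgh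

/-- data of the target kernel: `hh` arbitrary on the pairs through the mark -/
noncomputable def bT (M j : ℕ) (hh : Finset ℕ → ℝ) (s12 s22 : ℝ) (C : Finset ℕ) (x y : ℕ) : ℝ :=
  hh C - if C = Rw M j then
    ((j : ℝ) + 1) * s22 * ((if x = M - 1 + j then 1 else 0) * (if y = M - 1 + j then 1 else 0)) +
      (s12 - s22) * ((if x = M - 1 + j then 1 else 0) + (if y = M - 1 + j then 1 else 0)) else 0

theorem KK_HH (hM : N < M) {j : ℕ} (hj : j < N) (hh : Finset ℕ → ℝ) :
    KK N M j (fun C _ _ => hh C) (fun _ _ => 0) = G N M hh j * Dg N j := by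
  have hg := good (N := N) hM j hj.le
  unfold KK G
  have h0 : (∑ C ∈ Lv M j, ∑ C' ∈ (Lv M j).erase C, (0 : ℝ) •
      (P N M j C * rv (P N M j C'))) * Dg N (j + 1) = 0 := by
    simp
  rw [h0, add_zero, Finset.sum_mul]
  refine Finset.sum_congr rfl fun C hC => ?_
  have h1 : ∑ x ∈ ad C, ∑ y ∈ ad C, hh C • (Pc N M j C x * Dg N j * Pc N M j C y) =
      hh C • ((∑ x ∈ ad C, Pc N M j C x) * Dg N j * ∑ y ∈ ad C, Pc N M j C y) := by
    rw [Finset.sum_mul, Finset.sum_mul, Finset.smul_sum]
    refine Finset.sum_congr rfl fun x _ => ?_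
    rw [Finset.mul_sum, Finset.smul_sum]
  rw [h1, pc_sum hC (by omega), Matrix.smul_mul]
  congr 1
  rw [mul_assoc, Dg_comm le_rfl (hg.al C).1, ← mul_assoc, hg.idem]

theorem KK_base (hM : N < M) {j : ℕ} (hj : j < N) (a b : ℝ) :
    KK N M j (fun C x y => if C = Rw M j then
      a * ((if x = M - 1 + j then 1 else 0) * (if y = M - 1 + j then 1 else 0)) +
        b * ((if x = M - 1 + j then 1 else 0) + (if y = M - 1 + j then 1 else 0)) else 0)
      (fun _ _ => 0) =
      a • (P N M (j + 1) (Rw M (j + 1)) * Dg N j * P N M (j + 1) (Rw M (j + 1))) +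
      b • (P N M (j + 1) (Rw M (j + 1)) * Dg N j * P N M j (Rw M j) +
        P N M j (Rw M j) * Dg N j * P N M (j + 1) (Rw M (j + 1))) := by
  have hR := Rw_mem (M := M) (by omega) j
  have hx0 := Rw_ad M j
  unfold KK
  have h0 : (∑ C ∈ Lv M j, ∑ C' ∈ (Lv M j).erase C, (0 : ℝ) •
      (P N M j C * rv (P N M j C'))) * Dg N (j + 1) = 0 := by
    simp
  rw [h0, add_zero, Finset.sum_eq_single (Rw M j)]
  · simp only [if_true]
    have e1 : P N M j (Rw M j) = ∑ x ∈ ad (Rw M j), Pc N M j (Rw M j) x :=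
      (pc_sum hR (by omega)).symm
    have e2 : ∑ x ∈ ad (Rw M j), ∑ y ∈ ad (Rw M j),
        (a * ((if x = M - 1 + j then 1 else 0) * (if y = M - 1 + j then 1 else 0)) +
        b * ((if x = M - 1 + j then 1 else 0) + (if y = M - 1 + j then 1 else 0))) •
        (Pc N M j (Rw M j) x * Dg N j * Pc N M j (Rw M j) y) =
        ∑ x ∈ ad (Rw M j), ∑ y ∈ ad (Rw M j),
          ((if x = M - 1 + j then (if y = M - 1 + j then
            a • (Pc N M j (Rw M j) x * Dg N j * Pc N M j (Rw M j) y) else 0) else 0) +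
          ((if x = M - 1 + j then b • (Pc N M j (Rw M j) x * Dg N j * Pc N M j (Rw M j) y) else 0) +
          (if y = M - 1 + j then b • (Pc N M j (Rw M j) x * Dg N j * Pc N M j (Rw M j) y)
            else 0))) := by
      refine Finset.sum_congr rfl fun x _ => Finset.sum_congr rfl fun y _ => ?_
      by_cases hx : x = M - 1 + j
      · by_cases hy : y = M - 1 + j
        · simp only [if_pos hx, if_pos hy]
          module
        · simp only [if_pos hx, if_neg hy]
          module
      · by_cases hy : y = M - 1 + j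
        · simp only [if_neg hx, if_pos hy]
          module
        · simp only [if_neg hx, if_neg hy]
          module
    rw [e2]
    simp only [Finset.sum_add_distrib]
    congr 1
    · rw [Finset.sum_eq_single (M - 1 + j)]
      · rw [Finset.sum_eq_single (M - 1 + j)]
        · rw [if_pos rfl, if_pos rfl, Pc_Rw hM]
        · intro y _ hne
          rw [if_pos rfl, if_neg hne]
        · intro h
          exact absurd hx0 h
      · intro x _ hne
        refine Finset.sum_eq_zero fun y _ => ?_
        rw [if_neg hne]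
      · intro h
        exact absurd hx0 h
    · rw [smul_add]
      congr 1
      · rw [Finset.sum_eq_single (M - 1 + j)]
        · simp only [if_true]
          rw [← Finset.smul_sum, ← Finset.mul_sum, ← e1, Pc_Rw hM]
        · intro x _ hne
          refine Finset.sum_eq_zero fun y _ => ?_
          rw [if_neg hne]
        · intro h
          exact absurd hx0 h
      · rw [Finset.sum_comm, Finset.sum_eq_single (M - 1 + j)]
        · simp only [if_true]
          rw [← Finset.smul_sum, ← Finset.sum_mul, ← Finset.sum_mul, ← e1, Pc_Rw hM]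
        · intro y _ hne
          refine Finset.sum_eq_zero fun x _ => ?_
          rw [if_neg hne]
        · intro h
          exact absurd hx0 h
  · intro C _ hne
    refine Finset.sum_eq_zero fun x _ => Finset.sum_eq_zero fun y _ => ?_
    simp only [if_neg hne, zero_smul]
  · intro h
    exact absurd hR h

theorem card_Sn95 {m : ℕ} (hm : m ≤ N) [DecidablePred fun g : Perm (Fin N) => Sn m g] :
    (univ.filter fun g : Perm (Fin N) => Sn m g).card = m.factorial := by
  rw [← card_Sn (N := N) (m := m) hm]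
  congr 1
  ext g
  rw [mem_filter, mem_filter]
  exact Iff.rfl

/-- entries of the three products -/
theorem DD_entry (hM : N < M) {j : ℕ} (hj : j < N) {g h : Perm (Fin N)} (hg : Sn (j + 1) g)
    (hh : Sn (j + 1) h) :
    (P N M (j + 1) (Rw M (j + 1)) * Dg N j * P N M (j + 1) (Rw M (j + 1))) g h =
      1 / (((j : ℝ) + 1) * (j + 1).factorial) := by
  classical
  rw [Matrix.mul_apply]
  have h1 : ∀ z, (P N M (j + 1) (Rw M (j + 1)) * Dg N j) g z * P N M (j + 1) (Rw M (j + 1)) z h =
      if Sn j z then (1 / ((j + 1).factorial : ℝ)) ^ 2 else 0 := by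
    intro z
    rw [mul_Dg_apply]
    split_ifs with hz
    · have hz' : Sn (j + 1) z := Sn_mono (Nat.le_succ j) hz
      rw [PRw_entry hM hj (Sn_mul hg (Sn_inv hz')), PRw_entry hM hj (Sn_mul hz' (Sn_inv hh)), sq]
    · rw [zero_mul]
  rw [Finset.sum_congr rfl fun z _ => h1 z, ← Finset.sum_filter, Finset.sum_const, nsmul_eq_mul,
    card_Sn95 (by omega), Nat.factorial_succ]
  have : (j.factorial : ℝ) ≠ 0 := by positivity
  push_cast
  field_simp

theorem OD_entry (hM : N < M) {j : ℕ} (hj : j < N) {g h : Perm (Fin N)}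
    (hh : Sn (j + 1) h) [Decidable (Sn j g)] :
    (P N M j (Rw M j) * Dg N j * P N M (j + 1) (Rw M (j + 1))) g h =
      if Sn j g then 1 / ((j + 1).factorial : ℝ) else 0 := by
  classical
  rw [Matrix.mul_apply]
  have hbd : Bd j (P N M j (Rw M j)) := ((good (N := N) hM j hj.le).al _).1
  have h1 : ∀ z, (P N M j (Rw M j) * Dg N j) g z * P N M (j + 1) (Rw M (j + 1)) z h =
      if Sn j z then (if Sn j g then (1 / (j.factorial : ℝ)) * (1 / ((j + 1).factorial : ℝ))
        else 0) else 0 := by
    intro z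
    rw [mul_Dg_apply]
    split_ifs with hz hg
    · have hz' : Sn (j + 1) z := Sn_mono (Nat.le_succ j) hz
      rw [PRw_entry hM hj.le (Sn_mul hg (Sn_inv hz)), PRw_entry hM hj (Sn_mul hz' (Sn_inv hh))]
    · rw [hbd g z fun h' => hg ((Sn_mul_iff' (Sn_inv hz)).1 h'), zero_mul]
    · rw [zero_mul]
  rw [Finset.sum_congr rfl fun z _ => h1 z, ← Finset.sum_filter, Finset.sum_const, nsmul_eq_mul,
    card_Sn95 (by omega)]
  split_ifs
  · have : (j.factorial : ℝ) ≠ 0 := by positivity
    field_simp
  · rw [mul_zero]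

theorem DO_entry (hM : N < M) {j : ℕ} (hj : j < N) {g h : Perm (Fin N)}
    (hg : Sn (j + 1) g) [Decidable (Sn j h)] :
    (P N M (j + 1) (Rw M (j + 1)) * Dg N j * P N M j (Rw M j)) g h =
      if Sn j h then 1 / ((j + 1).factorial : ℝ) else 0 := by
  have hgd := good (N := N) hM j hj.le
  have hgd1 := good (N := N) hM (j + 1) (by omega)
  rw [← OD_entry (N := N) hM hj (g := h) (h := g) hg]
  have e : (P N M j (Rw M j) * Dg N j * P N M (j + 1) (Rw M (j + 1))).transpose =
      P N M (j + 1) (Rw M (j + 1)) * Dg N j * P N M j (Rw M j) := by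
    rw [Matrix.transpose_mul, Matrix.transpose_mul, hgd.symm, hgd1.symm, Dg_transpose, mul_assoc]
  rw [← e, Matrix.transpose_apply]

/-- **entries of the target kernel off the square of the stabiliser of the mark** -/
theorem KK_target (hM : N < M) {j : ℕ} (hj : j < N) (hh : Finset ℕ → ℝ) (s12 s22 : ℝ)
    {g h : Perm (Fin N)} (hg : Sn (j + 1) g) (hh' : Sn (j + 1) h)
    (hgh : ¬ (Sn j g ∧ Sn j h)) [Decidable (Sn j g ∨ Sn j h)] :
    KK N M j (bT M j hh s12 s22) (fun _ _ => 0) g h =
      - (if Sn j g ∨ Sn j h then s12 else s22) / (j + 1).factorial := by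
  classical
  have e : KK N M j (bT M j hh s12 s22) (fun _ _ => 0) =
      KK N M j (fun C _ _ => hh C) (fun _ _ => 0) -
      KK N M j (fun C x y => if C = Rw M j then
      (((j : ℝ) + 1) * s22) * ((if x = M - 1 + j then 1 else 0) * (if y = M - 1 + j then 1 else 0)) +
        (s12 - s22) * ((if x = M - 1 + j then 1 else 0) + (if y = M - 1 + j then 1 else 0)) else 0)
      (fun _ _ => 0) := by
    rw [KK_sub]
    simp only [sub_zero]
    rfl
  have hG : (G N M hh j * Dg N j) g h = 0 := by
    rw [mul_Dg_apply]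
    split_ifs with h1
    · have hbd : Bd j (G N M hh j) :=
        (Al.sum _ _ fun B _ => ((good (N := N) hM j hj.le).al B).smul _).1
      refine hbd g h fun h2 => hgh ⟨?_, h1⟩
      exact (Sn_mul_iff' (Sn_inv h1)).1 h2
    · rfl
  rw [e, Matrix.sub_apply, KK_HH hM hj, hG, KK_base hM hj, Matrix.add_apply, Matrix.smul_apply,
    Matrix.smul_apply, Matrix.add_apply, DD_entry hM hj hg hh', DO_entry hM hj hg,
    OD_entry hM hj hh', smul_eq_mul, smul_eq_mul]
  have hf : ((j + 1).factorial : ℝ) ≠ 0 := by positivity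
  have hj1 : (j : ℝ) + 1 ≠ 0 := by positivity
  by_cases h1 : Sn j g
  · have h2 : ¬ Sn j h := fun h2 => hgh ⟨h1, h2⟩
    rw [if_neg h2, if_pos h1, if_pos (Or.inl h1)]
    field_simp
    ring
  · by_cases h2 : Sn j h
    · rw [if_pos h2, if_neg h1, if_pos (Or.inr h2)]
      field_simp
      ring
    · rw [if_neg h2, if_neg h1, if_neg (fun h => h.elim h1 h2)]
      field_simp
      ring

end Pool.JM
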