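import Pool.Agent.Work.MP_46fa68_95.Flag
import Pool.Agent.Work.MP_46fa68_76.EndStmt

/-! # Cell inequalities for all cells and the density gap -/

set_option autoImplicit false

open Finset Equiv

namespace Pool.JM

/-- a statement about the numbers of members through and off the cell `(last, last)`, for all
`t`-intersecting families, holds for all cells -/
theorem cell_transfer {n t : ℕ} (R : ℕ → ℕ → Prop)
    (h : ∀ A : Finset (Perm (Fin (n + 1))),
      (∀ σ ∈ A, ∀ τ ∈ A, t ≤ (univ.filter fun i => σ i = τ i).card) →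
      R (A.filter fun σ => σ (Fin.last n) = Fin.last n).card
        (A.filter fun σ => σ (Fin.last n) ≠ Fin.last n).card)
    (A : Finset (Perm (Fin (n + 1))))
    (hA : ∀ σ ∈ A, ∀ τ ∈ A, t ≤ (univ.filter fun i => σ i = τ i).card)
    (i j : Fin (n + 1)) :
    R (A.filter fun σ => σ i = j).card (A.filter fun σ => σ i ≠ j).card := by
  classical
  set l : Fin (n + 1) := Fin.last n with hl
  set φ : Perm (Fin (n + 1)) → Perm (Fin (n + 1)) := fun σ => swap j l * σ * swap i l with hφ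
  have hinj : Function.Injective φ := fun a b hab => by
    have h1 : swap j l * a * swap i l = swap j l * b * swap i l := hab
    exact mul_left_cancel (mul_right_cancel h1)
  have hag : ∀ σ τ : Perm (Fin (n + 1)),
      (univ.filter fun k => φ σ k = φ τ k).card = (univ.filter fun k => σ k = τ k).card := by
    intro σ τ
    refine Finset.card_bij (fun k _ => swap i l k) ?_ ?_ ?_
    · intro k hk
      have hk' : φ σ k = φ τ k := (mem_filter.1 hk).2
      refine mem_filter.2 ⟨mem_univ _, ?_⟩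
      rw [hφ] at hk'
      simp only [Perm.mul_apply] at hk'
      exact (swap j l).injective hk'
    · intro a _ b _ hab
      exact (swap i l).injective hab
    · intro b hb
      have hb' : σ b = τ b := (mem_filter.1 hb).2
      refine ⟨swap i l b, mem_filter.2 ⟨mem_univ _, ?_⟩, swap_apply_self _ _ _⟩
      rw [hφ]
      simp only [Perm.mul_apply, swap_apply_self, hb']
  have hSn : ∀ σ : Perm (Fin (n + 1)), φ σ l = l ↔ σ i = j := by
    intro σ
    have e : φ σ l = swap j l (σ i) := by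
      rw [hφ]
      simp only [Perm.mul_apply, swap_apply_right]
    constructor
    · intro h1
      rw [e] at h1
      have h2 := congrArg (swap j l) h1
      rwa [swap_apply_self, swap_apply_right] at h2
    · intro h
      rw [e, h, swap_apply_left]
  have hmain := h (A.image φ) (by
      intro σ hσ τ hτ
      obtain ⟨a, ha, rfl⟩ := mem_image.1 hσ
      obtain ⟨b, hb, rfl⟩ := mem_image.1 hτ
      rw [hag]
      exact hA a ha b hb)
  have hX : ((A.image φ).filter fun σ => σ l = l).card = (A.filter fun σ => σ i = j).card := by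
    rw [filter_image, card_image_of_injective _ hinj]
    congr 1
    refine filter_congr fun σ _ => hSn σ
  have hY : ((A.image φ).filter fun σ => σ l ≠ l).card = (A.filter fun σ => σ i ≠ j).card := by
    rw [filter_image, card_image_of_injective _ hinj]
    congr 1
    refine filter_congr fun σ _ => not_congr (hSn σ)
  rw [hX, hY] at hmain
  exact hmain

end Pool.JM

namespace Pool.EG

open Pool.JM

variable {n : ℕ}

/-- the cell inequality of a certificate with the numbers `W1, W2, s11, s12, s22` -/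
def CellIneq (n t : ℕ) (W1 W2 s11 s12 s22 : ℝ) : Prop :=
  ∀ A : Finset (Perm (Fin n)), TInt t A → ∀ x y : Fin n,
    0 ≤ (W1 * ((thr A x y).card : ℝ) + W2 * ((A.filter fun σ => σ x ≠ y).card : ℝ)) -
      (s11 * ((thr A x y).card : ℝ) ^ 2 +
        2 * s12 * ((thr A x y).card : ℝ) * ((A.filter fun σ => σ x ≠ y).card : ℝ) +
        s22 * ((A.filter fun σ => σ x ≠ y).card : ℝ) ^ 2) / (n - t).factorial

/-- **the cell inequality of a flagged certificate** -/
theorem flag_cell {n m M : ℕ} (hM : n + 1 < M) (hm : m ≤ n) (hm1 : 1 ≤ m)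
    (al c ph f4 f0 f1 f2 : Finset ℕ → ℝ)
    (W1 s11 p0 s12 p4 q4 w0 s22 w1 q1 w2 q2 S22 : ℝ)
    (ha1 : Harm M m n al) (ha2 : Val (n + 1) M m al W1 s11)
    (hp1 : Harm M m (n + 1) ph) (hp2 : Val (n + 1) M m ph p0 s12)
    (h41 : Harm M (m - 1) n f4) (h42 : Val (n + 1) M (m - 1) f4 p4 q4) (hp4 : p4 ≤ 0)
    (h01 : Harm M m (n + 1) f0) (h02 : Val (n + 1) M m f0 w0 s22)
    (h11 : Harm M m n f1) (h12 : Val (n + 1) M m f1 w1 q1)
    (h21 : Harm M m n f2) (h22 : Val (n + 1) M m f2 w2 q2)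
    (hS0 : S22 ≤ s22) (hS1 : S22 ≤ s22 + q1) (hS2 : S22 ≤ s22 + q2) (hS3 : S22 ≤ s22 + q1 + q2)
    (hg1 : ∀ C ∈ Lv M n, ∀ x ∈ ad C, ∀ C' ∈ Lv M n, ∀ y ∈ ad C', C ≠ C' → mv C' y = mv C x →
      0 ≤ f0 (mv C x) + f1 C + f2 C')
    (hg2 : ∀ C ∈ Lv M n, ∀ x ∈ ad C, 0 < f0 (mv C x) + f1 C + f2 C)
    (hal : ∀ C ∈ Lv M n, ∑ x ∈ ad C, w C x *
      ((ph (mv C x) + f4 C * ((x : ℝ) - ((M : ℝ) - 1)) - c C) ^ 2 /
        (f0 (mv C x) + f1 C + f2 C)) ≤ al C) :
    CellIneq (n + 1) (n + 1 - m) W1 (w0 + w1 + w2) s11 (s12 + m * q4) S22 := by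
  intro A hA x y
  have e : n + 1 - (n + 1 - m) = m := by omega
  rw [e]
  refine cell_transfer (t := n + 1 - m) (fun X Y => (0 : ℝ) ≤ (W1 * X + (w0 + w1 + w2) * Y) -
      (s11 * (X : ℝ) ^ 2 + 2 * (s12 + m * q4) * X * Y + S22 * (Y : ℝ) ^ 2) / m.factorial) ?_
      A hA x y
  intro A' hA'
  exact flag_last hM hm hm1 al c ph f4 f0 f1 f2 W1 s11 p0 s12 p4 q4 w0 s22 w1 q1 w2 q2 S22
    ha1 ha2 hp1 hp2 h41 h42 hp4 h01 h02 h11 h12 h21 h22 hS0 hS1 hS2 hS3 hg1 hg2 hal A' hA'

/-- the cell inequality of a class function certificate (`joint_cell` of helper28) -/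
theorem joint_cellIneq {n m M : ℕ} (hM : n + 1 < M) (hm : m ≤ n) (al ph f g : Finset ℕ → ℝ)
    (W1 s11 f0 s12 W2 s22 : ℝ)
    (ha1 : Harm M m n al) (ha2 : Val (n + 1) M m al W1 s11)
    (hf1 : Harm M m (n + 1) f) (hf2 : Val (n + 1) M m f f0 s12)
    (hg1 : Harm M m (n + 1) g) (hg2 : Val (n + 1) M m g W2 s22)
    (hg : ∀ B ∈ Lv M (n + 1), 0 < g B)
    (hal : ∀ C ∈ Lv M n,
      ∑ x ∈ ad C, w C x * ((f (mv C x) - ph C) ^ 2 / g (mv C x)) ≤ al C) :
    CellIneq (n + 1) (n + 1 - m) W1 W2 s11 s12 s22 := by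
  intro A hA x y
  have e : n + 1 - (n + 1 - m) = m := by omega
  rw [e]
  exact joint_cell hM hm al ph f g W1 s11 f0 s12 W2 s22 ha1 ha2 hf1 hf2 hg1 hg2 hg hal A hA x y

/-- **density gap from cell inequalities**: every density strictly between `β` and `p` is excluded by one of the
certificates -/
theorem gap_of_cells {n t : ℕ} {θ β p : ℝ} (hθ : 0 ≤ θ)
    (h : ∀ δ : ℝ, β < δ → δ < p → ∃ W1 W2 s11 s12 s22 : ℝ, CellIneq n t W1 W2 s11 s12 s22 ∧
      0 < s11 * δ ^ 2 + 2 * s12 * δ * (1 - δ) + s22 * (1 - δ) ^ 2 ∧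
      W1 * δ + W2 * (1 - δ) <
        θ * (s11 * δ ^ 2 + 2 * s12 * δ * (1 - δ) + s22 * (1 - δ) ^ 2)) : Gap n t θ β p := by
  intro A hA hc x y
  by_contra hcon
  rw [not_or, not_le, not_le] at hcon
  obtain ⟨h1, h2⟩ := hcon
  set a : ℝ := (A.card : ℝ) with ha
  set X : ℝ := ((thr A x y).card : ℝ) with hX
  set Y : ℝ := ((A.filter fun σ => σ x ≠ y).card : ℝ) with hY
  have hsum : X + Y = a := by
    have := Finset.card_filter_add_card_filter_not (s := A) (fun σ : Perm (Fin n) => σ x = y)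
    rw [ha, ← this, hX, hY]
    push_cast
    rfl
  have ha0 : 0 < a := by
    rcases eq_or_lt_of_le (show (0 : ℝ) ≤ a by rw [ha]; positivity) with h0 | h0
    · exfalso
      have hX0 : 0 ≤ X := by rw [hX]; positivity
      have hY0 : 0 ≤ Y := by rw [hY]; positivity
      rw [← h0] at h1 h2 hsum
      rw [mul_zero] at h1 h2
      linarith
    · exact h0
  set δ := X / a with hδ
  have hXa : X = δ * a := by rw [hδ]; field_simp
  have hYa : Y = (1 - δ) * a := by rw [sub_mul, one_mul, ← hXa, ← hsum]; ring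
  have d1 : β < δ := by
    rw [hδ, lt_div_iff₀ ha0]
    exact h1
  have d2 : δ < p := by
    rw [hδ, div_lt_iff₀ ha0]
    exact h2
  obtain ⟨W1, W2, s11, s12, s22, hI, hs, hW⟩ := h δ d1 d2
  have h3 := hI A hA x y
  rw [← hX, ← hY, hXa, hYa] at h3
  set s := s11 * δ ^ 2 + 2 * s12 * δ * (1 - δ) + s22 * (1 - δ) ^ 2 with hsdef
  set F : ℝ := ((n - t).factorial : ℝ) with hF
  have hF0 : 0 < F := by rw [hF]; exact_mod_cast (n - t).factorial_pos
  have h4 : 0 ≤ (W1 * δ + W2 * (1 - δ)) * a - s * a ^ 2 / F := by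
    refine h3.trans (le_of_eq ?_)
    rw [hsdef]
    field_simp
  have h5 : s * a / F ≤ W1 * δ + W2 * (1 - δ) := by
    have : 0 ≤ a * ((W1 * δ + W2 * (1 - δ)) - s * a / F) := by
      refine h4.trans (le_of_eq ?_)
      field_simp
    have := nonneg_of_mul_nonneg_right this ha0
    linarith
  have h6 : θ * s ≤ s * a / F := by
    rw [le_div_iff₀ hF0]
    calc θ * s * F = s * (θ * F) := by ring
      _ ≤ s * a := mul_le_mul_of_nonneg_left hc hs.le
  linarith

end Pool.EG
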