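import Pool.Agent.Work.MP_46fa68_95.Chain
import Pool.Agent.Work.MP_46fa68_95.FlagCell
import Pool.Agent.Work.MP_46fa68_74.Scale

/-! # The cell inequality of a marked kernel (abstract form) -/

set_option autoImplicit false

open Finset Equiv

namespace Pool.JM

variable {n : ℕ}

/-- agreements = agreements off the marks + row + column -/
theorem agree_cc (σ τ : Perm (Fin (n + 1)))
    (_ : ¬ (σ (Fin.last n) = Fin.last n ∧ τ (Fin.last n) = Fin.last n)) :
    (univ.filter fun i => σ i = τ i).card ≤ cc n σ τ +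
      (if σ (Fin.last n) = τ (Fin.last n) then 1 else 0) +
      (if σ⁻¹ (Fin.last n) = τ⁻¹ (Fin.last n) then 1 else 0) := by
  classical
  set l := Fin.last n with hl
  have hsub : (univ.filter fun i => σ i = τ i) ⊆
      (univ.filter fun i : Fin (n + 1) => (i : ℕ) < n ∧ σ i = τ i ∧
        ((σ i : Fin (n + 1)) : ℕ) < n) ∪
      (if σ l = τ l then {l} else ∅) ∪ (if σ⁻¹ l = τ⁻¹ l then {σ⁻¹ l} else ∅) := by
    intro i hi
    have hi' : σ i = τ i := (mem_filter.1 hi).2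
    rw [mem_union, mem_union]
    by_cases h1 : i = l
    · left; right
      rw [h1] at hi'
      rw [if_pos hi', h1]
      exact mem_singleton_self _
    · by_cases h2 : σ i = l
      · right
        have e1 : σ⁻¹ l = i := by rw [← h2]; exact σ.symm_apply_apply i
        have e2 : τ⁻¹ l = i := by rw [← h2, hi']; exact τ.symm_apply_apply i
        rw [if_pos (e1.trans e2.symm), e1]
        exact mem_singleton_self _
      · left; left
        refine mem_filter.2 ⟨mem_univ _, ?_, hi', ?_⟩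
        · have h3 := i.2
          have h4 : (i : ℕ) ≠ n := fun h' => h1 (Fin.ext h')
          omega
        · have h3 := (σ i).2
          have h4 : ((σ i : Fin (n + 1)) : ℕ) ≠ n := fun h' => h2 (Fin.ext h')
          omega
  refine (card_le_card hsub).trans ((card_union_le _ _).trans
    (Nat.add_le_add ((card_union_le _ _).trans (Nat.add_le_add le_rfl ?_)) ?_))
  · split_ifs
    · exact (card_singleton _).le
    · simp
  · split_ifs
    · exact (card_singleton _).le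
    · simp

/-- **the family inequality of a marked kernel**, with the scaling `c` -/
theorem marked_last {m : ℕ} (hm : m + 1 ≤ n) (hm1 : 1 ≤ m) (K : ℕ → Mat (n + 1)) (η : ℕ → ℝ)
    (hη : ∀ k, 0 ≤ η k) (E : ℝ) (hE : ∑ i ∈ Ico (m - 1) n, η i ≤ E)
    (hpsd : ∀ v : Perm (Fin (n + 1)) → ℝ, 0 ≤ v ⬝ᵥ ((K n).mulVec v))
    (hinv : ∀ k, m - 1 < k → k ≤ n → Inv2 k (K k))
    (hres : ∀ k, m - 1 ≤ k → ∀ hk' : k < n, ∀ g h, Sn (k + 1) g → Sn (k + 1) h →
      K (k + 1) (s k (by omega) * g * s k (by omega)) (s k (by omega) * h * s k (by omega)) ≤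
        K k g h + η k)
    (W1 W2 s11 s12 s22 : ℝ)
    (h11 : ∀ g h, Sn n g → Sn n h → n + 1 - m ≤ (univ.filter fun i => g i = h i).card →
      K n g h ≤ (if g = h then W1 else 0) - s11 / m.factorial)
    (h12 : ∀ g h, Sn (m - 1) g → Sn m h → ¬ Sn (m - 1) h → K (m - 1) g h + E ≤ - s12 / m.factorial)
    (h21 : ∀ g h, Sn m g → ¬ Sn (m - 1) g → Sn (m - 1) h → K (m - 1) g h + E ≤ - s12 / m.factorial)
    (h22 : ∀ g h, Sn m g → ¬ Sn (m - 1) g → Sn m h → ¬ Sn (m - 1) h →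
      g ⟨m - 1, by omega⟩ ≠ h ⟨m - 1, by omega⟩ → g⁻¹ ⟨m - 1, by omega⟩ ≠ h⁻¹ ⟨m - 1, by omega⟩ →
      K (m - 1) g h + E ≤ - s22 / m.factorial)
    (hrow : ∀ g h, Sn (m + 1) g → ¬ Sn m g → Sn (m + 1) h → ¬ Sn m h →
      g ⟨m, by omega⟩ = h ⟨m, by omega⟩ → g⁻¹ ⟨m, by omega⟩ ≠ h⁻¹ ⟨m, by omega⟩ →
      K m g h + E ≤ - s22 / m.factorial)
    (hcol : ∀ g h, Sn (m + 1) g → ¬ Sn m g → Sn (m + 1) h → ¬ Sn m h →
      g ⟨m, by omega⟩ ≠ h ⟨m, by omega⟩ → g⁻¹ ⟨m, by omega⟩ = h⁻¹ ⟨m, by omega⟩ →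
      K m g h + E ≤ - s22 / m.factorial)
    (hboth : ∀ (g h : Perm (Fin (n + 1))), Sn (m + 2) g → ¬ Sn (m + 1) g →
      Sn (m + 2) h → ¬ Sn (m + 1) h →
      g ⟨m + 1, by omega⟩ = h ⟨m + 1, by omega⟩ → g⁻¹ ⟨m + 1, by omega⟩ = h⁻¹ ⟨m + 1, by omega⟩ →
      K (m + 1) g h + E ≤ (if g = h then W2 else 0) - s22 / m.factorial)
    (c : ℝ) (hc : 0 ≤ c) (A : Finset (Perm (Fin (n + 1))))
    (hA : ∀ σ ∈ A, ∀ τ ∈ A, n + 1 - m ≤ (univ.filter fun i => σ i = τ i).card) :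
    let X : ℝ := ((A.filter fun σ => σ (Fin.last n) = Fin.last n).card : ℝ)
    let Y : ℝ := ((A.filter fun σ => σ (Fin.last n) ≠ Fin.last n).card : ℝ)
    0 ≤ (c ^ 2 * W1 * X + W2 * Y) -
      (c ^ 2 * s11 * X ^ 2 + 2 * (c * s12) * X * Y + s22 * Y ^ 2) / m.factorial := by
  classical
  intro X Y
  set B := A.filter fun σ => σ (Fin.last n) = Fin.last n with hB
  set C := A.filter fun σ => σ (Fin.last n) ≠ Fin.last n with hC
  have hBm : ∀ σ ∈ B, σ ∈ A ∧ Sn n σ := fun σ h =>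
    ⟨(mem_filter.1 h).1, Sn_last95.2 (mem_filter.1 h).2⟩
  have hCm : ∀ σ ∈ C, σ ∈ A ∧ ¬ Sn n σ := fun σ h =>
    ⟨(mem_filter.1 h).1, fun h' => (mem_filter.1 h).2 (Sn_last95.1 h')⟩
  have hmf : (0 : ℝ) < m.factorial := by exact_mod_cast m.factorial_pos
  have hall : ∀ σ : Perm (Fin (n + 1)), Sn (n + 1) σ := fun σ i hi => absurd i.2 (by omega)
  have hl : ∀ h : n < n + 1, (⟨n, h⟩ : Fin (n + 1)) = Fin.last n := fun _ => rfl
  -- chain down to level j
  have chain : ∀ j, m - 1 ≤ j → j ≤ n → ∀ σ τ : Perm (Fin (n + 1)), n - j ≤ cc n σ τ →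
      ∃ g h : Perm (Fin (n + 1)), Sn (j + 1) g ∧ Sn (j + 1) h ∧
        K n σ τ ≤ K j g h + E ∧ (Sn n σ ↔ Sn j g) ∧ (Sn n τ ↔ Sn j h) ∧
        (∀ hj : j < n + 1, (σ (Fin.last n) = τ (Fin.last n) ↔ g ⟨j, hj⟩ = h ⟨j, hj⟩) ∧
        (σ⁻¹ (Fin.last n) = τ⁻¹ (Fin.last n) ↔ g⁻¹ ⟨j, hj⟩ = h⁻¹ ⟨j, hj⟩)) ∧
        (σ = τ ↔ g = h) := by
    intro j hj1 hj2 σ τ hcc
    obtain ⟨d, hd⟩ : ∃ d, n = j + d := ⟨n - j, by omega⟩
    have hlt : j + d < n + 1 := by omega
    obtain ⟨g, h, a1, a2, a3, a4, a5, a6, a7, a8⟩ := cc_chain (N := n + 1) (j := j) K η d hlt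
      (fun k b1 b2 => hinv k (by omega) (by omega))
      (fun k b1 b2 => hres k (by omega) (by omega)) σ τ
      (by rw [← hd]; exact hall σ) (by rw [← hd]; exact hall τ) (by rw [← hd]; omega)
    have el : (⟨j + d, hlt⟩ : Fin (n + 1)) = Fin.last n := Fin.ext hd.symm
    rw [el] at a6 a7
    rw [← hd] at a3 a4 a5
    refine ⟨g, h, a1, a2, a3.trans ?_, a4, a5, fun _ => ⟨a6, a7⟩, a8⟩
    have : ∑ i ∈ Ico j n, η i ≤ ∑ i ∈ Ico (m - 1) n, η i :=
      Finset.sum_le_sum_of_subset_of_nonneg (Ico_subset_Ico_left hj1) fun i _ _ => hη i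
    linarith
  -- mixed pairs
  have mixcc : ∀ σ τ : Perm (Fin (n + 1)), Sn n σ → ¬ Sn n τ →
      (univ.filter fun i => σ i = τ i).card ≤ cc n σ τ := by
    intro σ τ hσ hτ
    have h1 : σ (Fin.last n) = Fin.last n := Sn_last95.1 hσ
    have h2 : τ (Fin.last n) ≠ Fin.last n := fun h => hτ (Sn_last95.2 h)
    have e := agree_cc σ τ (fun h => h2 h.2)
    rw [if_neg, if_neg] at e
    · simpa using e
    · intro h
      have e1 : σ⁻¹ (Fin.last n) = Fin.last n := by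
        nth_rewrite 1 [← h1]
        exact σ.symm_apply_apply _
      rw [e1] at h
      have e2 := congrArg τ h
      rw [show τ (τ⁻¹ (Fin.last n)) = Fin.last n from τ.apply_symm_apply _] at e2
      exact h2 e2
    · rw [h1]
      exact fun h => h2 h.symm
  have hcomm : ∀ σ τ : Perm (Fin (n + 1)), cc n σ τ = cc n τ σ := by
    intro σ τ
    unfold cc
    congr 1
    refine filter_congr fun i _ => ?_
    constructor
    · rintro ⟨a, b, c⟩
      exact ⟨a, b.symm, b ▸ c⟩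
    · rintro ⟨a, b, c⟩
      exact ⟨a, b.symm, b ▸ c⟩
  have hagc : ∀ σ τ : Perm (Fin (n + 1)), (univ.filter fun i => σ i = τ i).card =
      (univ.filter fun i => τ i = σ i).card := by
    intro σ τ
    congr 1
    refine filter_congr fun i _ => eq_comm
  -- the bound
  have key : ∀ σ ∈ A, ∀ τ ∈ A, K n σ τ ≤
      (if Sn n σ then (if Sn n τ then (if σ = τ then W1 else 0) - s11 / m.factorial
        else - s12 / m.factorial) else
        (if Sn n τ then - s12 / m.factorial else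
          (if σ = τ then W2 else 0) - s22 / m.factorial)) := by
    intro σ hσA τ hτA
    have hag := hA σ hσA τ hτA
    by_cases hσ : Sn n σ
    · by_cases hτ : Sn n τ
      · rw [if_pos hσ, if_pos hτ]
        exact h11 σ τ hσ hτ hag
      · rw [if_pos hσ, if_neg hτ]
        have h1 := mixcc σ τ hσ hτ
        obtain ⟨g, h, a1, a2, a3, a4, a5, -, -⟩ := chain (m - 1) le_rfl (by omega) σ τ (by omega)
        have e : m - 1 + 1 = m := by omega
        rw [e] at a2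
        exact a3.trans (h12 g h (a4.1 hσ) a2 (fun h' => hτ (a5.2 h')))
    · by_cases hτ : Sn n τ
      · rw [if_neg hσ, if_pos hτ]
        have h1 := mixcc τ σ hτ hσ
        rw [← hcomm, ← hagc] at h1
        obtain ⟨g, h, a1, a2, a3, a4, a5, -, -⟩ := chain (m - 1) le_rfl (by omega) σ τ (by omega)
        have e : m - 1 + 1 = m := by omega
        rw [e] at a1
        exact a3.trans (h21 g h a1 (fun h' => hσ (a4.2 h')) (a5.1 hτ))
      · rw [if_neg hσ, if_neg hτ]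
        have h1 := agree_cc σ τ (fun h' => hσ (Sn_last95.2 h'.1))
        by_cases c1 : σ (Fin.last n) = τ (Fin.last n)
        · by_cases c2 : σ⁻¹ (Fin.last n) = τ⁻¹ (Fin.last n)
          · rw [if_pos c1, if_pos c2] at h1
            obtain ⟨g, h, a1, a2, a3, a4, a5, a6, a8⟩ := chain (m + 1) (by omega) hm σ τ (by omega)
            refine a3.trans ((hboth g h a1 (fun h' => hσ (a4.2 h')) a2
                (fun h' => hτ (a5.2 h')) ((a6 (by omega)).1.1 c1)
                ((a6 (by omega)).2.1 c2)).trans (le_of_eq ?_))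
            congr 1
            exact if_congr a8.symm rfl rfl
          · rw [if_pos c1, if_neg c2] at h1
            obtain ⟨g, h, a1, a2, a3, a4, a5, a6, a8⟩ := chain m (by omega) (by omega) σ τ
              (by omega)
            have hne : σ ≠ τ := fun h' => c2 (by rw [h'])
            rw [if_neg hne, zero_sub, ← neg_div]
            exact a3.trans (hrow g h a1 (fun h' => hσ (a4.2 h')) a2
                (fun h' => hτ (a5.2 h')) ((a6 (by omega)).1.1 c1)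
                (fun h' => c2 ((a6 (by omega)).2.2 h')))
        · have hne : σ ≠ τ := fun h' => c1 (by rw [h'])
          rw [if_neg hne, zero_sub, ← neg_div]
          by_cases c2 : σ⁻¹ (Fin.last n) = τ⁻¹ (Fin.last n)
          · rw [if_neg c1, if_pos c2] at h1
            obtain ⟨g, h, a1, a2, a3, a4, a5, a6, a8⟩ := chain m (by omega) (by omega) σ τ
              (by omega)
            exact a3.trans (hcol g h a1 (fun h' => hσ (a4.2 h')) a2
                (fun h' => hτ (a5.2 h')) (fun h' => c1 ((a6 (by omega)).1.2 h'))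
                ((a6 (by omega)).2.1 c2))
          · rw [if_neg c1, if_neg c2] at h1
            obtain ⟨g, h, a1, a2, a3, a4, a5, a6, a8⟩ := chain (m - 1) le_rfl (by omega) σ τ
              (by omega)
            have e : m - 1 + 1 = m := by omega
            rw [e] at a1 a2
            exact a3.trans (h22 g h a1 (fun h' => hσ (a4.2 h')) a2
                (fun h' => hτ (a5.2 h')) (fun h' => c1 ((a6 (by omega)).1.2 h'))
                (fun h' => c2 ((a6 (by omega)).2.2 h')))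
  -- sum up
  have h0 := hpsd (c • vec B + vec C)
  have h1 : (c • vec B + vec C) ⬝ᵥ ((K n).mulVec (c • vec B + vec C)) =
      c * (c * ∑ σ ∈ B, ∑ τ ∈ B, K n σ τ) + c * (∑ σ ∈ B, ∑ τ ∈ C, K n σ τ) +
        (c * (∑ σ ∈ C, ∑ τ ∈ B, K n σ τ) + ∑ σ ∈ C, ∑ τ ∈ C, K n σ τ) := by
    rw [Matrix.mulVec_add, Matrix.mulVec_smul, add_dotProduct, dotProduct_add, dotProduct_add,
      smul_dotProduct, smul_dotProduct, dotProduct_smul, dotProduct_smul, vec_quad, vec_quad,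
      vec_quad, vec_quad]
    simp only [smul_eq_mul]
  have eX : ((B.card : ℕ) : ℝ) = X := rfl
  have eY : ((C.card : ℕ) : ℝ) = Y := rfl
  have q1 : ∑ σ ∈ B, ∑ τ ∈ B, K n σ τ ≤ W1 * X - s11 / m.factorial * X ^ 2 := by
    calc ∑ σ ∈ B, ∑ τ ∈ B, K n σ τ
        ≤ ∑ σ ∈ B, ∑ τ ∈ B, ((if σ = τ then W1 else 0) - s11 / m.factorial) := by
          refine Finset.sum_le_sum fun σ hσ => Finset.sum_le_sum fun τ hτ => ?_
          have := key σ (hBm σ hσ).1 τ (hBm τ hτ).1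
          rwa [if_pos (hBm σ hσ).2, if_pos (hBm τ hτ).2] at this
      _ = ∑ σ ∈ B, (W1 - X * (s11 / m.factorial)) := by
          refine Finset.sum_congr rfl fun σ hσ => ?_
          rw [Finset.sum_sub_distrib, Finset.sum_ite_eq, if_pos hσ, Finset.sum_const,
            nsmul_eq_mul, eX]
      _ = _ := by
          rw [Finset.sum_const, nsmul_eq_mul, eX]
          ring
  have q2 : ∑ σ ∈ B, ∑ τ ∈ C, K n σ τ ≤ - (s12 / m.factorial) * X * Y := by
    calc ∑ σ ∈ B, ∑ τ ∈ C, K n σ τ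
        ≤ ∑ σ ∈ B, ∑ τ ∈ C, (- s12 / m.factorial) := by
          refine Finset.sum_le_sum fun σ hσ => Finset.sum_le_sum fun τ hτ => ?_
          have := key σ (hBm σ hσ).1 τ (hCm τ hτ).1
          rwa [if_pos (hBm σ hσ).2, if_neg (hCm τ hτ).2] at this
      _ = _ := by
          rw [Finset.sum_const, Finset.sum_const, nsmul_eq_mul, nsmul_eq_mul, eX, eY]
          ring
  have q3 : ∑ σ ∈ C, ∑ τ ∈ B, K n σ τ ≤ - (s12 / m.factorial) * X * Y := by
    calc ∑ σ ∈ C, ∑ τ ∈ B, K n σ τ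
        ≤ ∑ σ ∈ C, ∑ τ ∈ B, (- s12 / m.factorial) := by
          refine Finset.sum_le_sum fun σ hσ => Finset.sum_le_sum fun τ hτ => ?_
          have := key σ (hCm σ hσ).1 τ (hBm τ hτ).1
          rwa [if_neg (hCm σ hσ).2, if_pos (hBm τ hτ).2] at this
      _ = _ := by
          rw [Finset.sum_const, Finset.sum_const, nsmul_eq_mul, nsmul_eq_mul, eX, eY]
          ring
  have q4 : ∑ σ ∈ C, ∑ τ ∈ C, K n σ τ ≤ W2 * Y - s22 / m.factorial * Y ^ 2 := by
    calc ∑ σ ∈ C, ∑ τ ∈ C, K n σ τ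
        ≤ ∑ σ ∈ C, ∑ τ ∈ C, ((if σ = τ then W2 else 0) - s22 / m.factorial) := by
          refine Finset.sum_le_sum fun σ hσ => Finset.sum_le_sum fun τ hτ => ?_
          have := key σ (hCm σ hσ).1 τ (hCm τ hτ).1
          rwa [if_neg (hCm σ hσ).2, if_neg (hCm τ hτ).2] at this
      _ = ∑ σ ∈ C, (W2 - Y * (s22 / m.factorial)) := by
          refine Finset.sum_congr rfl fun σ hσ => ?_
          rw [Finset.sum_sub_distrib, Finset.sum_ite_eq, if_pos hσ, Finset.sum_const,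
            nsmul_eq_mul, eY]
      _ = _ := by
          rw [Finset.sum_const, nsmul_eq_mul, eY]
          ring
  rw [h1] at h0
  have r1 := mul_le_mul_of_nonneg_left (mul_le_mul_of_nonneg_left q1 hc) hc
  have r2 := mul_le_mul_of_nonneg_left q2 hc
  have r3 := mul_le_mul_of_nonneg_left q3 hc
  refine h0.trans ((add_le_add (add_le_add r1 r2) (add_le_add r3 q4)).trans (le_of_eq ?_))
  ring

end Pool.JM

namespace Pool.EG

open Pool.JM

/-- **the cell inequality of a marked kernel**, with all scalings -/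
theorem marked_scIneq {n m : ℕ} (hm : m + 1 ≤ n) (hm1 : 1 ≤ m) (K : ℕ → Mat (n + 1)) (η : ℕ → ℝ)
    (hη : ∀ k, 0 ≤ η k) (E : ℝ) (hE : ∑ i ∈ Ico (m - 1) n, η i ≤ E)
    (hpsd : ∀ v : Perm (Fin (n + 1)) → ℝ, 0 ≤ v ⬝ᵥ ((K n).mulVec v))
    (hinv : ∀ k, m - 1 < k → k ≤ n → Inv2 k (K k))
    (hres : ∀ k, m - 1 ≤ k → ∀ hk' : k < n, ∀ g h, Sn (k + 1) g → Sn (k + 1) h →
      K (k + 1) (s k (by omega) * g * s k (by omega)) (s k (by omega) * h * s k (by omega)) ≤
        K k g h + η k)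
    (W1 W2 s11 s12 s22 : ℝ)
    (h11 : ∀ g h, Sn n g → Sn n h → n + 1 - m ≤ (univ.filter fun i => g i = h i).card →
      K n g h ≤ (if g = h then W1 else 0) - s11 / m.factorial)
    (h12 : ∀ g h, Sn (m - 1) g → Sn m h → ¬ Sn (m - 1) h → K (m - 1) g h + E ≤ - s12 / m.factorial)
    (h21 : ∀ g h, Sn m g → ¬ Sn (m - 1) g → Sn (m - 1) h → K (m - 1) g h + E ≤ - s12 / m.factorial)
    (h22 : ∀ g h, Sn m g → ¬ Sn (m - 1) g → Sn m h → ¬ Sn (m - 1) h →
      g ⟨m - 1, by omega⟩ ≠ h ⟨m - 1, by omega⟩ → g⁻¹ ⟨m - 1, by omega⟩ ≠ h⁻¹ ⟨m - 1, by omega⟩ →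
      K (m - 1) g h + E ≤ - s22 / m.factorial)
    (hrow : ∀ g h, Sn (m + 1) g → ¬ Sn m g → Sn (m + 1) h → ¬ Sn m h →
      g ⟨m, by omega⟩ = h ⟨m, by omega⟩ → g⁻¹ ⟨m, by omega⟩ ≠ h⁻¹ ⟨m, by omega⟩ →
      K m g h + E ≤ - s22 / m.factorial)
    (hcol : ∀ g h, Sn (m + 1) g → ¬ Sn m g → Sn (m + 1) h → ¬ Sn m h →
      g ⟨m, by omega⟩ ≠ h ⟨m, by omega⟩ → g⁻¹ ⟨m, by omega⟩ = h⁻¹ ⟨m, by omega⟩ →
      K m g h + E ≤ - s22 / m.factorial)
    (hboth : ∀ (g h : Perm (Fin (n + 1))), Sn (m + 2) g → ¬ Sn (m + 1) g →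
      Sn (m + 2) h → ¬ Sn (m + 1) h →
      g ⟨m + 1, by omega⟩ = h ⟨m + 1, by omega⟩ → g⁻¹ ⟨m + 1, by omega⟩ = h⁻¹ ⟨m + 1, by omega⟩ →
      K (m + 1) g h + E ≤ (if g = h then W2 else 0) - s22 / m.factorial) :
    ScIneq (n + 1) (n + 1 - m) W1 W2 s11 s12 s22 := by
  intro c hc A hA x y
  have e : n + 1 - (n + 1 - m) = m := by omega
  rw [e]
  refine cell_transfer (t := n + 1 - m) (fun X Y => (0 : ℝ) ≤ (c ^ 2 * W1 * X + W2 * Y) -
      (c ^ 2 * s11 * (X : ℝ) ^ 2 + 2 * (c * s12) * X * Y + s22 * (Y : ℝ) ^ 2) / m.factorial) ?_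
      A hA x y
  intro A' hA'
  exact marked_last hm hm1 K η hη E hE hpsd hinv hres W1 W2 s11 s12 s22 h11 h12 h21 h22 hrow hcol
    hboth c hc A' hA'

/-- the unscaled inequality -/
theorem cell_of_sc {n t : ℕ} {W1 W2 s11 s12 s22 : ℝ} (h : ScIneq n t W1 W2 s11 s12 s22) :
    CellIneq n t W1 W2 s11 s12 s22 := by
  have h1 := h 1 zero_le_one
  simpa using h1

end Pool.EG
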