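import Pool.Agent.Work.MP_46fa68_95.MarkVal

/-! # Peeling recursion: values of one-mark elements and class functions at all permutations

`PE a` shortens the marked cycle by one, `EX a` is the class function of the permutations fixing the mark. -/

set_option autoImplicit false

open Finset Equiv

namespace Pool.JM

variable {N M : ℕ}

/-- the bead of `C` which is moved in `B` -/
def ub (B C : Finset ℕ) : ℕ := ∑ z ∈ C \ B, z

theorem ub_mv {C : Finset ℕ} {x : ℕ} (hx : x ∈ ad C) : ub (mv C x) C = x := by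
  obtain ⟨h1, h2⟩ := mem_ad.1 hx
  have : C \ mv C x = {x} := by
    ext z
    simp only [mem_sdiff, mv, mem_insert, mem_erase, mem_singleton, not_or, not_and]
    constructor
    · rintro ⟨hz, h3, h4⟩
      by_contra hne
      exact h4 hne hz
    · rintro rfl
      exact ⟨h1, by omega, fun h => absurd rfl h⟩
  unfold ub
  rw [this, sum_singleton]

/-- the peeled one-mark function -/
noncomputable def PE (a : Finset ℕ → Finset ℕ → ℝ) (B C : Finset ℕ) : ℝ :=
  ∑ y ∈ ad B, w B y * (((y : ℝ) - (ub B C : ℝ))⁻¹ * a (mv B y) B)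

/-- the class function of the permutations which fix the mark -/
noncomputable def EX (a : Finset ℕ → Finset ℕ → ℝ) (C : Finset ℕ) : ℝ :=
  ∑ x ∈ ad C, w C x * a (mv C x) C

theorem T1_symm {n : ℕ} (hM : N < M) (hn : n < N) (a : Finset ℕ → Finset ℕ → ℝ) :
    (T1 N M n a).transpose = T1 N M n a := by
  have hg := good (N := N) hM n hn.le
  unfold T1
  rw [Matrix.transpose_sum]
  refine Finset.sum_congr rfl fun q _ => ?_
  rw [Matrix.transpose_smul, hg.pc_symm hn]

theorem E_transpose' {n : ℕ} (T : Mat N) : (E n T).transpose = E n T.transpose := by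
  ext g h
  rw [Matrix.transpose_apply]
  by_cases hgh : Sn n (g * h⁻¹)
  · have h2 : Sn n (h * g⁻¹) := by
      have := Sn_inv hgh
      rwa [mul_inv_rev, inv_inv] at this
    rw [E_apply_of hgh, E_apply_of h2, Matrix.transpose_apply]
  · have h2 : ¬ Sn n (h * g⁻¹) := by
      intro h'
      apply hgh
      have := Sn_inv h'
      rwa [mul_inv_rev, inv_inv] at this
    rw [E_apply_not hgh, E_apply_not h2]

/-- `E (s T1)` -/
theorem E_s_T1 (hM : N < M) {n : ℕ} (hn : n + 1 < N) (a : Finset ℕ → Finset ℕ → ℝ) :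
    E (n + 1) (U (s n hn) * T1 N M (n + 1) a) = T1 N M n (PE a) := by
  have hn' : n < N := by omega
  have hg0 := good (N := N) hM n hn'.le
  have hg1 := good (N := N) hM (n + 1) hn.le
  rw [← mul_one (E (n + 1) (U (s n hn) * T1 N M (n + 1) a)), ← pc_tot (n := n) hM (by omega),
    Finset.mul_sum]
  conv_rhs => unfold T1
  refine Finset.sum_congr rfl fun q hq => ?_
  obtain ⟨hC, hu⟩ := mem_sigma.1 hq
  obtain ⟨C, u⟩ := q
  simp only at hC hu ⊢
  have hB : mv C u ∈ Lv M (n + 1) := mv_mem hC hu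
  set B := mv C u with hBdef
  obtain ⟨hu1, hu2⟩ := mem_ad.1 hu
  have hnu : u ∉ B := by simp [hBdef, mv]
  set R : Mat N := Pc N M n C u with hR
  have hRal : Al (n + 1) R := hg0.pc_al C u
  have hPR : P N M (n + 1) B * R = R := P_Pc hM hn' hC hu
  -- T1 * R
  have h1 : T1 N M (n + 1) a * R = (∑ y ∈ ad B, a (mv B y) B •
      Polynomial.aeval (X ((M : ℝ) - 1) (n + 1) : Mat N) (ell B y)) * R := by
    have e1 : R = ∑ y ∈ ad B, Pc N M (n + 1) B y * R := by
      rw [← Finset.sum_mul, pc_sum hB (by omega), hPR]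
    nth_rewrite 1 [e1]
    rw [Finset.mul_sum, Finset.sum_mul]
    refine Finset.sum_congr rfl fun y hy => ?_
    rw [← mul_assoc, T1_Pc hM hn a hB hy, Matrix.smul_mul, Matrix.smul_mul]
    congr 1
    unfold Pc
    rw [hg1.comm hn, mul_assoc, hPR]
  have h2 : E (n + 1) (U (s n hn) * T1 N M (n + 1) a) * R =
      E (n + 1) (U (s n hn) * T1 N M (n + 1) a * R) := (E_mul_right hRal _).symm
  rw [h2, mul_assoc, h1, Finset.sum_mul, Finset.mul_sum, E_sum]
  have h3 : ∀ y ∈ ad B, E (n + 1) (U (s n hn) * (a (mv B y) B •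
      Polynomial.aeval (X ((M : ℝ) - 1) (n + 1) : Mat N) (ell B y) * R)) =
      (w B y * (((y : ℝ) - (ub B C : ℝ))⁻¹ * a (mv B y) B)) • R := by
    intro y hy
    have hyB : y ∈ B := (mem_ad.1 hy).1
    rw [Matrix.smul_mul, Matrix.mul_smul, E_smul, ← mul_assoc, E_mul_right hRal, hR,
      E_s_aeval hM hn hC hu, smul_smul]
    congr 1
    rw [← hBdef, Finset.sum_eq_single y]
    · unfold ell
      rw [Lagrange.eval_basis_self (inj _) hy, one_div, hBdef, ub_mv hu]
      ring
    · intro z hz hzy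
      by_cases h : z + 1 ∈ B
      · rw [w_zero h, zero_mul]
      · unfold ell
        rw [Lagrange.eval_basis_of_ne (v := fun y : ℕ => (y : ℝ)) (Ne.symm hzy)
          (mem_ad.2 ⟨hz, h⟩), zero_div, mul_zero]
    · intro h
      exact absurd hyB h
  rw [Finset.sum_congr rfl h3, ← Finset.sum_smul]
  rfl

/-- `E (T1 s)` -/
theorem E_T1_s (hM : N < M) {n : ℕ} (hn : n + 1 < N) (a : Finset ℕ → Finset ℕ → ℝ) :
    E (n + 1) (T1 N M (n + 1) a * U (s n hn)) = T1 N M n (PE a) := by
  have h := congrArg Matrix.transpose (E_s_T1 hM hn a)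
  rw [E_transpose', Matrix.transpose_mul, T1_symm hM hn, T1_symm hM (by omega), U_transpose,
    s_inv] at h
  exact h

/-- peel one point off the marked cycle -/
theorem peel (hM : N < M) {n : ℕ} (hn : n + 1 < N) (a : Finset ℕ → Finset ℕ → ℝ)
    {g : Perm (Fin N)} (hg : Sn (n + 2) g) (hne : g ⟨n + 1, hn⟩ ≠ ⟨n + 1, hn⟩) :
    ∃ g' : Perm (Fin N), Sn (n + 1) g' ∧ T1 N M (n + 1) a g 1 = T1 N M n (PE a) g' 1 := by
  set p : Fin N := ⟨n + 1, hn⟩ with hp
  set q : Fin N := ⟨n, by omega⟩ with hq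
  have hlt : ((g⁻¹ p : Fin N) : ℕ) < n + 1 := by
    by_contra hcon
    rw [not_lt] at hcon
    rcases eq_or_lt_of_le hcon with h1 | h1
    · have h2 : g⁻¹ p = p := Fin.ext h1.symm
      apply hne
      nth_rewrite 1 [← h2]
      exact g.apply_symm_apply p
    · have h2 : g (g⁻¹ p) = g⁻¹ p := hg _ h1
      rw [show g (g⁻¹ p) = p from g.apply_symm_apply p] at h2
      rw [← h2] at h1
      simp [hp] at h1
  set ρ : Perm (Fin N) := swap (g⁻¹ p) q with hρ
  have hρS : Sn (n + 1) ρ := swap_Sn hlt (by simp [hq])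
  set g1 := ρ * g * ρ⁻¹ with hg1
  have hρp : ρ p = p := hρS p (by simp [hp])
  have hg1q : g1 q = p := by
    rw [hg1, Perm.mul_apply, Perm.mul_apply, hρ, swap_inv, swap_apply_right,
      show g (g⁻¹ p) = p from g.apply_symm_apply p, ← hρ, hρp]
  have hg1S : Sn (n + 2) g1 :=
    Sn_mul (Sn_mul (Sn_mono (by omega) hρS) hg) (Sn_inv (Sn_mono (by omega) hρS))
  have hv : T1 N M (n + 1) a g1 1 = T1 N M (n + 1) a g 1 := T1_conj hM hn a hρS g
  set g2 := g1 * s n hn with hg2
  have hg2S : Sn (n + 1) g2 := by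
    intro z hz
    rcases eq_or_lt_of_le hz with h1 | h1
    · have h2 : z = p := Fin.ext h1.symm
      rw [h2, hg2, Perm.mul_apply]
      unfold s
      rw [swap_apply_right, hg1q]
    · have h2 : s n hn z = z := (s_Sn n hn) z h1
      rw [hg2, Perm.mul_apply, h2, hg1S z h1]
  refine ⟨g2, hg2S, ?_⟩
  rw [← hv, ← E_T1_s hM hn a, E_apply_of (by simpa using hg2S), mul_U_apply, mul_one]
  have := (T1_al hM hn.le a).2 g1 1 (s n hn)
  rw [one_mul] at this
  exact this.symm

/-- bound at all permutations of `S_(k+1)` -/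
def MaB (N M k : ℕ) (a : Finset ℕ → Finset ℕ → ℝ) (q : ℝ) : Prop :=
  ∀ g : Perm (Fin N), Sn (k + 1) g → T1 N M k a g 1 ≤ q

/-- bound at all permutations of `S_(k+1)` which move the mark `k` -/
def MkB (N M k : ℕ) (a : Finset ℕ → Finset ℕ → ℝ) (q : ℝ) : Prop :=
  ∀ (h : k < N) (g : Perm (Fin N)), Sn (k + 1) g → g ⟨k, h⟩ ≠ ⟨k, h⟩ → T1 N M k a g 1 ≤ q

/-- bound at all permutations of `S_l` -/
def ClB (N M l : ℕ) (b : Finset ℕ → ℝ) (q : ℝ) : Prop :=
  ∀ g : Perm (Fin N), Sn l g → G N M b l g 1 ≤ q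

/-- bound at all permutations of `S_l` except the identity -/
def ClB' (N M l : ℕ) (b : Finset ℕ → ℝ) (q : ℝ) : Prop :=
  ∀ g : Perm (Fin N), Sn l g → g ≠ 1 → G N M b l g 1 ≤ q

theorem MkB_succ (hM : N < M) {k : ℕ} (hk : k + 1 < N) {a : Finset ℕ → Finset ℕ → ℝ} {q : ℝ}
    (h : MaB N M k (PE a) q) : MkB N M (k + 1) a q := by
  intro _ g hg hne
  obtain ⟨g', h1, h2⟩ := peel hM hk a hg hne
  rw [h2]
  exact h g' h1

theorem MkB_zero (a : Finset ℕ → Finset ℕ → ℝ) (q : ℝ) : MkB N M 0 a q := by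
  intro h g hg hne
  exfalso
  apply hne
  have h1 : ((g ⟨0, h⟩ : Fin N) : ℕ) < 1 := by
    by_contra hcon
    have h2 : g (g ⟨0, h⟩) = g ⟨0, h⟩ := hg _ (by omega)
    have h3 := g.injective h2
    rw [h3] at hcon
    simp at hcon
  exact Fin.ext (by simp only; omega)

theorem fix_Sn {k : ℕ} (hk : k < N) {g : Perm (Fin N)} (hg : Sn (k + 1) g)
    (h : g ⟨k, hk⟩ = ⟨k, hk⟩) : Sn k g := by
  intro z hz
  rcases eq_or_lt_of_le hz with h1 | h1
  · have h2 : z = ⟨k, hk⟩ := Fin.ext h1.symm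
    rw [h2, h]
  · exact hg z h1

theorem T1_fix (hM : N < M) {k : ℕ} (hk : k < N) (a : Finset ℕ → Finset ℕ → ℝ)
    {g : Perm (Fin N)} (hg : Sn k g) : T1 N M k a g 1 = G N M (EX a) k g 1 := by
  have e := T1_E hM hk a (EX a) (fun C _ => rfl)
  rw [← e, E_apply_of (by simpa using hg)]

theorem MaB_of (hM : N < M) {k : ℕ} (hk : k < N) {a : Finset ℕ → Finset ℕ → ℝ} {q : ℝ}
    (h1 : MkB N M k a q) (h2 : ClB N M k (EX a) q) : MaB N M k a q := by
  intro g hg
  by_cases h : g ⟨k, hk⟩ = ⟨k, hk⟩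
  · rw [T1_fix hM hk a (fix_Sn hk hg h)]
    exact h2 g (fix_Sn hk hg h)
  · exact h1 hk g hg h

theorem ClB_succ {l : ℕ} {b : Finset ℕ → ℝ} {q : ℝ} (h : MaB N M l (fun B _ => b B) q) :
    ClB N M (l + 1) b q := by
  intro g hg
  have := h g hg
  rwa [T1_hi] at this

theorem ClB_zero (b : Finset ℕ → ℝ) {q : ℝ} (h : b (range M) ≤ q) :
    ClB N M 0 b q := by
  intro g hg
  have hg1 : g = 1 := by
    ext i
    rw [hg i (Nat.zero_le _)]
    rfl
  have h0 : G N M b 0 = b (range M) • (1 : Mat N) := by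
    unfold G
    rw [show Lv M 0 = {range M} from rfl, sum_singleton]
    congr 1
    exact if_pos rfl
  rw [h0, hg1, Matrix.smul_apply, Matrix.one_apply_eq, smul_eq_mul, mul_one]
  exact h

/-- recursive bound, all permutations of `S_(k+1)` -/
def MaV (M : ℕ) : ℕ → (Finset ℕ → Finset ℕ → ℝ) → ℝ → Prop
  | 0, a, q => EX a (range M) ≤ q
  | k + 1, a, q => MaV M k (PE a) q ∧ MaV M k (fun B _ => EX a B) q

theorem MaV_sound (hM : N < M) : ∀ (k : ℕ) (a : Finset ℕ → Finset ℕ → ℝ) (q : ℝ), k < N →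
    MaV M k a q → MaB N M k a q := by
  intro k
  induction k with
  | zero =>
    intro a q hk h
    exact MaB_of hM hk (MkB_zero a q) (ClB_zero _ h)
  | succ k ih =>
    intro a q hk h
    exact MaB_of hM hk (MkB_succ hM hk (ih _ q (by omega) h.1))
      (ClB_succ (ih _ q (by omega) h.2))

/-- recursive bound, permutations which move the mark -/
def MkV (M : ℕ) : ℕ → (Finset ℕ → Finset ℕ → ℝ) → ℝ → Prop
  | 0, _, _ => True
  | k + 1, a, q => MaV M k (PE a) q

theorem MkV_sound (hM : N < M) {k : ℕ} {a : Finset ℕ → Finset ℕ → ℝ} {q : ℝ} (hk : k < N)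
    (h : MkV M k a q) : MkB N M k a q := by
  cases k with
  | zero => exact MkB_zero a q
  | succ k => exact MkB_succ hM hk (MaV_sound hM k _ q (by omega) h)

/-- recursive bound, class function at all permutations of `S_l` except the identity -/
def ClV (M : ℕ) : ℕ → (Finset ℕ → ℝ) → ℝ → Prop
  | 0, _, _ => True
  | l + 1, b, q => MkV M l (fun B _ => b B) q ∧ ClV M l (EX fun B _ => b B) q

theorem ClV_sound (hM : N < M) : ∀ (l : ℕ) (b : Finset ℕ → ℝ) (q : ℝ), l ≤ N →
    ClV M l b q → ClB' N M l b q := by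
  intro l
  induction l with
  | zero =>
    intro b q _ _ g hg hne
    exfalso
    apply hne
    ext i
    rw [hg i (Nat.zero_le _)]
    rfl
  | succ l ih =>
    intro b q hl h g hg hne
    have e : G N M b (l + 1) g 1 = T1 N M l (fun B _ => b B) g 1 := by rw [T1_hi]
    by_cases hf : g ⟨l, by omega⟩ = ⟨l, by omega⟩
    · have hgl := fix_Sn (by omega) hg hf
      rw [e, T1_fix hM (by omega) _ hgl]
      exact ih _ q (by omega) h.2 g hgl hne
    · rw [e]
      exact MkV_sound hM (by omega) h.1 (by omega) g hg hf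

end Pool.JM
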