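import Pool.Agent.Work.MP_46fa68_95.RowK
import Pool.Agent.Work.MP_46fa68_95.Targ
import Pool.Agent.Work.MP_46fa68_95.Peel
import Pool.Agent.Work.MP_46fa68_95.Fam

/-! # The cell inequality of a full marked kernel -/

set_option autoImplicit false

open Finset Equiv

namespace Pool.JM

variable {N M : ℕ}

section entries

theorem rvU_mul {σ : Perm (Fin N)} (T : Mat N) (g h : Perm (Fin N)) :
    (rv (U σ) * T) g h = T (g * σ) h := by
  rw [Matrix.mul_apply, Finset.sum_eq_single (g * σ)]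
  · have : rv (U σ) g (g * σ) = 1 := by simp [rv, U]
    rw [this, one_mul]
  · intro b _ hb
    have : rv (U σ) g b = 0 := by
      unfold rv U
      rw [if_neg]
      intro hh
      apply hb
      have h1 : b⁻¹ = σ⁻¹ * g⁻¹ := by rw [hh]; group
      have h2 : b = (σ⁻¹ * g⁻¹)⁻¹ := by rw [← h1, inv_inv]
      rw [h2]
      group
    rw [this, zero_mul]
  · intro h
    exact absurd (mem_univ _) h

theorem mul_rvU {σ : Perm (Fin N)} (T : Mat N) (g h : Perm (Fin N)) :
    (T * rv (U σ)) g h = T g (h * σ⁻¹) := by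
  rw [Matrix.mul_apply, Finset.sum_eq_single (h * σ⁻¹)]
  · have : rv (U σ) (h * σ⁻¹) h = 1 := by simp [rv, U]
    rw [this, mul_one]
  · intro b _ hb
    have : rv (U σ) b h = 0 := by
      unfold rv U
      rw [if_neg]
      intro hh
      apply hb
      have h2 : b = (σ * h⁻¹)⁻¹ := by rw [← hh, inv_inv]
      rw [h2]
      group
    rw [this, mul_zero]
  · intro h
    exact absurd (mem_univ _) h

theorem cj_K_cj {k : ℕ} (hk : k + 1 < N) (K : Mat N) (g h : Perm (Fin N)) :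
    (U (s k hk) * rv (U (s k hk)) * K * (U (s k hk) * rv (U (s k hk)))) g h =
      K (s k hk * g * s k hk) (s k hk * h * s k hk) := by
  have e : U (s k hk) * rv (U (s k hk)) * K * (U (s k hk) * rv (U (s k hk))) =
      U (s k hk) * (rv (U (s k hk)) * (K * U (s k hk) * rv (U (s k hk)))) := by noncomm_ring
  rw [e, U_mul_apply, rvU_mul, mul_rvU, mul_U_apply, s_inv, mul_assoc (s k hk) h]

theorem mid_apply {k : ℕ} (T : Mat N) {g h : Perm (Fin N)} (hg : Sn k g) (hh : Sn k h) :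
    (Dg N k * T * Dg N k) g h = T g h := by
  classical
  rw [mul_Dg_apply, if_pos hh, Dg_mul_apply, if_pos hg]

/-- one step restriction, entries -/
theorem KK_step (hM : N < M) {k : ℕ} (hn : k + 2 < N) (b : Finset ℕ → ℕ → ℕ → ℝ)
    (d : Finset ℕ → Finset ℕ → ℝ) {g h : Perm (Fin N)} (hg : Sn (k + 2) g) (hh : Sn (k + 2) h) :
    KK N M (k + 2) b d (s (k + 1) hn * g * s (k + 1) hn) (s (k + 1) hn * h * s (k + 1) hn) =
      KK N M (k + 1) (rB b d) (rD b d) g h := by
  rw [← KK_res hM hn b d, ← cj_K_cj hn (KK N M (k + 2) b d) g h]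
  have e : Dg N (k + 2) * (U (s (k + 1) hn) * rv (U (s (k + 1) hn))) * KK N M (k + 2) b d *
        (U (s (k + 1) hn) * rv (U (s (k + 1) hn))) * Dg N (k + 2) =
      Dg N (k + 2) * (U (s (k + 1) hn) * rv (U (s (k + 1) hn)) * KK N M (k + 2) b d *
        (U (s (k + 1) hn) * rv (U (s (k + 1) hn)))) * Dg N (k + 2) := by noncomm_ring
  rw [e, mid_apply _ hg hh]

/-- pairs with a common value in the row of the mark -/
theorem KK_row_val (hM : N < M) {k : ℕ} (hk : k + 1 < N) (b : Finset ℕ → ℕ → ℕ → ℝ)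
    (d : Finset ℕ → Finset ℕ → ℝ) {g h : Perm (Fin N)} (hg : Sn (k + 2) g) (hh : Sn (k + 2) h)
    (hne : g ⟨k + 1, hk⟩ ≠ ⟨k + 1, hk⟩) (hgh : g ⟨k + 1, hk⟩ = h ⟨k + 1, hk⟩) :
    ∃ π : Perm (Fin N), Sn (k + 1) π ∧
      KK N M (k + 1) b d g h = T1 N M k (rowF b d) π 1 ∧
      (g⁻¹ ⟨k + 1, hk⟩ = h⁻¹ ⟨k + 1, hk⟩ ↔ π ⟨k, by omega⟩ = ⟨k, by omega⟩) ∧
      (g = h ↔ π = 1) := by
  set p : Fin N := ⟨k + 1, hk⟩ with hp
  set q : Fin N := ⟨k, by omega⟩ with hq
  have hr : ((g p : Fin N) : ℕ) < k + 1 := by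
    by_contra hcon
    rw [not_lt] at hcon
    rcases eq_or_lt_of_le hcon with h1 | h1
    · exact hne (Fin.ext h1.symm)
    · have h2 : g (g p) = g p := hg _ h1
      exact hne (g.injective h2)
  set a : Perm (Fin N) := swap (g p) q with ha
  have haS : Sn (k + 1) a := swap_Sn hr (by simp [hq])
  have hap : a p = p := haS p (by simp [hp])
  have haip : a⁻¹ p = p := (Sn_inv haS) p (by simp [hp])
  have hsq : s k hk q = p := swap_apply_left _ _
  have hsp : s k hk p = q := swap_apply_right _ _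
  have hag : (a * g) p = q := by rw [Perm.mul_apply, ha, swap_apply_left]
  have hah : (a * h) p = q := by rw [Perm.mul_apply, ← hgh, ha, swap_apply_left]
  have key : ∀ ρ : Perm (Fin N), Sn (k + 2) ρ → (a * ρ) p = q → Sn (k + 1) (s k hk * (a * ρ)) := by
    intro ρ hρ hρp z hz
    rcases eq_or_lt_of_le hz with h1 | h1
    · have : z = p := Fin.ext h1.symm
      rw [this, Perm.mul_apply, hρp, hsq]
    · have h2 : (s k hk * (a * ρ)) z = s k hk (a (ρ z)) := rfl
      rw [h2, hρ z h1, haS z (by omega), s_Sn k hk z h1]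
  set g' := s k hk * (a * g) with hg'
  set h' := s k hk * (a * h) with hh'
  have hg'S : Sn (k + 1) g' := key g hg hag
  have hh'S : Sn (k + 1) h' := key h hh hah
  have e0 : KK N M (k + 1) b d g h = KK N M (k + 1) b d (a * g) (a * h) :=
    (inv_of_comm (KK_left hM hk b d (Sn_inv haS)) g h).symm
  have hs2 : ∀ ρ : Perm (Fin N), s k hk * (s k hk * ρ) = ρ := by
    intro ρ
    rw [← mul_assoc, s_mul, one_mul]
  have e1 : KK N M (k + 1) b d (a * g) (a * h) = T1 N M k (rowF b d) g' h' := by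
    have h1 := congrFun (congrFun (KK_row (N := N) hM hk b d) g') h'
    have e : Dg N (k + 1) * U (s k hk) * KK N M (k + 1) b d * U (s k hk) * Dg N (k + 1) =
      Dg N (k + 1) * (U (s k hk) * KK N M (k + 1) b d * U (s k hk)) * Dg N (k + 1) := by
      noncomm_ring
    classical
    rw [e, mid_apply _ hg'S hh'S, mul_Dg_apply, if_pos hh'S, mul_U_apply, U_mul_apply, s_inv,
      hg', hh', hs2, hs2] at h1
    exact h1
  have e2 : T1 N M k (rowF b d) g' h' = T1 N M k (rowF b d) (g' * h'⁻¹) 1 := by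
    have := (T1_al (N := N) hM (by omega : k ≤ N) (rowF b d)).2 (g' * h'⁻¹) 1 h'
    rw [one_mul, inv_mul_cancel_right] at this
    exact this
  have hinvp : ∀ ρ : Perm (Fin N), (s k hk * (a * ρ))⁻¹ q = ρ⁻¹ p := by
    intro ρ
    rw [mul_inv_rev, mul_inv_rev, s_inv]
    change ρ⁻¹ (a⁻¹ (s k hk q)) = _
    rw [hsq, haip]
  refine ⟨g' * h'⁻¹, Sn_mul hg'S (Sn_inv hh'S), by rw [e0, e1, e2], ?_, ?_⟩
  · rw [← hinvp g, ← hinvp h, ← hg', ← hh']
    constructor
    · intro h1
      rw [Perm.mul_apply, ← h1]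
      exact g'.apply_symm_apply q
    · intro h1
      rw [Perm.mul_apply] at h1
      have h2 := congrArg (fun z => g'⁻¹ z) h1
      rw [show g'⁻¹ (g' (h'⁻¹ q)) = h'⁻¹ q from g'.symm_apply_apply _] at h2
      exact h2.symm
  · constructor
    · rintro rfl
      rw [hg', hh', mul_inv_cancel]
    · intro h1
      have h2 : g' = h' := mul_inv_eq_one.1 h1
      exact mul_left_cancel (mul_left_cancel h2)

end entries

section idv

/-- the value at the identity -/
noncomputable def IdV (M : ℕ) : ℕ → (Finset ℕ → ℝ) → ℝ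
  | 0, b => b (range M)
  | l + 1, b => IdV M l (EX fun B _ => b B)

theorem IdV_eq (hM : N < M) : ∀ (l : ℕ) (b : Finset ℕ → ℝ), l ≤ N →
    G N M b l 1 1 = IdV M l b := by
  intro l
  induction l with
  | zero =>
    intro b _
    have h0 : G N M b 0 = b (range M) • (1 : Mat N) := by
      unfold G
      rw [show Lv M 0 = {range M} from rfl, sum_singleton]
      congr 1
      exact if_pos rfl
    rw [h0, Matrix.smul_apply, Matrix.one_apply_eq, smul_eq_mul, mul_one]
    rfl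
  | succ l ih =>
    intro b hl
    have e : G N M b (l + 1) 1 1 = T1 N M l (fun B _ => b B) 1 1 := by rw [T1_hi]
    rw [e, T1_fix hM (by omega) _ (Sn_one l), ih _ (by omega)]
    rfl

/-- values of a class function by the peeling recursion -/
theorem Val_of_ClV (hM : N < M) {m : ℕ} (hm : m ≤ N) (b : Finset ℕ → ℝ) (p q : ℝ)
    (h1 : ClV M m b (- q / m.factorial)) (h2 : IdV M m b ≤ p - q / m.factorial) :
    Val N M m b p q := by
  intro g hg
  by_cases h : g = 1
  · rw [if_pos h, h, IdV_eq hM m b hm]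
    exact h2
  · rw [if_neg h, zero_sub, ← neg_div]
    exact ClV_sound hM m b _ hm h1 g hg h

/-- the level of a bead set -/
def lev95 (M : ℕ) (C : Finset ℕ) : ℕ := ∑ z ∈ C, z - ∑ z ∈ range M, z

theorem sum_mv_id {C : Finset ℕ} {x : ℕ} (hx : x ∈ ad C) : ∑ z ∈ mv C x, z = ∑ z ∈ C, z + 1 := by
  obtain ⟨h1, h2⟩ := mem_ad.1 hx
  have h3 : x + 1 ∉ C.erase x := fun h => h2 (mem_of_mem_erase h)
  unfold mv
  rw [sum_insert h3]
  have h4 := Finset.add_sum_erase C (fun z => z) h1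
  omega

theorem lev95_eq : ∀ {k : ℕ} {C : Finset ℕ}, C ∈ Lv M k →
    ∑ z ∈ C, z = ∑ z ∈ range M, z + k := by
  intro k
  induction k with
  | zero =>
    intro C hC
    rw [show Lv M 0 = {range M} from rfl, mem_singleton] at hC
    rw [hC, add_zero]
  | succ k ih =>
    intro C hC
    simp only [Lv, mem_biUnion, mem_image] at hC
    obtain ⟨B, hB, x, hx, rfl⟩ := hC
    rw [sum_mv_id hx, ih hB]
    ring

theorem lev95_Lv {k : ℕ} {C : Finset ℕ} (hC : C ∈ Lv M k) : lev95 M C = k := by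
  unfold lev95
  rw [lev95_eq hC]
  omega

/-- a harmonic function from its values on the levels -/
theorem Harm_of_seq {m n : ℕ} (a : ℕ → Finset ℕ → ℝ)
    (h : ∀ k, m ≤ k → k < n → ∀ C ∈ Lv M k, a k C = ∑ x ∈ ad C, w C x * a (k + 1) (mv C x)) :
    Harm M m n (fun C => a (lev95 M C) C) := by
  intro k h1 h2 C hC
  change a (lev95 M C) C = ∑ x ∈ ad C, w C x * a (lev95 M (mv C x)) (mv C x)
  rw [lev95_Lv hC, h k h1 h2 C hC]
  refine Finset.sum_congr rfl fun x hx => ?_
  rw [lev95_Lv (mv_mem hC hx)]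

theorem G_congr95 {k : ℕ} {a b : Finset ℕ → ℝ} (h : ∀ C ∈ Lv M k, a C = b C) :
    G N M a k = G N M b k := by
  unfold G
  exact Finset.sum_congr rfl fun C hC => by rw [h C hC]

end idv

end Pool.JM

namespace Pool.EG

open Pool.JM

/-- **the cell inequality of a full marked kernel** with all scalings: `m = j + 2`, levels `j + 1 ≤ k ≤ n` -/
theorem full_marked {n j M : ℕ} (hM : n + 1 < M) (hn : j + 3 ≤ n)
    (b : ℕ → Finset ℕ → ℕ → ℕ → ℝ) (d : ℕ → Finset ℕ → Finset ℕ → ℝ)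
    (η : ℕ → ℝ) (hη : ∀ k, 0 ≤ η k) (δ : ℝ) (hδ : 0 ≤ δ) (E : ℝ)
    (hE : ∑ i ∈ Ico (j + 1) n, η i + δ ≤ E)
    -- positivity at the top level
    (hb : ∀ C ∈ Lv M n, ∀ v : ℕ → ℝ, 0 ≤ ∑ x ∈ ad C, ∑ y ∈ ad C, b n C x y * (v x * v y))
    (hd : ∀ C ∈ Lv M n, ∀ x ∈ ad C, ∀ C' ∈ Lv M n, ∀ y ∈ ad C', C ≠ C' → mv C' y = mv C x →
      0 ≤ d n C C')
    -- restriction
    (hr : ∀ k, j + 1 ≤ k → k < n → dist95 M k (rB (b (k + 1)) (d (k + 1))) (b k)
      (rD (b (k + 1)) (d (k + 1))) (d k) ≤ η k)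
    (W1 W2 s11 S12 S22 : ℝ)
    -- pairs through the cell
    (al : Finset ℕ → ℝ) (hal1 : ∀ C ∈ Lv M n, al C = cellF (b n) C)
    (hal2 : Harm M (j + 2) n al) (hal3 : Val (n + 1) M (j + 2) al W1 s11)
    -- mixed pairs and pairs without common row or column of the cell
    (f : Finset ℕ → Finset ℕ → ℝ) (hh : Finset ℕ → ℝ)
    (hT : dist95 M (j + 1) (b (j + 1))
      (fun C x y => bT M (j + 1) hh S12 S22 C x y + 2 * bR M j f C x y) (d (j + 1))
      (fun C C' => dR M j f C C' + dR M j f C' C) ≤ δ)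
    -- row and column
    (hrow : MkB (n + 1) M (j + 1) (rowF (b (j + 2)) (d (j + 2))) (- S22 / (j + 2).factorial))
    (hcol : MkB (n + 1) M (j + 1) (rowF (b (j + 2)) fun C C' => d (j + 2) C' C)
      (- S22 / (j + 2).factorial))
    -- both
    (hboth : Val (n + 1) M (j + 2) (EX (rowF (b (j + 3)) (d (j + 3)))) W2 S22) :
    ScIneq (n + 1) (n + 1 - (j + 2)) W1 W2 s11 (S12 - (j + 2).factorial * E)
      (S22 - (j + 2).factorial * E) := by
  classical
  have hmf : (0 : ℝ) < (j + 2).factorial := by exact_mod_cast (j + 2).factorial_pos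
  have hηs : 0 ≤ ∑ i ∈ Ico (j + 1) n, η i := Finset.sum_nonneg fun i _ => hη i
  have c12 : - (S12 - (j + 2).factorial * E) / (j + 2).factorial =
      - S12 / (j + 2).factorial + E := by
    field_simp
    ring
  have c22 : - (S22 - (j + 2).factorial * E) / (j + 2).factorial =
      - S22 / (j + 2).factorial + E := by
    field_simp
    ring
  have c22' : ∀ z : ℝ, z - (S22 - (j + 2).factorial * E) / (j + 2).factorial =
      z - S22 / (j + 2).factorial + E := by
    intro z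
    field_simp
    ring
  -- the target at level `m`
  have hTK : ∀ g h : Perm (Fin (n + 1)), Sn (j + 2) g → Sn (j + 2) h → ¬ (Sn (j + 1) g ∧ Sn (j + 1) h) →
      g ⟨j + 1, by omega⟩ ≠ h ⟨j + 1, by omega⟩ → g⁻¹ ⟨j + 1, by omega⟩ ≠ h⁻¹ ⟨j + 1, by omega⟩ →
      KK (n + 1) M (j + 1) (b (j + 1)) (d (j + 1)) g h ≤
        - (if Sn (j + 1) g ∨ Sn (j + 1) h then S12 else S22) / (j + 2).factorial + δ := by
    intro g h hg hh' hgh hr1 hc1
    have h1 := KK_close (N := n + 1) hM (show j + 1 < n + 1 by omega) (b (j + 1))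
      (fun C x y => bT M (j + 1) hh S12 S22 C x y + 2 * bR M j f C x y) (d (j + 1))
      (fun C C' => dR M j f C C' + dR M j f C' C) g h
    have e : KK (n + 1) M (j + 1)
        (fun C x y => bT M (j + 1) hh S12 S22 C x y + 2 * bR M j f C x y)
        (fun C C' => dR M j f C C' + dR M j f C' C) =
        KK (n + 1) M (j + 1) (bT M (j + 1) hh S12 S22) (fun _ _ => 0) +
        (KK (n + 1) M (j + 1) (bR M j f) (dR M j f) +
          KK (n + 1) M (j + 1) (bR M j f) (fun C C' => dR M j f C' C)) := by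
      rw [KK_add, KK_add]
      refine KK_congr (fun C _ x _ y _ => by ring) (fun C _ C' _ _ => by ring)
    rw [e, Matrix.add_apply, Matrix.add_apply,
      KK_target hM (show j + 1 < n + 1 by omega) hh S12 S22 hg hh' hgh,
      row_zero95 hM (show j + 1 < n + 1 by omega) f hh' (Or.inl hr1),
      col_zero95 hM (show j + 1 < n + 1 by omega) f hh' (Or.inl hc1), add_zero, add_zero] at h1
    linarith
  have fixp : ∀ {k : ℕ} (hk : k < n + 1) {g : Perm (Fin (n + 1))}, Sn (k + 1) g →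
      g ⟨k, hk⟩ = ⟨k, hk⟩ → Sn k g := fun hk _ h1 h2 => fix_Sn hk h1 h2
  have hjn : (0 : ℕ) < n := by omega
  refine marked_scIneq (m := j + 2) (by omega) (by omega)
    (fun k => KK (n + 1) M k (b k) (d k)) η hη (∑ i ∈ Ico (j + 1) n, η i) (by simp) ?_ ?_ ?_
    W1 W2 s11 (S12 - (j + 2).factorial * E) (S22 - (j + 2).factorial * E) ?_ ?_ ?_ ?_ ?_ ?_ ?_
  · exact KK_psd hM (b n) (d n) hb hd
  · intro k _ hk2 a c ha hc g h
    exact KK_inv2 hM (by omega) (b k) (d k) ha hc g h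
  · intro k hk1 hk2 g h hg hh'
    obtain ⟨k0, rfl⟩ : ∃ k0, k = k0 + 1 := ⟨k - 1, by omega⟩
    have h1 := KK_step (N := n + 1) hM (k := k0) (by omega) (b (k0 + 2)) (d (k0 + 2)) hg hh'
    have h2 := KK_close (N := n + 1) hM (show k0 + 1 < n + 1 by omega)
      (rB (b (k0 + 2)) (d (k0 + 2))) (b (k0 + 1)) (rD (b (k0 + 2)) (d (k0 + 2))) (d (k0 + 1)) g h
    have h3 := hr (k0 + 1) (by omega) hk2
    have e : k0 + 1 + 1 = k0 + 2 := rfl
    rw [e] at h3
    refine le_trans (le_of_eq h1) ?_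
    linarith
  · -- through the cell
    intro g h hg hh' hag
    have h1 : KK (n + 1) M n (b n) (d n) g h = G (n + 1) M al n g h := by
      rw [← mid_apply (KK (n + 1) M n (b n) (d n)) hg hh', KK_cell hM (by omega), mul_Dg_apply,
        if_pos hh', G_congr95 hal1]
    have h2 := pair_le (n := n) (m := j + 2) hM (by omega) (Or.inl rfl) al W1 s11 hal2 hal3
      (σ := g) (τ := h) (fun _ => Sn_mul hg (Sn_inv hh')) hag
    exact (le_of_eq h1).trans h2
  · -- mixed
    intro g h hg0 hh' hh20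
    have hg : Sn (j + 1) g := hg0
    have hh2 : ¬ Sn (j + 1) h := hh20
    have hg' : Sn (j + 2) g := Sn_mono (by omega) hg
    have gp : g ⟨j + 1, by omega⟩ = ⟨j + 1, by omega⟩ := hg _ (by simp)
    have gip : g⁻¹ ⟨j + 1, by omega⟩ = ⟨j + 1, by omega⟩ := Sn_inv hg _ (by simp)
    have h1 := hTK g h hg' hh' (fun h' => hh2 h'.2)
      (fun h' => hh2 (fixp (by omega) hh' (h'.symm.trans gp)))
      (fun h' => hh2 (by
        have h3 := fixp (k := j + 1) (by omega) (Sn_inv hh') (h'.symm.trans gip)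
        simpa using Sn_inv h3))
    rw [if_pos (Or.inl hg)] at h1
    rw [c12]
    have h5 : KK (n + 1) M (j + 1) (b (j + 1)) (d (j + 1)) g h + ∑ i ∈ Ico (j + 1) n, η i ≤
        - S12 / (j + 2).factorial + E := by linarith
    exact h5
  · intro g h hg hg20 hh0
    have hg2 : ¬ Sn (j + 1) g := hg20
    have hh' : Sn (j + 1) h := hh0
    have hh2 : Sn (j + 2) h := Sn_mono (by omega) hh'
    have hp : h ⟨j + 1, by omega⟩ = ⟨j + 1, by omega⟩ := hh' _ (by simp)
    have hip : h⁻¹ ⟨j + 1, by omega⟩ = ⟨j + 1, by omega⟩ := Sn_inv hh' _ (by simp)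
    have h1 := hTK g h hg hh2 (fun h' => hg2 h'.1)
      (fun h' => hg2 (fixp (by omega) hg (h'.trans hp)))
      (fun h' => hg2 (by
        have h3 := fixp (k := j + 1) (by omega) (Sn_inv hg) (h'.trans hip)
        simpa using Sn_inv h3))
    rw [if_pos (Or.inr hh')] at h1
    rw [c12]
    have h5 : KK (n + 1) M (j + 1) (b (j + 1)) (d (j + 1)) g h + ∑ i ∈ Ico (j + 1) n, η i ≤
        - S12 / (j + 2).factorial + E := by linarith
    exact h5
  · intro g h hg hg20 hh' hh20 hr1 hc1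
    have hg2 : ¬ Sn (j + 1) g := hg20
    have hh2 : ¬ Sn (j + 1) h := hh20
    have h1 := hTK g h hg hh' (fun h' => hg2 h'.1) hr1 hc1
    rw [if_neg (fun h' => h'.elim hg2 hh2)] at h1
    rw [c22]
    have h5 : KK (n + 1) M (j + 1) (b (j + 1)) (d (j + 1)) g h + ∑ i ∈ Ico (j + 1) n, η i ≤
        - S22 / (j + 2).factorial + E := by linarith
    exact h5
  · -- row
    intro g h hg hg2 hh' hh2 hr1 hc1
    have gne : g ⟨j + 2, by omega⟩ ≠ ⟨j + 2, by omega⟩ := fun h' => hg2 (fixp (by omega) hg h')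
    obtain ⟨π, hπ, h1, h2, -⟩ := KK_row_val (N := n + 1) hM (k := j + 1) (by omega) (b (j + 2))
      (d (j + 2)) hg hh' gne hr1
    have h3 := hrow (by omega) π hπ (fun h' => hc1 (h2.2 h'))
    rw [c22]
    have h4 : KK (n + 1) M (j + 2) (b (j + 2)) (d (j + 2)) g h ≤
        - S22 / (j + 2).factorial := (le_of_eq h1).trans h3
    have h6 : KK (n + 1) M (j + 2) (b (j + 2)) (d (j + 2)) g h + ∑ i ∈ Ico (j + 1) n, η i ≤
        - S22 / (j + 2).factorial + E := by linarith
    exact h6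
  · -- column
    intro g h hg hg2 hh' hh2 hr1 hc1
    have gne : g⁻¹ ⟨j + 2, by omega⟩ ≠ ⟨j + 2, by omega⟩ := fun h' => hg2 (by
      have h3 := fixp (k := j + 2) (by omega) (Sn_inv hg) h'
      simpa using Sn_inv h3)
    obtain ⟨π, hπ, h1, h2, -⟩ := KK_row_val (N := n + 1) hM (k := j + 1) (by omega) (b (j + 2))
      (fun C C' => d (j + 2) C' C) (Sn_inv hg) (Sn_inv hh') gne hc1
    have h3 := hcol (by omega) π hπ (fun h' => hr1 (by
      have h4 := h2.2 h'
      rwa [inv_inv, inv_inv] at h4))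
    rw [c22]
    have h5 : KK (n + 1) M (j + 2) (b (j + 2)) (d (j + 2)) g h =
        KK (n + 1) M (j + 2) (b (j + 2)) (fun C C' => d (j + 2) C' C) g⁻¹ h⁻¹ := by
      have h6 := rv_KK (N := n + 1) hM (k := j + 2) (by omega) (b (j + 2))
        (fun C C' => d (j + 2) C' C)
      have h7 := congrFun (congrFun h6 g) h
      exact h7.symm
    have h4 : KK (n + 1) M (j + 2) (b (j + 2)) (d (j + 2)) g h ≤
        - S22 / (j + 2).factorial := by
      rw [h5]
      exact (le_of_eq h1).trans h3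
    have h6 : KK (n + 1) M (j + 2) (b (j + 2)) (d (j + 2)) g h + ∑ i ∈ Ico (j + 1) n, η i ≤
        - S22 / (j + 2).factorial + E := by linarith
    exact h6
  · -- both
    intro g h hg hg2 hh' hh2 hr1 hc1
    have gne : g ⟨j + 3, by omega⟩ ≠ ⟨j + 3, by omega⟩ := fun h' => hg2 (fixp (by omega) hg h')
    obtain ⟨π, hπ, h1, h2, h3⟩ := KK_row_val (N := n + 1) hM (k := j + 2) (by omega) (b (j + 3))
      (d (j + 3)) hg hh' gne hr1
    have hπ2 : Sn (j + 2) π := fix_Sn (by omega) hπ (h2.1 hc1)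
    have h4 := hboth π hπ2
    rw [c22']
    have h5 : KK (n + 1) M (j + 3) (b (j + 3)) (d (j + 3)) g h ≤
        (if π = 1 then W2 else 0) - S22 / (j + 2).factorial := by
      rw [h1, T1_fix hM (by omega) _ hπ2]
      exact h4
    have e : (if π = 1 then W2 else 0) = (if g = h then W2 else 0) := if_congr h3.symm rfl rfl
    rw [e] at h5
    have h6 : KK (n + 1) M (j + 3) (b (j + 3)) (d (j + 3)) g h + ∑ i ∈ Ico (j + 1) n, η i ≤
        (if g = h then W2 else 0) - S22 / (j + 2).factorial + E := by linarith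
    exact h6

end Pool.EG
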