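import Pool.Agent.Work.MP_46fa68_95.CentK

/-! # One-mark functions and their restriction

`T N M n a = ∑ a (mv C x) C • Pc n C x` over the pairs (shape `C` of `n` boxes, movable bead `x`): an element of the
group algebra of `S_(n+1)` which commutes with `S_n`; the point `n` is marked. -/

set_option autoImplicit false

open Finset Equiv

namespace Pool.JM

variable {N M : ℕ}

/-- one-mark element -/
noncomputable def T1 (N M : ℕ) (n : ℕ) (a : Finset ℕ → Finset ℕ → ℝ) : Mat N :=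
  ∑ q ∈ (Lv M n).sigma fun C => ad C, a (mv q.1 q.2) q.1 • Pc N M n q.1 q.2

theorem T1_al {n : ℕ} (hM : N < M) (hn : n ≤ N) (a : Finset ℕ → Finset ℕ → ℝ) :
    Al (n + 1) (T1 N M n a) :=
  Al.sum _ _ fun q _ => ((good (N := N) hM n hn).pc_al q.1 q.2).smul _

theorem pc_comm {n : ℕ} (hM : N < M) (hn : n < N) {B : Finset ℕ} (hB : B ∈ Lv M n) (y : ℕ)
    {Z : Mat N} (hZ : Al n Z) : Z * Pc N M n B y = Pc N M n B y * Z := by
  have h1 : Z * P N M n B = P N M n B * Z :=
    hZ.comm fun σ hσ => P_cent_k hM hn.le hB σ hσ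
  have h2 := aeval_comm (X_comm ((M : ℝ) - 1) hn hZ) (ell B y)
  unfold Pc
  rw [← mul_assoc, h1, mul_assoc, h2, mul_assoc]

/-- the pieces sum to one -/
theorem pc_tot {n : ℕ} (hM : N < M) (hn : n ≤ N) :
    ∑ q ∈ (Lv M n).sigma fun C => ad C, Pc N M n q.1 q.2 = 1 := by
  rw [← (good (N := N) hM n hn).tot, Finset.sum_sigma]
  refine Finset.sum_congr rfl fun C hC => ?_
  exact pc_sum hC (by omega)

/-- an eigenvector with a wrong eigenvalue is killed by a piece -/
theorem pc_kill {n : ℕ} (hM : N < M) (hn : n < N) {C : Finset ℕ} (hC : C ∈ Lv M n) {x : ℕ}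
    (hx : x ∈ ad C) {V : Mat N} {y : ℕ} (hV : X ((M : ℝ) - 1) n * V = (y : ℝ) • V)
    (hne : x ≠ y) : Pc N M n C x * V = 0 := by
  have hg := good (N := N) hM n hn.le
  have h1 : X ((M : ℝ) - 1) n * (Pc N M n C x * V) = (x : ℝ) • (Pc N M n C x * V) := by
    rw [← mul_assoc, hg.eig hn hC hx, Matrix.smul_mul]
  have h2 : X ((M : ℝ) - 1) n * (Pc N M n C x * V) = (y : ℝ) • (Pc N M n C x * V) := by
    have h3 : X ((M : ℝ) - 1) n * Pc N M n C x = Pc N M n C x * X ((M : ℝ) - 1) n := by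
      have e1 := hg.eig hn hC hx
      have e2 := congrArg Matrix.transpose e1
      rw [Matrix.transpose_mul, Matrix.transpose_smul, hg.pc_symm hn, X_symm] at e2
      rw [e1, e2]
    rw [← mul_assoc, h3, mul_assoc, hV, Matrix.mul_smul]
  have h3 : ((x : ℝ) - y) • (Pc N M n C x * V) = 0 := by
    rw [sub_smul, ← h1, ← h2, sub_self]
  refine (smul_eq_zero.1 h3).resolve_left (sub_ne_zero.2 ?_)
  exact_mod_cast hne

/-- an element with `P_C V = V` and eigenvalue `y` -/
theorem pc_fix {n : ℕ} (hM : N < M) (hn : n < N) {C : Finset ℕ} (hC : C ∈ Lv M n)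
    {V : Mat N} {y : ℕ} (hV : X ((M : ℝ) - 1) n * V = (y : ℝ) • V) (hP : P N M n C * V = V) :
    (y ∈ ad C ∧ Pc N M n C y * V = V) ∨ (y ∉ ad C ∧ V = 0) := by
  have h1 : V = ∑ x ∈ ad C, Pc N M n C x * V := by
    rw [← Finset.sum_mul, pc_sum hC (by omega), hP]
  by_cases hy : y ∈ ad C
  · left
    refine ⟨hy, ?_⟩
    rw [Finset.sum_eq_single y] at h1
    · exact h1.symm
    · intro x hx hne
      exact pc_kill hM hn hC hx hV hne
    · intro h
      exact absurd hy h
  · right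
    refine ⟨hy, ?_⟩
    rw [h1]
    refine Finset.sum_eq_zero fun x hx => ?_
    refine pc_kill hM hn hC hx hV ?_
    rintro rfl
    exact hy hx

theorem P_Pc {n : ℕ} (hM : N < M) (hn : n < N) {C : Finset ℕ} (hC : C ∈ Lv M n) {x : ℕ}
    (hx : x ∈ ad C) : P N M (n + 1) (mv C x) * Pc N M n C x = Pc N M n C x := by
  have hg := good (N := N) hM n hn.le
  rw [P_succ, Finset.sum_mul, Finset.sum_eq_single ⟨C, x⟩]
  · simp only
    rw [if_pos trivial, hg.pc_mul hn hC hx, if_pos ⟨rfl, rfl⟩]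
  · rintro ⟨D, y⟩ hq hne
    simp only
    split_ifs
    · rw [hg.pc_mul hn hC hx, if_neg]
      rintro ⟨rfl, rfl⟩
      exact hne rfl
    · exact zero_mul _
  · intro h'
    exact absurd (mem_sigma.2 ⟨hC, hx⟩) h'

/-- `T1` acts on a piece by a scalar -/
theorem T1_Pc {n : ℕ} (hM : N < M) (hn : n < N) (a : Finset ℕ → Finset ℕ → ℝ) {C : Finset ℕ}
    (hC : C ∈ Lv M n) {x : ℕ} (hx : x ∈ ad C) :
    T1 N M n a * Pc N M n C x = a (mv C x) C • Pc N M n C x := by
  have hg := good (N := N) hM n hn.le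
  unfold T1
  rw [Finset.sum_mul, Finset.sum_eq_single ⟨C, x⟩]
  · simp only
    rw [Matrix.smul_mul, hg.pc_mul hn hC hx, if_pos ⟨rfl, rfl⟩]
  · rintro ⟨D, y⟩ hq hne
    simp only
    rw [Matrix.smul_mul, hg.pc_mul hn hC hx, if_neg, smul_zero]
    rintro ⟨rfl, rfl⟩
    exact hne rfl
  · intro h'
    exact absurd (mem_sigma.2 ⟨hC, hx⟩) h'

theorem mv_swap {C : Finset ℕ} {u y : ℕ} (hu : u ∈ ad C) (hy : y ∈ ad C) :
    mv (mv C u) y = mv (mv C y) u := by
  obtain ⟨u1, u2⟩ := mem_ad.1 hu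
  obtain ⟨y1, y2⟩ := mem_ad.1 hy
  have h1 : u ≠ y + 1 := fun h => y2 (h ▸ u1)
  have h2 : y ≠ u + 1 := fun h => u2 (h ▸ y1)
  ext z
  simp only [mv, mem_insert, mem_erase]
  constructor
  · rintro (h | ⟨h3, h | ⟨h4, h5⟩⟩)
    · exact Or.inr ⟨by omega, Or.inl h⟩
    · exact Or.inl h
    · exact Or.inr ⟨h4, Or.inr ⟨h3, h5⟩⟩
  · rintro (h | ⟨h3, h | ⟨h4, h5⟩⟩)
    · exact Or.inr ⟨by omega, Or.inl h⟩
    · exact Or.inl h
    · exact Or.inr ⟨h4, Or.inr ⟨h3, h5⟩⟩

/-- the conditional expectation of `s f(X)` on a piece -/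
theorem E_s_aeval (hM : N < M) {n : ℕ} (hn : n + 1 < N) {C : Finset ℕ} (hC : C ∈ Lv M n)
    {u : ℕ} (hu : u ∈ ad C) (g : Polynomial ℝ) :
    E (n + 1) (U (s n hn) * Polynomial.aeval (X ((M : ℝ) - 1) (n + 1)) g) * Pc N M n C u =
      (∑ z ∈ mv C u, w (mv C u) z * (g.eval (z : ℝ) / ((z : ℝ) - u))) • Pc N M n C u := by
  have hn' : n < N := by omega
  have hg0 := good (N := N) hM n hn'.le
  have hg1 := good (N := N) hM (n + 1) hn.le
  have hB : mv C u ∈ Lv M (n + 1) := mv_mem hC hu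
  have hB0 : 0 ∈ mv C u := Lv_zero_mem hB (by omega)
  obtain ⟨hu1, hu2⟩ := mem_ad.1 hu
  have hnu : u ∉ mv C u := by simp [mv]
  have hmu : u + 1 ∈ mv C u := by simp [mv]
  set R : Mat N := Pc N M n C u with hR
  set s' : Mat N := U (s n hn) with hs'
  set D : Mat N := X ((M : ℝ) - 1) (n + 1) - (u : ℝ) • 1 with hD
  set Y : Mat N := X ((M : ℝ) - 1) n - (u : ℝ) • 1 with hY
  have hYR : Y * R = 0 := by
    rw [hY, sub_mul, Matrix.smul_mul, one_mul, hg0.eig hn' hC hu, sub_self]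
  have hYal : Al (n + 1) Y := (X_Al _ n).sub ((Al_one _).smul _)
  have hsD : s' * D = Y * s' + 1 := by
    rw [hD, hY, mul_sub, sub_mul, hs', s_X, Matrix.smul_mul, Matrix.mul_smul, one_mul, mul_one]
    abel
  have hmom : ∀ j : ℕ, E (n + 1) (D ^ j) * R =
      (∑ z ∈ mv C u, w (mv C u) z * ((z : ℝ) - u) ^ j) • R := by
    intro j
    have e2 : D ^ j = Polynomial.aeval (X ((M : ℝ) - 1) (n + 1) : Mat N)
        ((Polynomial.X - Polynomial.C (u : ℝ)) ^ j) := by
      rw [map_pow, map_sub, Polynomial.aeval_X, Polynomial.aeval_C,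
        Algebra.algebraMap_eq_smul_one]
    have e3 : P N M (n + 1) (mv C u) * R = R := P_Pc hM hn' hC hu
    calc E (n + 1) (D ^ j) * R = E (n + 1) (D ^ j) * P N M (n + 1) (mv C u) * R := by
          rw [mul_assoc, e3]
      _ = _ := by
          rw [e2, hg1.mom hn _ hB, Matrix.smul_mul, e3]
          congr 1
          refine Finset.sum_congr rfl fun z _ => ?_
          rw [Polynomial.eval_pow, Polynomial.eval_sub, Polynomial.eval_X, Polynomial.eval_C]
  have hEs : ∀ j : ℕ, E (n + 1) (s' * D ^ j) * R =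
      (∑ z ∈ mv C u, w (mv C u) z * (((z : ℝ) - u) ^ j / ((z : ℝ) - u))) • R := by
    intro j
    induction j with
    | zero =>
      rw [pow_zero, mul_one, hs', E_s, zero_mul]
      have := w_div (mv C u) hB0 hnu hmu
      have e : ∑ z ∈ mv C u, w (mv C u) z * (((z : ℝ) - u) ^ 0 / ((z : ℝ) - u)) = 0 := by
        rw [← this]
        refine Finset.sum_congr rfl fun z _ => ?_
        rw [pow_zero]
        ring
      rw [e, zero_smul]
    | succ j ih =>
      have e1 : s' * D ^ (j + 1) = Y * (s' * D ^ j) + D ^ j := by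
        rw [pow_succ', ← mul_assoc, hsD, add_mul, one_mul, mul_assoc]
      rw [e1, E_add, E_mul_left hYal.1, add_mul, mul_assoc, ih, Matrix.mul_smul, hYR, smul_zero,
        zero_add, hmom]
      congr 1
      refine Finset.sum_congr rfl fun z hz => ?_
      have hz1 : (z : ℝ) - u ≠ 0 := by
        rw [sub_ne_zero]
        intro h
        have : z = u := by exact_mod_cast h
        exact hnu (this ▸ hz)
      rw [pow_succ, mul_div_assoc, div_self hz1, mul_one]
  set q := g.comp (Polynomial.X + Polynomial.C (u : ℝ)) with hq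
  have e1 : Polynomial.aeval (X ((M : ℝ) - 1) (n + 1) : Mat N) g = Polynomial.aeval D q := by
    rw [hq, Polynomial.aeval_comp, map_add, Polynomial.aeval_X, Polynomial.aeval_C,
      Algebra.algebraMap_eq_smul_one, hD, sub_add_cancel]
  have e2 : ∀ x : ℝ, g.eval x = ∑ i ∈ range (q.natDegree + 1), q.coeff i * (x - u) ^ i := by
    intro x
    rw [← Polynomial.eval_eq_sum_range, hq, Polynomial.eval_comp, Polynomial.eval_add,
      Polynomial.eval_X, Polynomial.eval_C, sub_add_cancel]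
  rw [e1, Polynomial.aeval_eq_sum_range, Finset.mul_sum, E_sum, Finset.sum_mul]
  have e3 : ∀ i ∈ range (q.natDegree + 1), E (n + 1) (s' * (q.coeff i • D ^ i)) * R =
      (q.coeff i * ∑ z ∈ mv C u, w (mv C u) z * (((z : ℝ) - u) ^ i / ((z : ℝ) - u))) • R := by
    intro i _
    rw [Matrix.mul_smul, E_smul, Matrix.smul_mul, hEs, smul_smul]
  rw [Finset.sum_congr rfl e3, ← Finset.sum_smul]
  congr 1
  simp_rw [e2, Finset.sum_div, Finset.mul_sum]
  rw [Finset.sum_comm]
  refine Finset.sum_congr rfl fun z _ => Finset.sum_congr rfl fun i _ => ?_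
  ring

/-- the restricted function -/
noncomputable def res (a : Finset ℕ → Finset ℕ → ℝ) (C : Finset ℕ) (u : ℕ) : ℝ :=
  ∑ y ∈ ad (mv C u), w (mv C u) y *
    (((y : ℝ) - u)⁻¹ ^ 2 * a (mv (mv C u) y) (mv C u) +
      (1 - ((y : ℝ) - u)⁻¹ ^ 2) * a (mv (mv C u) y) (mv C y))

/-- the restriction of a one-mark element acts on a piece by a scalar -/
theorem res_piece (hM : N < M) {n : ℕ} (hn : n + 1 < N) (a : Finset ℕ → Finset ℕ → ℝ)
    {C : Finset ℕ} (hC : C ∈ Lv M n) {u : ℕ} (hu : u ∈ ad C) :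
    E (n + 1) (U (s n hn) * T1 N M (n + 1) a * U (s n hn)) * Pc N M n C u =
      res a C u • Pc N M n C u := by
  have hn' : n < N := by omega
  have hg0 := good (N := N) hM n hn'.le
  have hg1 := good (N := N) hM (n + 1) hn.le
  have hB : mv C u ∈ Lv M (n + 1) := mv_mem hC hu
  obtain ⟨hu1, hu2⟩ := mem_ad.1 hu
  have hnu : u ∉ mv C u := by simp [mv]
  set B := mv C u with hBdef
  set R : Mat N := Pc N M n C u with hR
  set s' : Mat N := U (s n hn) with hs'
  set T : Mat N := T1 N M (n + 1) a with hT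
  have hRal : Al (n + 1) R := hg0.pc_al C u
  have hss : s' * s' = 1 := U_s_sq n hn
  have hPR : P N M (n + 1) B * R = R := P_Pc hM hn' hC hu
  -- R = ∑ Ry
  have hRs : R = ∑ y ∈ ad B, Pc N M (n + 1) B y * R := by
    rw [← Finset.sum_mul, pc_sum hB (by omega), hPR]
  have key : ∀ y ∈ ad B, E (n + 1) (s' * T * s' * (Pc N M (n + 1) B y * R)) =
      (w B y * (((y : ℝ) - u)⁻¹ ^ 2 * a (mv B y) B +
        (1 - ((y : ℝ) - u)⁻¹ ^ 2) * a (mv B y) (mv C y))) • R := by
    intro y hy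
    have hyB : y ∈ B := (mem_ad.1 hy).1
    have hyu : y ≠ u := fun h => hnu (h ▸ hyB)
    have hr : (y : ℝ) - u ≠ 0 := by
      rw [sub_ne_zero]
      exact_mod_cast hyu
    set r : ℝ := (y : ℝ) - u with hrdef
    set Ry : Mat N := Pc N M (n + 1) B y * R with hRy
    have hRy' : Ry = R * Pc N M (n + 1) B y := by
      rw [hRy]
      exact (pc_comm hM hn hB y hRal).symm
    have f1 : X ((M : ℝ) - 1) (n + 1) * Ry = (y : ℝ) • Ry := by
      rw [hRy, ← mul_assoc, hg1.eig hn hB hy, Matrix.smul_mul]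
    have f2 : X ((M : ℝ) - 1) n * Ry = (u : ℝ) • Ry := by
      rw [hRy', ← mul_assoc, hg0.eig hn' hC hu, Matrix.smul_mul]
    set V : Mat N := s' * Ry - r⁻¹ • Ry with hV
    have f3 : X ((M : ℝ) - 1) (n + 1) * V = (u : ℝ) • V := by
      have e1 : X ((M : ℝ) - 1) (n + 1) * (s' * Ry) = (u : ℝ) • (s' * Ry) + Ry := by
        rw [← mul_assoc, hs', X_s, add_mul, one_mul, mul_assoc, f2, Matrix.mul_smul]
      rw [hV, mul_sub, e1, Matrix.mul_smul, f1, smul_sub, smul_smul, smul_smul]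
      have e2 : r⁻¹ * (y : ℝ) = 1 + (u : ℝ) * r⁻¹ := by
        have hyr : (y : ℝ) = r + u := by rw [hrdef]; ring
        rw [hyr, mul_add, inv_mul_cancel₀ hr, mul_comm]
      rw [e2, add_smul, one_smul]
      abel
    have f4 : X ((M : ℝ) - 1) n * V = (y : ℝ) • V := by
      have e1 : X ((M : ℝ) - 1) n * (s' * Ry) = (y : ℝ) • (s' * Ry) - Ry := by
        have e0 := s_X (N := N) ((M : ℝ) - 1) hn
        rw [← hs'] at e0
        have e3 : X ((M : ℝ) - 1) n * s' = s' * X ((M : ℝ) - 1) (n + 1) - 1 := by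
          rw [e0]; abel
        rw [← mul_assoc, e3, sub_mul, one_mul, mul_assoc, f1, Matrix.mul_smul]
      rw [hV, mul_sub, e1, Matrix.mul_smul, f2, smul_sub, smul_smul, smul_smul]
      have e2 : r⁻¹ * (u : ℝ) = (y : ℝ) * r⁻¹ - 1 := by
        have hyr : (y : ℝ) = r + u := by rw [hrdef]; ring
        rw [hyr, add_mul, mul_inv_cancel₀ hr]
        ring
      rw [e2, sub_smul, one_smul]
      abel
    have f5 : P N M n C * V = V := by
      have e1 : P N M n C * R = R := by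
        rw [hR]
        unfold Pc
        rw [← mul_assoc, hg0.idem]
      have e2 : P N M n C * Ry = Ry := by
        rw [hRy', ← mul_assoc, e1]
      have e3 : P N M n C * s' = s' * P N M n C := s_commA hn (hg0.al C)
      rw [hV, mul_sub, Matrix.mul_smul, e2, ← mul_assoc, e3, mul_assoc, e2]
    -- T V
    have f6 : T * V = a (mv B y) (mv C y) • V := by
      rcases pc_fix hM hn' hC f4 f5 with ⟨hyC, h1⟩ | ⟨-, h0⟩
      · have hD : mv C y ∈ Lv M (n + 1) := mv_mem hC hyC
        have h2 : P N M (n + 1) (mv C y) * V = V := by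
          rw [← h1, ← mul_assoc, P_Pc hM hn' hC hyC]
        rcases pc_fix hM hn hD f3 h2 with ⟨huD, h3⟩ | ⟨-, h0⟩
        · rw [← h3, ← mul_assoc, hT, T1_Pc hM hn a hD huD, Matrix.smul_mul, hBdef,
            mv_swap hu hyC]
        · rw [h0, mul_zero, smul_zero]
      · rw [h0, mul_zero, smul_zero]
    have f7 : T * Ry = a (mv B y) B • Ry := by
      rw [hRy, ← mul_assoc, hT, T1_Pc hM hn a hB hy, Matrix.smul_mul]
    have f8 : s' * Ry = r⁻¹ • Ry + V := by rw [hV]; abel
    have f9 : s' * V = (1 - r⁻¹ ^ 2) • Ry - r⁻¹ • V := by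
      have e1 : s' * V = Ry - r⁻¹ • (s' * Ry) := by
        rw [hV, mul_sub, Matrix.mul_smul, ← mul_assoc, hss, one_mul]
      rw [e1, f8, smul_add, smul_smul, sub_smul, one_smul, sq]
      abel
    -- the main identity
    have f10 : s' * T * s' * Ry =
        (r⁻¹ ^ 2 * a (mv B y) B + (1 - r⁻¹ ^ 2) * a (mv B y) (mv C y)) • Ry +
          (r⁻¹ * (a (mv B y) B - a (mv B y) (mv C y))) • V := by
      have e1 : s' * T * s' * Ry = s' * (T * (s' * Ry)) := by noncomm_ring
      rw [e1, f8, mul_add, Matrix.mul_smul, f7, f6, mul_add, Matrix.mul_smul, Matrix.mul_smul,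
        Matrix.mul_smul, f8, f9]
      module
    -- expectations
    have g1 : E (n + 1) Ry = w B y • R := by
      rw [hRy, E_mul_right hRal, hg1.pc_E hn hB hy, Matrix.smul_mul, hPR]
    have g2 : E (n + 1) (s' * Ry) = (w B y * r⁻¹) • R := by
      have e1 : s' * Ry = s' * Polynomial.aeval (X ((M : ℝ) - 1) (n + 1)) (ell B y) * R := by
        rw [hRy]
        unfold Pc
        rw [hg1.comm hn, mul_assoc, hPR, mul_assoc]
      rw [e1, E_mul_right hRal, hR, hs', E_s_aeval hM hn hC hu]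
      congr 1
      rw [← hBdef, Finset.sum_eq_single y]
      · unfold ell
        rw [Lagrange.eval_basis_self (inj _) hy, one_div, hrdef]
      · intro z hz hzy
        by_cases h : z + 1 ∈ B
        · rw [w_zero h, zero_mul]
        · unfold ell
          rw [Lagrange.eval_basis_of_ne (v := fun y : ℕ => (y : ℝ)) (Ne.symm hzy)
            (mem_ad.2 ⟨hz, h⟩), zero_div, mul_zero]
      · intro h
        exact absurd hyB h
    have g3 : E (n + 1) V = 0 := by
      have : V = s' * Ry + (-r⁻¹) • Ry := by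
        rw [hV, neg_smul, sub_eq_add_neg]
      rw [this, E_add, E_smul, g1, g2, smul_smul, ← add_smul]
      have : w B y * r⁻¹ + -r⁻¹ * w B y = 0 := by ring
      rw [this, zero_smul]
    rw [f10, E_add, E_smul, E_smul, g1, g3, smul_zero, add_zero, smul_smul]
    congr 1
    ring
  calc E (n + 1) (s' * T * s') * R = E (n + 1) (s' * T * s' * R) := (E_mul_right hRal _).symm
    _ = E (n + 1) (∑ y ∈ ad B, s' * T * s' * (Pc N M (n + 1) B y * R)) := by
        rw [← Finset.mul_sum, ← hRs]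
    _ = _ := by
        rw [E_sum, Finset.sum_congr rfl key, ← Finset.sum_smul]
        rfl

/-- **restriction of a one-mark element** -/
theorem T1_res (hM : N < M) {n : ℕ} (hn : n + 1 < N) (a b : Finset ℕ → Finset ℕ → ℝ)
    (h : ∀ C ∈ Lv M n, ∀ x ∈ ad C, b (mv C x) C = res a C x) :
    E (n + 1) (U (s n hn) * T1 N M (n + 1) a * U (s n hn)) = T1 N M n b := by
  rw [← mul_one (E (n + 1) (U (s n hn) * T1 N M (n + 1) a * U (s n hn))),
    ← pc_tot (n := n) hM (by omega), Finset.mul_sum]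
  unfold T1
  refine Finset.sum_congr rfl fun q hq => ?_
  obtain ⟨hq1, hq2⟩ := mem_sigma.1 hq
  rw [h q.1 hq1 q.2 hq2]
  exact res_piece hM hn a hq1 hq2

end Pool.JM
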