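import Pool.Agent.Work.MP_46fa68_95.Diag
import Pool.Agent.Work.MP_46fa68_95.Block
import Pool.Agent.Work.MP_46fa68_95.Mark
import Pool.Agent.Work.MP_46fa68_h4.Elem
import Pool.Agent.Work.MP_46fa68_62.Mark0

/-! # The rank one identity in the blocks `(C, C)`

`N = n + 1`, `Dg` the projection on the functions supported on `S_n`, `T = Pc n C x`:
`T Dg T = w C x • T (rv P_C)`. -/

set_option autoImplicit false

open Finset Equiv

namespace Pool.JM

variable {n M : ℕ}

theorem Dg_mul_of {T : Mat (n + 1)} {g h : Perm (Fin (n + 1))} (hg : Sn n g) :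
    (Dg (n + 1) n * T) g h = T g h := by
  classical
  rw [Dg_mul_apply, if_pos hg]

theorem Dg_mul_not {T : Mat (n + 1)} {g h : Perm (Fin (n + 1))} (hg : ¬ Sn n g) :
    (Dg (n + 1) n * T) g h = 0 := by
  classical
  rw [Dg_mul_apply, if_neg hg]

theorem mul_Dg_of {T : Mat (n + 1)} {g h : Perm (Fin (n + 1))} (hh : Sn n h) :
    (T * Dg (n + 1) n) g h = T g h := by
  classical
  rw [mul_Dg_apply, if_pos hh]

theorem mul_Dg_not {T : Mat (n + 1)} {g h : Perm (Fin (n + 1))} (hh : ¬ Sn n h) :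
    (T * Dg (n + 1) n) g h = 0 := by
  classical
  rw [mul_Dg_apply, if_neg hh]

theorem P_Pc_self (hM : n + 1 < M) (C : Finset ℕ) (x : ℕ) :
    P (n + 1) M n C * Pc (n + 1) M n C x = Pc (n + 1) M n C x := by
  unfold Pc
  rw [← mul_assoc, (good (N := n + 1) hM n (by omega)).idem]

theorem Pc_P_self (hM : n + 1 < M) (C : Finset ℕ) (x : ℕ) :
    Pc (n + 1) M n C x * P (n + 1) M n C = Pc (n + 1) M n C x := by
  have hg := good (N := n + 1) hM n (by omega)
  unfold Pc
  rw [mul_assoc, ← hg.comm (by omega), ← mul_assoc, hg.idem]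

theorem card_H : (univ.filter fun g : Perm (Fin (n + 1)) => g (Fin.last n) = Fin.last n).card =
    n.factorial := by
  rw [← card_Sn (N := n + 1) (m := n) (by omega)]
  congr 1
  ext g
  rw [mem_filter, mem_filter]
  exact and_congr Iff.rfl Sn_last95.symm

theorem trace_mul_Dg {T : Mat (n + 1)} (hT : Inv T) :
    (T * Dg (n + 1) n).trace = n.factorial * T 1 1 := by
  classical
  unfold Matrix.trace
  have h1 : ∀ g : Perm (Fin (n + 1)), (T * Dg (n + 1) n).diag g =
      if g (Fin.last n) = Fin.last n then T 1 1 else 0 := by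
    intro g
    rw [Matrix.diag_apply]
    split_ifs with hg
    · rw [mul_Dg_of (Sn_last95.2 hg)]
      have := hT 1 1 g
      rwa [one_mul] at this
    · rw [mul_Dg_not fun h => hg (Sn_last95.1 h)]
  rw [Finset.sum_congr rfl fun g _ => h1 g, ← Finset.sum_filter, Finset.sum_const, card_H,
    nsmul_eq_mul]

/-- trace of a product of a left and a right element -/
theorem trace_rv {k : ℕ} {T P : Mat (k + 2)} (hT : Inv T)
    (hTc : ∀ σ : Perm (Fin (k + 2)), Sn (k + 1) σ → U σ * T = T * U σ)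
    (hP : Al (k + 1) P) (hPs : P.transpose = P)
    (hPc : ∀ σ : Perm (Fin (k + 2)), Sn (k + 1) σ → U σ * P = P * U σ) :
    (T * rv P).trace = (k + 1).factorial * ((P * E (k + 1) T : Mat (k + 2)) 1 1 +
      (k + 1) * (P * E (k + 1) (U (s k (by omega)) * T * U (s k (by omega))) : Mat (k + 2)) 1 1) := by
  classical
  set s' : Perm (Fin (k + 2)) := s k (by omega) with hs'
  have hclT : ∀ τ σ : Perm (Fin (k + 2)), Sn (k + 1) τ → T (τ * σ * τ⁻¹) 1 = T σ 1 := by
    intro τ σ hτ
    have e1 : (U τ⁻¹ * T) (σ * τ⁻¹) 1 = T (τ * σ * τ⁻¹) 1 := by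
      rw [U_mul_apply, inv_inv, mul_assoc]
    rw [← e1, hTc _ (Sn_inv hτ), mul_U_apply, mul_one]
    have := hT σ 1 τ⁻¹
    rwa [one_mul] at this
  have hclP : ∀ τ σ : Perm (Fin (k + 2)), Sn (k + 1) τ → P (τ * σ * τ⁻¹) 1 = P σ 1 := by
    intro τ σ hτ
    have e1 : (U τ⁻¹ * P) (σ * τ⁻¹) 1 = P (τ * σ * τ⁻¹) 1 := by
      rw [U_mul_apply, inv_inv, mul_assoc]
    rw [← e1, hPc _ (Sn_inv hτ), mul_U_apply, mul_one]
    have := hP.2 σ 1 τ⁻¹
    rwa [one_mul] at this
  set f : Perm (Fin (k + 2)) → ℝ := fun h => ∑ a, T (h * a * h⁻¹) 1 * P a 1 with hf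
  -- the trace as a sum of f
  have h1 : (T * rv P).trace = ∑ h, f h := by
    have e1 : (T * rv P).trace = ∑ g, ∑ h, T g h * P h⁻¹ g⁻¹ := by
      unfold Matrix.trace
      refine Finset.sum_congr rfl fun g _ => ?_
      rw [Matrix.diag_apply, Matrix.mul_apply]
      rfl
    rw [e1, Finset.sum_comm]
    refine Finset.sum_congr rfl fun h _ => ?_
    rw [hf]
    simp only
    rw [← Fintype.sum_equiv (Equiv.mulLeft h) (fun a => T (h * a) h * P h⁻¹ (h * a)⁻¹)
      (fun g => T g h * P h⁻¹ g⁻¹) fun a => rfl]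
    refine Finset.sum_congr rfl fun a _ => ?_
    have e2 : T (h * a) h = T (h * a * h⁻¹) 1 := by
      have := hT (h * a * h⁻¹) 1 h
      rw [one_mul] at this
      rw [← this]
      congr 1
      group
    have e3 : P h⁻¹ (h * a)⁻¹ = P a 1 := by
      have := hP.2 a 1 (h * a)⁻¹
      rw [one_mul] at this
      rw [← this]
      congr 1
      group
    rw [e2, e3]
  -- invariance
  have hf1 : ∀ τ h : Perm (Fin (k + 2)), Sn (k + 1) τ → f (τ * h) = f h := by
    intro τ h hτ
    rw [hf]
    refine Finset.sum_congr rfl fun a _ => ?_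
    have e : τ * h * a * (τ * h)⁻¹ = τ * (h * a * h⁻¹) * τ⁻¹ := by group
    rw [e, hclT _ _ hτ]
  have hf2 : ∀ τ h : Perm (Fin (k + 2)), Sn (k + 1) τ → f (h * τ) = f h := by
    intro τ h hτ
    rw [hf]
    simp only
    rw [← Fintype.sum_equiv ((Equiv.mulLeft τ).trans (Equiv.mulRight τ⁻¹))
      (fun a => T (h * (τ * a * τ⁻¹) * h⁻¹) 1 * P (τ * a * τ⁻¹) 1)
      (fun a => T (h * a * h⁻¹) 1 * P a 1) fun a => rfl]
    refine Finset.sum_congr rfl fun a _ => ?_
    rw [hclP _ _ hτ]
    have e : h * τ * a * (h * τ)⁻¹ = h * (τ * a * τ⁻¹) * h⁻¹ := by group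
    rw [e]
  have hfH : ∀ h : Perm (Fin (k + 2)), Sn (k + 1) h → f h = f 1 := by
    intro h hh
    have := hf1 h 1 hh
    rwa [mul_one] at this
  have hlast : (⟨k + 1, by omega⟩ : Fin (k + 2)) = Fin.last (k + 1) := rfl
  have hfN : ∀ h : Perm (Fin (k + 2)), ¬ Sn (k + 1) h → f h = f s' := by
    intro h hh
    set l : Fin (k + 2) := Fin.last (k + 1) with hl
    set q : Fin (k + 2) := ⟨k, by omega⟩ with hq
    have hne : h l ≠ l := fun h' => hh (Sn_last95.2 h')
    have hlt : ((h l : Fin (k + 2)) : ℕ) < k + 1 := by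
      have h1 := (h l).2
      have h2 : ((h l : Fin (k + 2)) : ℕ) ≠ k + 1 := fun h' => hne (Fin.ext h')
      omega
    set ρ : Perm (Fin (k + 2)) := swap (h l) q with hρ
    have hρS : Sn (k + 1) ρ := swap_Sn hlt (by simp [hq])
    have hs1 : s' q = l := swap_apply_left _ _
    set r := s' * (ρ * h) with hr
    have hrS : Sn (k + 1) r := by
      rw [Sn_last95, hr, Perm.mul_apply, Perm.mul_apply, hρ, ← hl, swap_apply_left, hs1]
    have e : h = ρ⁻¹ * (s' * r) := by
      rw [hr, ← mul_assoc s', show s' * s' = 1 from s_mul k (by omega)]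
      group
    rw [e, hf1 _ _ (Sn_inv hρS), hf2 _ _ hrS]
  have h2 : ∑ h, f h = (k + 1).factorial * f 1 + (k + 1) * (k + 1).factorial * f s' := by
    have e1 : ∀ h : Perm (Fin (k + 2)), f h =
        if h (Fin.last (k + 1)) = Fin.last (k + 1) then f 1 else f s' := by
      intro h
      split_ifs with hh
      · exact hfH h (Sn_last95.2 hh)
      · exact hfN h fun h' => hh (Sn_last95.1 h')
    rw [Finset.sum_congr rfl fun h _ => e1 h, Finset.sum_ite, Finset.sum_const, Finset.sum_const,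
      nsmul_eq_mul, nsmul_eq_mul, card_H]
    have e2 := Finset.card_filter_add_card_filter_not
      (s := (univ : Finset (Perm (Fin (k + 2))))) (fun h => h (Fin.last (k + 1)) = Fin.last (k + 1))
    rw [card_H, card_univ, Fintype.card_perm, Fintype.card_fin] at e2
    have e3 : ((univ.filter fun h : Perm (Fin (k + 2)) =>
        ¬ h (Fin.last (k + 1)) = Fin.last (k + 1)).card : ℝ) = (k + 1) * (k + 1).factorial := by
      have e4 : (univ.filter fun h : Perm (Fin (k + 2)) =>
        ¬ h (Fin.last (k + 1)) = Fin.last (k + 1)).card = (k + 1) * (k + 1).factorial := by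
        have : (k + 2).factorial = (k + 1) * (k + 1).factorial + (k + 1).factorial := by
          rw [Nat.factorial_succ (k + 1)]
          ring
        omega
      rw [e4]
      push_cast
      ring
    rw [e3]
  -- the two values
  have hval : ∀ Z : Mat (k + 2), (P * E (k + 1) Z) 1 1 = ∑ a, Z a 1 * P a 1 := by
    intro Z
    have e1 : (P * E (k + 1) Z) 1 1 = (P * Z) 1 1 := by
      rw [← E_mul_left hP.1, E_apply_of (by simpa using Sn_one (N := k + 2) (k + 1))]
    rw [e1, Matrix.mul_apply]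
    refine Finset.sum_congr rfl fun a _ => ?_
    have : P 1 a = P a 1 := by
      have := congrFun (congrFun hPs a) 1
      rwa [Matrix.transpose_apply] at this
    rw [this, mul_comm]
  have h3 : f 1 = (P * E (k + 1) T) 1 1 := by
    rw [hval, hf]
    refine Finset.sum_congr rfl fun a _ => ?_
    rw [one_mul, inv_one, mul_one]
  have h4 : f s' = (P * E (k + 1) (U s' * T * U s')) 1 1 := by
    rw [hval, hf]
    refine Finset.sum_congr rfl fun a _ => ?_
    congr 1
    rw [mul_U_apply, U_mul_apply, mul_one]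
    have e1 : s'⁻¹ = s' := s_inv k (by omega)
    have := hT (s' * a * s'⁻¹) 1 s'
    rw [one_mul] at this
    rw [← this, e1, mul_assoc, show s' * s' = 1 from s_mul k (by omega), mul_one]
  rw [h1, h2, h3, h4]
  ring

end Pool.JM
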