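import Pool.Agent.Work.MP_46fa68_95.KKEnt
import Pool.Agent.Work.MP_46fa68_95.Star

/-! # The kernels of the pairs with a common value in the row of the mark

`Zr C u` (with `ν = mv C u`) is the projection on the functions of right type `ν`, supported off the stabiliser
of the mark, whose restriction to a fibre has left type `C`. -/

set_option autoImplicit false

open Finset Equiv

namespace Pool.JM

variable {N M : ℕ}

section wsums

theorem ad_sum (B : Finset ℕ) (f : ℕ → ℝ) : ∑ x ∈ ad B, w B x * f x = ∑ x ∈ B, w B x * f x := by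
  refine sum_subset (filter_subset _ _) fun x hx hx' => ?_
  rw [w_zero, zero_mul]
  by_contra h
  exact hx' (mem_ad.2 ⟨hx, h⟩)

theorem wsum1 {k : ℕ} {C : Finset ℕ} (hC : C ∈ Lv M k) (hk : k + 1 < M) {u : ℕ} (hu : u ∈ ad C) :
    ∑ x ∈ ad (mv C u), w (mv C u) x * ((x : ℝ) - u)⁻¹ = 0 := by
  have hB : mv C u ∈ Lv M (k + 1) := mv_mem hC hu
  have h0 : 0 ∈ mv C u := Lv_zero_mem hB (by omega)
  have hnu : u ∉ mv C u := by simp [mv]
  have hmu : u + 1 ∈ mv C u := by simp [mv]
  rw [ad_sum]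
  have h1 := w_div (mv C u) h0 hnu hmu
  rw [← h1]
  exact Finset.sum_congr rfl fun x _ => by rw [div_eq_mul_inv]

theorem wsum2 {k : ℕ} {C : Finset ℕ} (hC : C ∈ Lv M k) (hk : k + 1 < M) {u : ℕ} (hu : u ∈ ad C) :
    ∑ x ∈ ad (mv C u), w (mv C u) x * (((x : ℝ) - u)⁻¹) ^ 2 = w C u := by
  have hB : mv C u ∈ Lv M (k + 1) := mv_mem hC hu
  rw [ad_sum]
  exact sum_w_sq (Lv_zero_mem hC (by omega)) hu (Lv_zero_mem hB (by omega))

theorem wsum3 {k : ℕ} {C C' : Finset ℕ} (hC : C ∈ Lv M k) (hC' : C' ∈ Lv M k) (hk : k + 1 < M)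
    {u u' : ℕ} (hu : u ∈ ad C) (hu' : u' ∈ ad C') (he : mv C u = mv C' u') (hne : u ≠ u') :
    ∑ x ∈ ad (mv C u), w (mv C u) x * (((x : ℝ) - u)⁻¹ * ((x : ℝ) - u')⁻¹) = 0 := by
  have hnu : u ∉ mv C u := by simp [mv]
  have hnu' : u' ∉ mv C u := by rw [he]; simp [mv]
  have hd : (u : ℝ) - u' ≠ 0 := by
    rw [sub_ne_zero]
    exact_mod_cast hne
  have h1 : ∀ x ∈ ad (mv C u), w (mv C u) x * (((x : ℝ) - u)⁻¹ * ((x : ℝ) - u')⁻¹) =
      ((u : ℝ) - u')⁻¹ * (w (mv C u) x * ((x : ℝ) - u)⁻¹ - w (mv C u) x * ((x : ℝ) - u')⁻¹) := by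
    intro x hx
    have hxB : x ∈ mv C u := (mem_ad.1 hx).1
    have e1 : (x : ℝ) - u ≠ 0 := by
      rw [sub_ne_zero]
      intro h
      have : x = u := by exact_mod_cast h
      exact hnu (this ▸ hxB)
    have e2 : (x : ℝ) - u' ≠ 0 := by
      rw [sub_ne_zero]
      intro h
      have : x = u' := by exact_mod_cast h
      exact hnu' (this ▸ hxB)
    field_simp
    ring
  rw [Finset.sum_congr rfl h1, ← Finset.mul_sum, Finset.sum_sub_distrib, wsum1 hC hk hu, he,
    wsum1 hC' hk hu', sub_zero, mul_zero]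

theorem wsum4 {C : Finset ℕ} {u : ℕ} (hu : u ∈ ad C) {y : ℕ} (hy : y ∈ (ad C).erase u) :
    w (mv C u) y * (1 - (((y : ℝ) - u)⁻¹) ^ 2) = w C y := by
  obtain ⟨hne, hy'⟩ := mem_erase.1 hy
  obtain ⟨hu1, hu2⟩ := mem_ad.1 hu
  rw [← w_step hu1 hu2 (mem_ad.1 hy').1 hne]
  congr 2
  rw [one_div, inv_pow]

end wsums

section fib

/-- the diagonal indicator of a fibre -/
theorem D1_apply {k : ℕ} (hk : k + 1 < N) (g h : Perm (Fin N))
    [Decidable (g = h ∧ Sn (k + 1) (s k hk * g))] :
    (U (s k hk) * Dg N (k + 1) * U (s k hk)) g h =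
      if g = h ∧ Sn (k + 1) (s k hk * g) then 1 else 0 := by
  classical
  rw [mul_U_apply, U_mul_apply, s_inv, Dg_apply]
  refine if_congr ?_ rfl rfl
  constructor
  · rintro ⟨h1, h2⟩
    exact ⟨mul_left_cancel h1, h2⟩
  · rintro ⟨h1, h2⟩
    exact ⟨by rw [h1], h2⟩

theorem D1_mul {k : ℕ} (hk : k + 1 < N) (T : Mat N) (g h : Perm (Fin N))
    [Decidable (Sn (k + 1) (s k hk * g))] :
    (U (s k hk) * Dg N (k + 1) * U (s k hk) * T) g h =
      if Sn (k + 1) (s k hk * g) then T g h else 0 := by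
  classical
  rw [Matrix.mul_apply, Finset.sum_eq_single g]
  · rw [D1_apply]
    by_cases hg : Sn (k + 1) (s k hk * g)
    · rw [if_pos ⟨rfl, hg⟩, one_mul, if_pos hg]
    · rw [if_neg (fun h => hg h.2), zero_mul, if_neg hg]
  · intro b _ hb
    rw [D1_apply, if_neg (fun h => hb h.1.symm), zero_mul]
  · intro h
    exact absurd (mem_univ _) h

theorem mul_D1 {k : ℕ} (hk : k + 1 < N) (T : Mat N) (g h : Perm (Fin N))
    [Decidable (Sn (k + 1) (s k hk * h))] :
    (T * (U (s k hk) * Dg N (k + 1) * U (s k hk))) g h =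
      if Sn (k + 1) (s k hk * h) then T g h else 0 := by
  classical
  rw [Matrix.mul_apply, Finset.sum_eq_single h]
  · rw [D1_apply]
    by_cases hg : Sn (k + 1) (s k hk * h)
    · rw [if_pos ⟨rfl, hg⟩, mul_one, if_pos hg]
    · rw [if_neg (fun h => hg h.2), mul_zero, if_neg hg]
  · intro b _ hb
    rw [D1_apply, if_neg, mul_zero]
    rintro ⟨h1, -⟩
    exact hb h1
  · intro h
    exact absurd (mem_univ _) h

/-- a real matrix with `Wᵀ W = 0` vanishes -/
theorem eq_zero_of_tmul {W : Mat N} (h : W.transpose * W = 0) : W = 0 := by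
  ext g x
  have h1 := congrFun (congrFun h x) x
  rw [Matrix.mul_apply] at h1
  have h2 : ∑ z, W z x * W z x = 0 := by
    refine Eq.trans (Finset.sum_congr rfl fun z _ => ?_) h1
    rw [Matrix.transpose_apply]
  have h3 := (Finset.sum_eq_zero_iff_of_nonneg (fun z _ => mul_self_nonneg (W z x))).1 h2 g
    (mem_univ _)
  exact mul_self_eq_zero.1 h3

/-- a projection whose fibre block is a projection vanishes off the fibres -/
theorem fib_zero {k : ℕ} (hk : k + 1 < N) {Z : Mat N} (hs : Z.transpose = Z) (hi : Z * Z = Z)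
    (hinv : ∀ a : Perm (Fin N), Sn (k + 1) a → ∀ g h, Z (a * g) (a * h) = Z g h)
    (hD : Dg N (k + 1) * Z = 0)
    (hb : Dg N (k + 1) * U (s k hk) * Z * U (s k hk) * Dg N (k + 1) *
      (Dg N (k + 1) * U (s k hk) * Z * U (s k hk) * Dg N (k + 1)) =
      Dg N (k + 1) * U (s k hk) * Z * U (s k hk) * Dg N (k + 1))
    {g h : Perm (Fin N)} (hh : Sn (k + 2) h)
    (hgh : g ⟨k + 1, hk⟩ ≠ h ⟨k + 1, hk⟩ ∨ h ⟨k + 1, hk⟩ = ⟨k + 1, hk⟩) :
    Z g h = 0 := by
  classical
  set p : Fin N := ⟨k + 1, hk⟩ with hp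
  set q : Fin N := ⟨k, by omega⟩ with hq
  set s' : Mat N := U (s k hk) with hs'
  set D := Dg N (k + 1) with hDdef
  have hss : s' * s' = 1 := U_s_sq k hk
  by_cases hhp : h p = p
  · -- h fixes the mark
    have hhS : Sn (k + 1) h := by
      intro z hz
      rcases eq_or_lt_of_le hz with h1 | h1
      · have : z = p := Fin.ext h1.symm
        rw [this, hhp]
      · exact hh z h1
    have h1 : (D * Z) h g = Z h g := by rw [hDdef, Dg_mul_apply, if_pos hhS]
    have h2 : Z g h = Z h g := by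
      have := congrFun (congrFun hs h) g
      rwa [Matrix.transpose_apply] at this
    rw [h2, ← h1, hD]
    rfl
  · have hne : g p ≠ h p := hgh.resolve_right hhp
    set D1 := s' * D * s' with hD1
    have hD11 : D1 * D1 = D1 := by
      calc D1 * D1 = s' * D * (s' * s') * D * s' := by rw [hD1]; noncomm_ring
        _ = s' * (D * D) * s' := by rw [hss]; noncomm_ring
        _ = D1 := by rw [hDdef, Dg_idem]
    have hD1t : D1.transpose = D1 := by
      rw [hD1, Matrix.transpose_mul, Matrix.transpose_mul, hs', U_transpose, s_inv, hDdef,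
        Dg_transpose, mul_assoc]
    have hblock : D1 * Z * D1 = s' * (D * s' * Z * s' * D) * s' := by
      rw [hD1]; noncomm_ring
    have hblock2 : D1 * Z * D1 * (D1 * Z * D1) = D1 * Z * D1 := by
      rw [hblock]
      calc s' * (D * s' * Z * s' * D) * s' * (s' * (D * s' * Z * s' * D) * s') =
          s' * (D * s' * Z * s' * D) * (s' * s') * (D * s' * Z * s' * D) * s' := by noncomm_ring
        _ = s' * (D * s' * Z * s' * D * (D * s' * Z * s' * D)) * s' := by
            rw [hss]; noncomm_ring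
        _ = _ := by rw [hb]
    clear_value D1
    have hW : (1 - D1) * Z * D1 = 0 := by
      refine eq_zero_of_tmul ?_
      rw [Matrix.transpose_mul, Matrix.transpose_mul, Matrix.transpose_sub, Matrix.transpose_one,
        hD1t, hs]
      have e1 : (1 - D1) * (1 - D1) = 1 - D1 := by
        calc (1 - D1) * (1 - D1) = 1 - D1 - D1 + D1 * D1 := by noncomm_ring
          _ = 1 - D1 := by rw [hD11]; abel
      calc D1 * (Z * (1 - D1)) * ((1 - D1) * Z * D1) =
          D1 * Z * ((1 - D1) * (1 - D1)) * Z * D1 := by noncomm_ring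
        _ = D1 * (Z * Z) * D1 - D1 * Z * D1 * Z * D1 := by rw [e1]; noncomm_ring
        _ = D1 * Z * D1 - D1 * Z * (D1 * D1) * Z * D1 := by rw [hi, hD11]
        _ = D1 * Z * D1 - D1 * Z * D1 * (D1 * Z * D1) := by noncomm_ring
        _ = 0 := by rw [hblock2, sub_self]
    -- move h to the fibre
    have hr : ((h p : Fin N) : ℕ) < k + 1 := by
      by_contra hcon
      rw [not_lt] at hcon
      rcases eq_or_lt_of_le hcon with h1 | h1
      · exact hhp (Fin.ext h1.symm)
      · have h2 : h (h p) = h p := hh _ h1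
        exact hhp (h.injective h2)
    set a : Perm (Fin N) := swap (h p) q with ha
    have haS : Sn (k + 1) a := swap_Sn hr (by simp [hq])
    have hah : (a * h) p = q := by rw [Perm.mul_apply, ha, swap_apply_left]
    have hsq : s k hk q = p := swap_apply_left _ _
    have hf : Sn (k + 1) (s k hk * (a * h)) := by
      intro z hz
      rcases eq_or_lt_of_le hz with h1 | h1
      · have : z = p := Fin.ext h1.symm
        rw [this, Perm.mul_apply, hah, hsq]
      · have h2 : (s k hk * (a * h)) z = s k hk (a (h z)) := rfl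
        rw [h2, hh z h1, haS z (by omega), s_Sn k hk z h1]
    have hnf : ¬ Sn (k + 1) (s k hk * (a * g)) := by
      intro h1
      have h2 := h1 p (by simp [hp])
      have h3 : (s k hk * (a * g)) p = s k hk (a (g p)) := rfl
      rw [h3] at h2
      have h4 : s k hk (a (g p)) = s k hk q := h2.trans hsq.symm
      have h5 : a (g p) = q := (s k hk).injective h4
      have h6 : a (h p) = q := hah
      exact hne (a.injective (h5.trans h6.symm))
    have h1 := congrFun (congrFun hW (a * g)) (a * h)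
    rw [hD1, mul_D1, if_pos hf, sub_mul, one_mul, Matrix.sub_apply, D1_mul, if_neg hnf,
      sub_zero] at h1
    rw [← hinv a haS g h, h1]
    rfl

end fib

end Pool.JM
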