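import Pool.Agent.Work.MP_46fa68_R.Kern

/-! # The idempotents of level `k` are central in the group algebra of `S_k` -/

set_option autoImplicit false

open Finset Equiv

namespace Pool.JM

variable {N : ℕ}

theorem P_s_P_k {M : ℕ} (hM : N < M) {k : ℕ} (hk : k ≤ N) {i : ℕ} (h : i + 1 < N)
    (hik : i + 1 < k) {B B' : Finset ℕ} (hB : B ∈ Lv M k)
    (hB' : B' ∈ Lv M k) (hne : B ≠ B') : P N M k B * U (s i h) * P N M k B' = 0 := by
  have hg := good (N := N) hM k hk
  have hc : B.card = B'.card := (Lv_spec hB).1.trans (Lv_spec hB').1.symm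
  obtain ⟨z, hz⟩ : ∃ z, F B z ≠ F B' z := by
    by_contra hcon
    push Not at hcon
    exact hne (F_inj hc hcon)
  set S : Mat N := U (s i h) with hS
  set Z : Mat N := Zn N M z k with hZ
  have hSZ : S * Z = Z * S := by
    have := s_Zn (N := N) M z h (k - (i + 2)) (by omega)
    rwa [show i + 2 + (k - (i + 2)) = k by omega] at this
  have h1 : F (range M) z • (Z * P N M k B') = F B' z • P N M k B' := Zn_P hM z k hk B'
  have h2 : F (range M) z • (P N M k B * Z) = F B z • P N M k B := by
    have := congrArg Matrix.transpose (Zn_P hM z k hk B)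
    rwa [Matrix.transpose_smul, Matrix.transpose_smul, Matrix.transpose_mul, hg.symm,
      Zn_symm M z k hk] at this
  have h3 : F (range M) z • (P N M k B * Z * S * P N M k B') =
      F B z • (P N M k B * S * P N M k B') := by
    rw [mul_assoc (P N M k B * Z), ← Matrix.smul_mul, h2, Matrix.smul_mul, mul_assoc]
  have h4 : F (range M) z • (P N M k B * Z * S * P N M k B') =
      F B' z • (P N M k B * S * P N M k B') := by
    rw [mul_assoc (P N M k B) Z, ← hSZ, ← mul_assoc (P N M k B), mul_assoc (P N M k B * S),
      ← Matrix.mul_smul, h1, Matrix.mul_smul]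
  have h5 : (F B z - F B' z) • (P N M k B * S * P N M k B') = 0 := by
    rw [sub_smul, ← h3, ← h4, sub_self]
  exact (smul_eq_zero.1 h5).resolve_left (sub_ne_zero.2 hz)

theorem P_s_k {M : ℕ} (hM : N < M) {k : ℕ} (hk : k ≤ N) {i : ℕ} (h : i + 1 < N)
    (hik : i + 1 < k) {B : Finset ℕ} (hB : B ∈ Lv M k) :
    U (s i h) * P N M k B = P N M k B * U (s i h) := by
  have hg := good (N := N) hM k hk
  have h1 : U (s i h) * P N M k B = P N M k B * U (s i h) * P N M k B := by
    calc U (s i h) * P N M k B = (∑ C ∈ Lv M k, P N M k C) * (U (s i h) * P N M k B) := by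
          rw [hg.tot, one_mul]
      _ = _ := by
          rw [Finset.sum_mul, Finset.sum_eq_single B]
          · rw [mul_assoc]
          · intro C hC hne
            rw [← mul_assoc, P_s_P_k hM hk h hik hC hB hne]
          · intro hh
            exact absurd hB hh
  have h2 : P N M k B * U (s i h) = P N M k B * U (s i h) * P N M k B := by
    calc P N M k B * U (s i h) = P N M k B * U (s i h) * (∑ C ∈ Lv M k, P N M k C) := by
          rw [hg.tot, mul_one]
      _ = _ := by
          rw [Finset.mul_sum, Finset.sum_eq_single B]
          · intro C hC hne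
            rw [P_s_P_k hM hk h hik hB hC (Ne.symm hne)]
          · intro hh
            exact absurd hB hh
  rw [h1, ← h2]

/-- commuting with the adjacent transpositions of `S_k` implies commuting with `S_k` -/
theorem central_k {T : Mat N} {k : ℕ} (hk : k ≤ N)
    (hT : ∀ (i : ℕ) (h : i + 1 < N), i + 1 < k → U (s i h) * T = T * U (s i h))
    (σ : Perm (Fin N)) (hσ : Sn k σ) : U σ * T = T * U σ := by
  have hmul : ∀ a b : Perm (Fin N), U a * T = T * U a → U b * T = T * U b →
      U (a * b) * T = T * U (a * b) := by
    intro a b ha hb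
    rw [← U_mul, mul_assoc, hb, ← mul_assoc, ha, mul_assoc]
  have hone : U (1 : Perm (Fin N)) * T = T * U (1 : Perm (Fin N)) := by
    rw [U_one, one_mul, mul_one]
  -- transpositions
  have hsw : ∀ (d i : ℕ) (h : i + d < N), i + d < k →
      U (swap (⟨i, by omega⟩ : Fin N) ⟨i + d, h⟩) * T =
        T * U (swap (⟨i, by omega⟩ : Fin N) ⟨i + d, h⟩) := by
    intro d
    induction d with
    | zero =>
      intro i h _
      have e : swap (⟨i, by omega⟩ : Fin N) ⟨i + 0, h⟩ = 1 := by
        have : (⟨i + 0, h⟩ : Fin N) = ⟨i, by omega⟩ := rfl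
        rw [this, swap_self]
        rfl
      rw [e]
      exact hone
    | succ d ih =>
      intro i h hk'
      rcases Nat.eq_zero_or_pos d with hd | hd
      · subst hd
        exact hT i h hk'
      · have e : swap (⟨i, by omega⟩ : Fin N) ⟨i + (d + 1), h⟩ =
            s (i + d) (by omega) * (swap (⟨i, by omega⟩ : Fin N) ⟨i + d, by omega⟩ *
              s (i + d) (by omega)) := by
          have h1 := Equiv.swap_apply_apply (s (N := N) (i + d) (by omega))
            (⟨i, by omega⟩ : Fin N) ⟨i + d, by omega⟩
          have h2 : s (N := N) (i + d) (by omega) (⟨i, by omega⟩ : Fin N) = ⟨i, by omega⟩ := by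
            unfold s
            refine swap_apply_of_ne_of_ne ?_ ?_
            · intro hh
              have := congrArg Fin.val hh
              simp only at this
              omega
            · intro hh
              have := congrArg Fin.val hh
              simp only at this
              omega
          have h3 : s (N := N) (i + d) (by omega) (⟨i + d, by omega⟩ : Fin N) =
              ⟨i + (d + 1), h⟩ := by
            unfold s
            rw [swap_apply_left]
            rfl
          rw [h2, h3, s_inv] at h1
          rw [h1, mul_assoc]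
        rw [e]
        exact hmul _ _ (hT (i + d) (by omega) (by omega))
          (hmul _ _ (ih i (by omega) (by omega)) (hT (i + d) (by omega) (by omega)))
  have hsw' : ∀ i j : Fin N, (i : ℕ) < k → (j : ℕ) < k → U (swap i j) * T = T * U (swap i j) := by
    intro i j hi hj
    rcases le_total (i : ℕ) (j : ℕ) with hij | hij
    · have h := hsw ((j : ℕ) - i) i (by omega) (by omega)
      have e : (⟨(i : ℕ) + ((j : ℕ) - i), by omega⟩ : Fin N) = j := Fin.ext (by simp; omega)
      rw [e] at h
      exact h
    · have h := hsw ((i : ℕ) - j) j (by omega) (by omega)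
      have e : (⟨(j : ℕ) + ((i : ℕ) - j), by omega⟩ : Fin N) = i := Fin.ext (by simp; omega)
      rw [e] at h
      rw [swap_comm]
      exact h
  -- all permutations
  have hall : ∀ j, j ≤ k → ∀ σ : Perm (Fin N), Sn j σ → U σ * T = T * U σ := by
    intro j
    induction j with
    | zero =>
      intro _ σ hσ
      have : σ = 1 := by
        ext i
        rw [hσ i (Nat.zero_le _)]
        rfl
      rw [this]
      exact hone
    | succ j ih =>
      intro hj σ hσ
      set p : Fin N := ⟨j, by omega⟩ with hp
      have hlt : ((σ p : Fin N) : ℕ) < j + 1 := Sn_lt hσ (by simp [hp])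
      have e : σ = swap p (σ p) * (swap p (σ p) * σ) := by
        rw [← mul_assoc, swap_mul_self, one_mul]
      rw [e]
      refine hmul _ _ (hsw' _ _ (by simp [hp]; omega) (by omega)) (ih (by omega) _ ?_)
      intro i hi
      rcases eq_or_lt_of_le hi with h1 | h1
      · have h2 : i = p := Fin.ext h1.symm
        rw [h2, Perm.mul_apply, swap_apply_right]
      · have h2 : σ i = i := hσ i h1
        rw [Perm.mul_apply, h2]
        refine swap_apply_of_ne_of_ne ?_ ?_
        · intro hh
          rw [hh] at h1
          simp [hp] at h1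
        · intro hh
          have := congrArg Fin.val hh
          omega
  exact hall k le_rfl σ hσ

theorem P_cent_k {M : ℕ} (hM : N < M) {k : ℕ} (hk : k ≤ N) {B : Finset ℕ} (hB : B ∈ Lv M k)
    (σ : Perm (Fin N)) (hσ : Sn k σ) : U σ * P N M k B = P N M k B * U σ :=
  central_k hk (fun _ h hik => P_s_k hM hk h hik hB) σ hσ

end Pool.JM
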