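import Pool.Agent.Work.MP_46fa68_95.MarkVal

/-! # Restriction of marked kernels to permutations with common cells off the mark -/

set_option autoImplicit false

open Finset Equiv

namespace Pool.JM

variable {N : ℕ}

/-- invariance under `S_k` from both sides -/
def Inv2 (k : ℕ) (K : Mat N) : Prop :=
  ∀ a b : Perm (Fin N), Sn k a → Sn k b → ∀ g h, K (a * g * b) (a * h * b) = K g h

/-- the number of common cells off the row and column of the mark `k` -/
def cc (k : ℕ) (σ τ : Perm (Fin N)) : ℕ :=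
  (univ.filter fun i : Fin N => (i : ℕ) < k ∧ σ i = τ i ∧ ((σ i : Fin N) : ℕ) < k).card

theorem Sn_lt' {k : ℕ} {a : Perm (Fin N)} (ha : Sn k a) {i : Fin N} (hi : (i : ℕ) < k) :
    ((a i : Fin N) : ℕ) < k := by
  by_contra hcon
  have h1 : a (a i) = a i := ha (a i) (by omega)
  have h2 : a i = i := a.injective h1
  rw [h2] at hcon
  exact hcon hi

theorem Sn_lt_iff {k : ℕ} {a : Perm (Fin N)} (ha : Sn k a) {i : Fin N} :
    ((a i : Fin N) : ℕ) < k ↔ (i : ℕ) < k := by
  constructor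
  · intro h
    have := Sn_lt' (Sn_inv ha) h
    rwa [show a⁻¹ (a i) = i from a.symm_apply_apply i] at this
  · exact Sn_lt' ha

theorem cc_conj {k : ℕ} {a b : Perm (Fin N)} (ha : Sn k a) (hb : Sn k b) (σ τ : Perm (Fin N)) :
    cc k (a * σ * b) (a * τ * b) = cc k σ τ := by
  unfold cc
  refine Finset.card_bij (fun i _ => b i) ?_ ?_ ?_
  · intro i hi
    obtain ⟨-, h1, h2, h3⟩ := mem_filter.1 hi
    refine mem_filter.2 ⟨mem_univ _, Sn_lt' hb h1, ?_, ?_⟩
    · rw [Perm.mul_apply, Perm.mul_apply, Perm.mul_apply, Perm.mul_apply] at h2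
      exact a.injective h2
    · rw [Perm.mul_apply, Perm.mul_apply] at h3
      exact (Sn_lt_iff ha).1 h3
  · intro x _ y _ hxy
    exact b.injective hxy
  · intro j hj
    obtain ⟨-, h1, h2, h3⟩ := mem_filter.1 hj
    refine ⟨b⁻¹ j, mem_filter.2 ⟨mem_univ _, Sn_lt' (Sn_inv hb) h1, ?_, ?_⟩, b.apply_symm_apply j⟩
    · simp only [Perm.mul_apply]
      rw [show b (b⁻¹ j) = j from b.apply_symm_apply j, h2]
    · simp only [Perm.mul_apply]
      rw [show b (b⁻¹ j) = j from b.apply_symm_apply j]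
      exact Sn_lt' ha h3

/-- one step: use one common cell off the mark -/
theorem chain_step {k : ℕ} (hk : k + 1 < N) {K K' : Mat N} {η : ℝ} (hinv : Inv2 (k + 1) K)
    (hres : ∀ g h, Sn (k + 1) g → Sn (k + 1) h →
      K (s k hk * g * s k hk) (s k hk * h * s k hk) ≤ K' g h + η)
    {σ τ : Perm (Fin N)} (hσ : Sn (k + 2) σ) (hτ : Sn (k + 2) τ) (hc : 1 ≤ cc (k + 1) σ τ) :
    ∃ g h : Perm (Fin N), Sn (k + 1) g ∧ Sn (k + 1) h ∧ K σ τ ≤ K' g h + η ∧
      (Sn (k + 1) σ ↔ Sn k g) ∧ (Sn (k + 1) τ ↔ Sn k h) ∧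
      (σ ⟨k + 1, hk⟩ = τ ⟨k + 1, hk⟩ ↔ g ⟨k, by omega⟩ = h ⟨k, by omega⟩) ∧
      (σ⁻¹ ⟨k + 1, hk⟩ = τ⁻¹ ⟨k + 1, hk⟩ ↔ g⁻¹ ⟨k, by omega⟩ = h⁻¹ ⟨k, by omega⟩) ∧
      (σ = τ ↔ g = h) ∧ cc (k + 1) σ τ = cc k g h + 1 := by
  classical
  set p : Fin N := ⟨k + 1, hk⟩ with hp
  set q : Fin N := ⟨k, by omega⟩ with hq
  obtain ⟨i, hi⟩ := card_pos.1 hc
  obtain ⟨-, hi1, hi2, hi3⟩ := mem_filter.1 hi
  set a : Perm (Fin N) := swap (σ i) q with ha
  set b : Perm (Fin N) := swap i q with hb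
  have haS : Sn (k + 1) a := swap_Sn hi3 (by simp [hq])
  have hbS : Sn (k + 1) b := swap_Sn hi1 (by simp [hq])
  set σ1 := a * σ * b with hσ1
  set τ1 := a * τ * b with hτ1
  have hσ1q : σ1 q = q := by
    rw [hσ1, Perm.mul_apply, Perm.mul_apply, hb, swap_apply_right, ha, swap_apply_left]
  have hτ1q : τ1 q = q := by
    rw [hτ1, Perm.mul_apply, Perm.mul_apply, hb, swap_apply_right, ← hi2, ha, swap_apply_left]
  have hσ1S : Sn (k + 2) σ1 :=
    Sn_mul (Sn_mul (Sn_mono (by omega) haS) hσ) (Sn_mono (by omega) hbS)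
  have hτ1S : Sn (k + 2) τ1 :=
    Sn_mul (Sn_mul (Sn_mono (by omega) haS) hτ) (Sn_mono (by omega) hbS)
  have hap : a p = p := haS p (by simp [hp])
  have hbp : b p = p := hbS p (by simp [hp])
  have haip : a⁻¹ p = p := (Sn_inv haS) p (by simp [hp])
  have hbip : b⁻¹ p = p := (Sn_inv hbS) p (by simp [hp])
  set s' : Perm (Fin N) := s k hk with hs'
  have hs1 : s' q = p := by
    rw [hs']
    exact swap_apply_left _ _
  have hs2 : s' p = q := by
    rw [hs']
    exact swap_apply_right _ _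
  have hsS : Sn (k + 2) s' := s_Sn k hk
  have hss : s' * s' = 1 := s_mul k hk
  have hssa : ∀ z, s' (s' z) = z := by
    intro z
    rw [← Perm.mul_apply, hss, Perm.one_apply]
  have hs3 : ∀ z : Fin N, (z : ℕ) < k → s' z = z := by
    intro z hz
    rw [hs']
    refine swap_apply_of_ne_of_ne ?_ ?_
    · intro h
      have := congrArg (fun w : Fin N => (w : ℕ)) h
      simp only at this
      omega
    · intro h
      have := congrArg (fun w : Fin N => (w : ℕ)) h
      simp only at this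
      omega
  have conj_S : ∀ ρ : Perm (Fin N), Sn (k + 2) ρ → ρ q = q → Sn (k + 1) (s' * ρ * s') := by
    intro ρ hρ hρq z hz
    rcases eq_or_lt_of_le hz with h1 | h1
    · have : z = p := Fin.ext h1.symm
      rw [this, Perm.mul_apply, Perm.mul_apply, hs2, hρq, hs1]
    · rw [Perm.mul_apply, Perm.mul_apply, hsS z h1, hρ z h1, hsS z h1]
  have conj_f : ∀ ρ : Perm (Fin N), Sn (k + 2) ρ → ρ q = q →
      (Sn (k + 1) ρ ↔ Sn k (s' * ρ * s')) := by
    intro ρ hρ hρq
    constructor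
    · intro h z hz
      rcases eq_or_lt_of_le hz with h1 | h1
      · have : z = q := Fin.ext h1.symm
        rw [this, Perm.mul_apply, Perm.mul_apply, hs1, h p (by simp [hp]), hs2]
      · exact conj_S ρ hρ hρq z h1
    · intro h z hz
      rcases eq_or_lt_of_le hz with h1 | h1
      · have : z = p := Fin.ext h1.symm
        have h2 := h q (by simp [hq])
        rw [Perm.mul_apply, Perm.mul_apply, hs1] at h2
        have h3 := congrArg s' h2
        rw [hssa, hs1] at h3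
        rw [this, h3]
      · exact hρ z h1
  have mul_S : ∀ ρ : Perm (Fin N), Sn (k + 1) (a * ρ * b) ↔ Sn (k + 1) ρ := by
    intro ρ
    constructor
    · intro h
      have : ρ = a⁻¹ * (a * ρ * b) * b⁻¹ := by group
      rw [this]
      exact Sn_mul (Sn_mul (Sn_inv haS) h) (Sn_inv hbS)
    · intro h
      exact Sn_mul (Sn_mul haS h) hbS
  refine ⟨s' * σ1 * s', s' * τ1 * s', conj_S _ hσ1S hσ1q, conj_S _ hτ1S hτ1q, ?_, ?_, ?_, ?_,
    ?_, ?_, ?_⟩
  · have e1 := hres (s' * σ1 * s') (s' * τ1 * s') (conj_S _ hσ1S hσ1q) (conj_S _ hτ1S hτ1q)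
    have e2 : ∀ ρ : Perm (Fin N), s' * (s' * ρ * s') * s' = ρ := by
      intro ρ
      calc s' * (s' * ρ * s') * s' = (s' * s') * ρ * (s' * s') := by group
        _ = ρ := by rw [hss, one_mul, mul_one]
    rw [e2, e2] at e1
    rw [← hinv a b haS hbS σ τ]
    exact e1
  · rw [← conj_f _ hσ1S hσ1q, hσ1, mul_S]
  · rw [← conj_f _ hτ1S hτ1q, hτ1, mul_S]
  · change _ ↔ s' (a (σ (b (s' q)))) = s' (a (τ (b (s' q))))
    rw [hs1, s'.injective.eq_iff, hbp, a.injective.eq_iff]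
  · have hsi : s'⁻¹ = s' := s_inv k hk
    have e : ∀ ρ : Perm (Fin N), (s' * (a * ρ * b) * s')⁻¹ q = s' (b⁻¹ (ρ⁻¹ p)) := by
      intro ρ
      rw [mul_inv_rev, mul_inv_rev, mul_inv_rev, mul_inv_rev, hsi]
      change s' (b⁻¹ (ρ⁻¹ (a⁻¹ (s' q)))) = _
      rw [hs1, haip]
    rw [hσ1, hτ1, e, e, s'.injective.eq_iff, (b⁻¹).injective.eq_iff]
  · constructor
    · rintro rfl
      rfl
    · intro h
      have h1 : σ1 = τ1 := mul_left_cancel (mul_right_cancel h)
      exact mul_left_cancel (mul_right_cancel h1)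
  · rw [← cc_conj haS hbS σ τ, ← hσ1, ← hτ1]
    unfold cc
    have hset : (univ.filter fun i : Fin N => (i : ℕ) < k + 1 ∧ σ1 i = τ1 i ∧
        ((σ1 i : Fin N) : ℕ) < k + 1) = insert q (univ.filter fun i : Fin N => (i : ℕ) < k ∧
        (s' * σ1 * s') i = (s' * τ1 * s') i ∧ (((s' * σ1 * s') i : Fin N) : ℕ) < k) := by
      ext z
      rw [mem_filter, mem_insert, mem_filter]
      constructor
      · rintro ⟨-, h1, h2, h3⟩
        rcases eq_or_lt_of_le (Nat.lt_succ_iff.1 h1) with h4 | h4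
        · left
          exact Fin.ext h4
        · right
          have h5 : ((σ1 z : Fin N) : ℕ) < k := by
            rcases eq_or_lt_of_le (Nat.lt_succ_iff.1 h3) with h6 | h6
            · exfalso
              have h7 : σ1 z = q := Fin.ext h6
              have h8 : z = q := σ1.injective (h7.trans hσ1q.symm)
              rw [h8] at h4
              simp [hq] at h4
            · exact h6
          refine ⟨mem_univ _, h4, ?_, ?_⟩
          · change s' (σ1 (s' z)) = s' (τ1 (s' z))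
            rw [hs3 z h4, h2]
          · change ((s' (σ1 (s' z)) : Fin N) : ℕ) < k
            rw [hs3 z h4, hs3 _ h5]
            exact h5
      · rintro (h | ⟨-, h1, h2, h3⟩)
        · rw [h]
          exact ⟨mem_univ _, by simp [hq], by rw [hσ1q, hτ1q], by rw [hσ1q]; simp [hq]⟩
        · have h2' : s' (σ1 (s' z)) = s' (τ1 (s' z)) := h2
          have h2 := s'.injective h2'
          rw [hs3 z h1] at h2
          change ((s' (σ1 (s' z)) : Fin N) : ℕ) < k at h3
          rw [hs3 z h1] at h3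
          refine ⟨mem_univ _, by omega, h2, ?_⟩
          have h4 := hs3 _ h3
          rw [hssa] at h4
          rw [h4]
          omega
    rw [hset, card_insert_of_notMem]
    intro h
    have := (mem_filter.1 h).2.1
    simp [hq] at this

/-- the chain down to level `j` -/
theorem cc_chain {j : ℕ} (K : ℕ → Mat N) (η : ℕ → ℝ) :
    ∀ d : ℕ, ∀ (hk : j + d < N), (∀ k, j < k → k ≤ j + d → Inv2 k (K k)) →
    (∀ k, j ≤ k → ∀ hk' : k < j + d, ∀ g h, Sn (k + 1) g → Sn (k + 1) h →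
      K (k + 1) (s k (by omega) * g * s k (by omega)) (s k (by omega) * h * s k (by omega)) ≤
        K k g h + η k) →
    ∀ σ τ : Perm (Fin N), Sn (j + d + 1) σ → Sn (j + d + 1) τ → d ≤ cc (j + d) σ τ →
    ∃ g h : Perm (Fin N), Sn (j + 1) g ∧ Sn (j + 1) h ∧
      K (j + d) σ τ ≤ K j g h + ∑ i ∈ Ico j (j + d), η i ∧
      (Sn (j + d) σ ↔ Sn j g) ∧ (Sn (j + d) τ ↔ Sn j h) ∧
      (σ ⟨j + d, hk⟩ = τ ⟨j + d, hk⟩ ↔ g ⟨j, by omega⟩ = h ⟨j, by omega⟩) ∧
      (σ⁻¹ ⟨j + d, hk⟩ = τ⁻¹ ⟨j + d, hk⟩ ↔ g⁻¹ ⟨j, by omega⟩ = h⁻¹ ⟨j, by omega⟩) ∧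
      (σ = τ ↔ g = h) := by
  intro d
  induction d with
  | zero =>
    intro hk _ _ σ τ hσ hτ _
    refine ⟨σ, τ, hσ, hτ, ?_, Iff.rfl, Iff.rfl, Iff.rfl, Iff.rfl, Iff.rfl⟩
    simp
  | succ d ih =>
    intro hk hinv hres σ τ hσ hτ hc
    have hc' : d + 1 ≤ cc (j + d + 1) σ τ := hc
    obtain ⟨g, h, h1, h2, h3, h4, h5, h6, h7, h8, h9⟩ := chain_step (k := j + d) (K := K (j + d + 1))
      (K' := K (j + d)) (η := η (j + d)) (by omega) (hinv _ (by omega) (by omega))
      (hres (j + d) (by omega) (by omega)) hσ hτ (by omega)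
    have hcd : d ≤ cc (j + d) g h := by
      have : cc (j + (d + 1)) σ τ = cc (j + d + 1) σ τ := rfl
      omega
    obtain ⟨g', h', a1, a2, a3, a4, a5, a6, a7, a8⟩ := ih (by omega)
      (fun k b1 b2 => hinv k b1 (by omega)) (fun k b1 b2 => hres k b1 (by omega)) g h h1 h2 hcd
    refine ⟨g', h', a1, a2, ?_, h4.trans a4, h5.trans a5, h6.trans a6, h7.trans a7, h8.trans a8⟩
    have e : ∑ i ∈ Ico j (j + (d + 1)), η i = ∑ i ∈ Ico j (j + d), η i + η (j + d) := by
      rw [← add_assoc, Finset.sum_Ico_succ_top (by omega)]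
    rw [e]
    have e2 : K (j + (d + 1)) σ τ = K (j + d + 1) σ τ := rfl
    linarith

end Pool.JM
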