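import Pool.Agent.Work.MP_46fa68_95.Block
import Pool.Agent.Work.MP_46fa68_28.Joint

/-! # The cell bound from a flagged certificate

As `joint_cell` (helper28), with three more class functions of `S_n`: the cross kernel is
`ph (g) + f4 (g with the marked point removed from its cycle)`, the kernel on the pairs off the cell is
`f0 (g) + [same row of the marked column] f1 + [same column of the marked row] f2`. -/

set_option autoImplicit false

open Finset Equiv

namespace Pool.JM

section ops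

variable {n M : ℕ}

/-- sum over the pairs = class function of the whole group -/
theorem sum_mv (ph : Finset ℕ → ℝ) :
    ∑ q ∈ Pr M n, ph (mv q.1 q.2) • Pc (n + 1) M n q.1 q.2 = G (n + 1) M ph (n + 1) := by
  unfold G
  have h1 : ∀ B ∈ Lv M (n + 1), ph B • P (n + 1) M (n + 1) B =
      ∑ q ∈ Pr M n, if mv q.1 q.2 = B then ph (mv q.1 q.2) • Pc (n + 1) M n q.1 q.2 else 0 := by
    intro B _
    rw [P_succ, Finset.smul_sum]
    refine Finset.sum_congr rfl fun q _ => ?_
    split_ifs with h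
    · rw [h]
    · rw [smul_zero]
  rw [Finset.sum_congr rfl h1, Finset.sum_comm]
  refine Finset.sum_congr rfl fun q hq => ?_
  obtain ⟨hq1, hq2⟩ := mem_Pr.1 hq
  rw [Finset.sum_ite_eq, if_pos (mv_mem hq1 hq2)]

/-- sum over the pairs of a function of the lower shape -/
theorem sum_lo (hM : n + 1 < M) (f : Finset ℕ → ℝ) :
    ∑ q ∈ Pr M n, f q.1 • Pc (n + 1) M n q.1 q.2 = G (n + 1) M f n := by
  unfold Pr G
  rw [Finset.sum_sigma]
  refine Finset.sum_congr rfl fun C hC => ?_
  simp only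
  rw [← Finset.smul_sum, pc_sum hC (by omega)]

theorem sum_lo_x (hM : n + 1 < M) (f : Finset ℕ → ℝ) :
    ∑ q ∈ Pr M n, (f q.1 * (q.2 : ℝ)) • Pc (n + 1) M n q.1 q.2 =
      G (n + 1) M f n * X ((M : ℝ) - 1) n := by
  have hg := good (N := n + 1) hM n (by omega)
  rw [← sum_lo hM, Finset.sum_mul]
  refine Finset.sum_congr rfl fun q hq => ?_
  obtain ⟨hq1, hq2⟩ := mem_Pr.1 hq
  have h1 := congrArg Matrix.transpose (hg.eig (by omega) hq1 hq2)
  rw [Matrix.transpose_mul, Matrix.transpose_smul, hg.pc_symm (by omega), X_symm] at h1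
  rw [Matrix.smul_mul, h1, smul_smul]

theorem X_zero (c : ℝ) (n : ℕ) : (X c n : Mat (n + 1)) = c • 1 + X 0 n := by
  unfold X
  rw [zero_smul, zero_add]

/-- the flagged cross operator -/
theorem XY_flag (hM : n + 1 < M) (ph f : Finset ℕ → ℝ) :
    XY M n (fun C x => ph (mv C x) + f C * ((x : ℝ) - ((M : ℝ) - 1))) =
      G (n + 1) M ph (n + 1) + G (n + 1) M f n * X 0 n := by
  unfold XY
  have h1 : ∀ q ∈ Pr M n, (ph (mv q.1 q.2) + f q.1 * ((q.2 : ℝ) - ((M : ℝ) - 1))) •
      Pc (n + 1) M n q.1 q.2 = ph (mv q.1 q.2) • Pc (n + 1) M n q.1 q.2 +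
        ((f q.1 * (q.2 : ℝ)) • Pc (n + 1) M n q.1 q.2 -
          ((M : ℝ) - 1) • (f q.1 • Pc (n + 1) M n q.1 q.2)) := by
    intro q _
    rw [smul_smul, ← sub_smul, ← add_smul]
    congr 1
    ring
  rw [Finset.sum_congr rfl h1, Finset.sum_add_distrib, Finset.sum_sub_distrib, sum_mv,
    sum_lo_x hM, ← Finset.smul_sum, sum_lo hM, X_zero ((M : ℝ) - 1) n, mul_add,
    Matrix.mul_smul, mul_one, add_sub_cancel_left]

/-- the flagged operator for the pairs off the cell -/
theorem YY_flag (hM : n + 1 < M) (f0 f1 f2 : Finset ℕ → ℝ) :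
    YY95 M n (fun B C C' => f0 B + f1 C + f2 C') =
      G (n + 1) M f0 (n + 1) + G (n + 1) M f1 n + rv (G (n + 1) M f2 n) := by
  have hg := good (N := n + 1) hM n (by omega)
  have hr : ∑ C' ∈ Lv M n, rv (P (n + 1) M n C') = 1 := by
    rw [← rv_sum, hg.tot, rv_one]
  have hr2 : ∑ C' ∈ Lv M n, f2 C' • rv (P (n + 1) M n C') = rv (G (n + 1) M f2 n) := by
    unfold G
    rw [rv_sum]
    refine Finset.sum_congr rfl fun C _ => ?_
    rw [rv_smul]
  have hp : ∑ q ∈ Pr M n, Pc (n + 1) M n q.1 q.2 = 1 := by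
    have h := sum_lo (n := n) hM (fun _ => (1 : ℝ))
    simp only [one_smul] at h
    rw [h]
    unfold G
    rw [← hg.tot]
    refine Finset.sum_congr rfl fun C _ => ?_
    rw [one_smul]
  unfold YY95
  have h1 : ∀ q ∈ Pr M n, (∑ C' ∈ Lv M n, (f0 (mv q.1 q.2) + f1 q.1 + f2 C') •
      (Pc (n + 1) M n q.1 q.2 * rv (P (n + 1) M n C'))) =
      f0 (mv q.1 q.2) • Pc (n + 1) M n q.1 q.2 + f1 q.1 • Pc (n + 1) M n q.1 q.2 +
        Pc (n + 1) M n q.1 q.2 * rv (G (n + 1) M f2 n) := by
    intro q _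
    have h2 : ∀ C' ∈ Lv M n, (f0 (mv q.1 q.2) + f1 q.1 + f2 C') •
        (Pc (n + 1) M n q.1 q.2 * rv (P (n + 1) M n C')) =
        (f0 (mv q.1 q.2) + f1 q.1) • (Pc (n + 1) M n q.1 q.2 * rv (P (n + 1) M n C')) +
          Pc (n + 1) M n q.1 q.2 * (f2 C' • rv (P (n + 1) M n C')) := by
      intro C' _
      rw [Matrix.mul_smul, ← add_smul]
    rw [Finset.sum_congr rfl h2, Finset.sum_add_distrib, ← Finset.smul_sum, ← Finset.mul_sum,
      ← Finset.mul_sum, hr, hr2, mul_one, add_smul]
  rw [Finset.sum_congr rfl h1, Finset.sum_add_distrib, Finset.sum_add_distrib, sum_mv, sum_lo hM,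
    ← Finset.sum_mul, hp, one_mul]

end ops

section vals

variable {n m M : ℕ}

theorem inv_count {N : ℕ} (σ τ : Perm (Fin N)) :
    (univ.filter fun i => σ⁻¹ i = τ⁻¹ i).card = (univ.filter fun i => σ i = τ i).card := by
  refine (Finset.card_bij (fun i _ => σ i) ?_ ?_ ?_).symm
  · intro i hi
    have hi' : σ i = τ i := (mem_filter.1 hi).2
    refine mem_filter.2 ⟨mem_univ _, ?_⟩
    rw [show σ⁻¹ (σ i) = i from σ.symm_apply_apply i, hi', show τ⁻¹ (τ i) = i from
      τ.symm_apply_apply i]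
  · intro a _ b _ hab
    exact σ.injective hab
  · intro b hb
    have hb' : σ⁻¹ b = τ⁻¹ b := (mem_filter.1 hb).2
    refine ⟨σ⁻¹ b, mem_filter.2 ⟨mem_univ _, ?_⟩, σ.apply_symm_apply b⟩
    rw [show σ (σ⁻¹ b) = b from σ.apply_symm_apply b, hb', show τ (τ⁻¹ b) = b from
      τ.apply_symm_apply b]

/-- the cross kernel with the Jucys-Murphy element -/
theorem cross_val (hM : n + 1 < M) (f : Finset ℕ → ℝ) {σ τ : Perm (Fin (n + 1))}
    (hσ : Sn n σ) (hτ : ¬ Sn n τ) :
    (G (n + 1) M f n * X 0 n : Mat (n + 1)) σ τ =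
      G (n + 1) M f n σ (swap (τ (Fin.last n)) (Fin.last n) * τ) := by
  have hbd : Bd n (G (n + 1) M f n) :=
    (Al.sum _ _ fun B _ => ((good (N := n + 1) hM n (by omega)).al B).smul _).1
  have hne : τ (Fin.last n) ≠ Fin.last n := fun h => hτ (Sn_last95.2 h)
  have hlt : ((τ (Fin.last n) : Fin (n + 1)) : ℕ) < n := by
    have h1 := (τ (Fin.last n)).2
    have h2 : ((τ (Fin.last n) : Fin (n + 1)) : ℕ) ≠ n := fun h => hne (Fin.ext h)
    omega
  have hX : (X 0 n : Mat (n + 1)) = ∑ i : Fin (n + 1),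
      if (i : ℕ) < n then U (swap i (Fin.last n)) else 0 := by
    rw [X_eq 0 (by omega : n < n + 1), zero_smul, zero_add]
    rfl
  rw [hX, Finset.mul_sum, Matrix.sum_apply, Finset.sum_eq_single (τ (Fin.last n))]
  · rw [if_pos hlt, mul_U_apply]
  · intro i _ hi
    split_ifs with h
    · rw [mul_U_apply]
      refine hbd _ _ fun h' => ?_
      rw [Sn_mul_iff hσ] at h'
      have h2 := Sn_inv h'
      rw [inv_inv] at h2
      have h3 := Sn_last95.1 h2
      rw [Perm.mul_apply] at h3
      apply hi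
      have h4 := congrArg (swap i (Fin.last n)) h3
      rw [swap_apply_self, swap_apply_right] at h4
      exact h4.symm
    · rw [mul_zero]
      rfl
  · intro h
    exact absurd (mem_univ _) h

theorem cross_Sn {τ : Perm (Fin (n + 1))} :
    Sn n (swap (τ (Fin.last n)) (Fin.last n) * τ) := by
  rw [Sn_last95, Perm.mul_apply, swap_apply_left]

theorem cross_agree {σ τ : Perm (Fin (n + 1))} (hσ : Sn n σ) (hτ : ¬ Sn n τ) :
    (univ.filter fun i => σ i = τ i).card + 1 ≤
      (univ.filter fun i => σ i = (swap (τ (Fin.last n)) (Fin.last n) * τ) i).card := by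
  have hne : τ (Fin.last n) ≠ Fin.last n := fun h => hτ (Sn_last95.2 h)
  have hσl := Sn_last95.1 hσ
  have hnot : Fin.last n ∉ (univ.filter fun i => σ i = τ i) := by
    intro h
    have := (mem_filter.1 h).2
    rw [hσl] at this
    exact hne this.symm
  rw [← card_insert_of_notMem hnot]
  refine card_le_card fun i hi => ?_
  refine mem_filter.2 ⟨mem_univ _, ?_⟩
  rcases mem_insert.1 hi with rfl | h
  · rw [Perm.mul_apply, swap_apply_left, hσl]
  · have h1 := (mem_filter.1 h).2
    have h2 : i ≠ Fin.last n := fun h' => hnot (h' ▸ h)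
    rw [Perm.mul_apply, swap_apply_of_ne_of_ne, h1]
    · intro h'
      exact h2 (τ.injective h')
    · intro h'
      rw [← h1, ← hσl] at h'
      exact h2 (σ.injective h')

/-- the bound for the cell `(last, last)` -/
theorem flag_last (hM : n + 1 < M) (hm : m ≤ n) (hm1 : 1 ≤ m)
    (al c ph f4 f0 f1 f2 : Finset ℕ → ℝ)
    (W1 s11 p0 s12 p4 q4 w0 s22 w1 q1 w2 q2 S22 : ℝ)
    (ha1 : Harm M m n al) (ha2 : Val (n + 1) M m al W1 s11)
    (hp1 : Harm M m (n + 1) ph) (hp2 : Val (n + 1) M m ph p0 s12)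
    (h41 : Harm M (m - 1) n f4) (h42 : Val (n + 1) M (m - 1) f4 p4 q4) (hp4 : p4 ≤ 0)
    (h01 : Harm M m (n + 1) f0) (h02 : Val (n + 1) M m f0 w0 s22)
    (h11 : Harm M m n f1) (h12 : Val (n + 1) M m f1 w1 q1)
    (h21 : Harm M m n f2) (h22 : Val (n + 1) M m f2 w2 q2)
    (hS0 : S22 ≤ s22) (hS1 : S22 ≤ s22 + q1) (hS2 : S22 ≤ s22 + q2) (hS3 : S22 ≤ s22 + q1 + q2)
    (hg1 : ∀ C ∈ Lv M n, ∀ x ∈ ad C, ∀ C' ∈ Lv M n, ∀ y ∈ ad C', C ≠ C' → mv C' y = mv C x →
      0 ≤ f0 (mv C x) + f1 C + f2 C')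
    (hg2 : ∀ C ∈ Lv M n, ∀ x ∈ ad C, 0 < f0 (mv C x) + f1 C + f2 C)
    (hal : ∀ C ∈ Lv M n, ∑ x ∈ ad C, w C x *
      ((ph (mv C x) + f4 C * ((x : ℝ) - ((M : ℝ) - 1)) - c C) ^ 2 /
        (f0 (mv C x) + f1 C + f2 C)) ≤ al C)
    (A : Finset (Perm (Fin (n + 1))))
    (hA : ∀ σ ∈ A, ∀ τ ∈ A, n + 1 - m ≤ (univ.filter fun i => σ i = τ i).card) :
    let X : ℝ := ((A.filter fun σ => σ (Fin.last n) = Fin.last n).card : ℝ)
    let Y : ℝ := ((A.filter fun σ => σ (Fin.last n) ≠ Fin.last n).card : ℝ)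
    0 ≤ (W1 * X + (w0 + w1 + w2) * Y) -
      (s11 * X ^ 2 + 2 * (s12 + m * q4) * X * Y + S22 * Y ^ 2) / m.factorial := by
  classical
  intro X Y
  set B := A.filter fun σ => σ (Fin.last n) = Fin.last n with hB
  set C := A.filter fun σ => σ (Fin.last n) ≠ Fin.last n with hC
  have hBm : ∀ σ ∈ B, σ ∈ A ∧ Sn n σ := fun σ h =>
    ⟨(mem_filter.1 h).1, Sn_last95.2 (mem_filter.1 h).2⟩
  have hCm : ∀ σ ∈ C, σ ∈ A ∧ ¬ Sn n σ := fun σ h =>
    ⟨(mem_filter.1 h).1, fun h' => (mem_filter.1 h).2 (Sn_last95.1 h')⟩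
  have hmf : (0 : ℝ) < m.factorial := by exact_mod_cast m.factorial_pos
  have hmf1 : (0 : ℝ) < (m - 1).factorial := by exact_mod_cast (m - 1).factorial_pos
  have hmm : (m.factorial : ℝ) = m * (m - 1).factorial := by
    have : m.factorial = m * (m - 1).factorial := by
      rw [Nat.mul_factorial_pred (by omega)]
    rw [this]
    push_cast
    ring
  have hq := block_psd hM al c (fun C x => ph (mv C x) + f4 C * ((x : ℝ) - ((M : ℝ) - 1)))
    (fun B C C' => f0 B + f1 C + f2 C') hg1
    (fun C hC x hx => ⟨(hg2 C hC x hx).le, fun h => absurd h (hg2 C hC x hx).ne'⟩) hal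
    (u := vec B) (v := vec C)
    (fun σ hσ => if_neg fun h => hσ (hBm σ h).2)
    (fun σ hσ => if_neg fun h => (hCm σ h).2 hσ)
  rw [XY_flag hM, YY_flag hM] at hq
  -- XX
  have h1 := sum_pair_le hM hm (Or.inl rfl) al W1 s11 ha1 ha2 B
    (fun _ σ hσ => (hBm σ hσ).2)
    (fun σ hσ τ hτ => hA σ (hBm σ hσ).1 τ (hBm τ hτ).1)
  -- XY
  have h2 : vec B ⬝ᵥ ((G (n + 1) M ph (n + 1) + G (n + 1) M f4 n * Pool.JM.X 0 n).mulVec (vec C)) ≤
      - ((s12 + m * q4) / m.factorial) * ((B.card : ℝ) * C.card) := by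
    rw [vec_quad]
    calc ∑ σ ∈ B, ∑ τ ∈ C, (G (n + 1) M ph (n + 1) + G (n + 1) M f4 n * Pool.JM.X 0 n :
          Mat (n + 1)) σ τ ≤
        ∑ σ ∈ B, ∑ τ ∈ C, (- ((s12 + m * q4) / m.factorial) : ℝ) := by
          refine Finset.sum_le_sum fun σ hσ => Finset.sum_le_sum fun τ hτ => ?_
          obtain ⟨hσA, hσ1⟩ := hBm σ hσ
          obtain ⟨hτA, hτ1⟩ := hCm τ hτ
          rw [Matrix.add_apply, cross_val hM f4 hσ1 hτ1]
          have e1 := pair_le hM hm (Or.inr rfl) ph p0 s12 hp1 hp2 (σ := σ) (τ := τ)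
            (fun h => by omega) (hA σ hσA τ hτA)
          have hne : σ ≠ τ := by
            rintro rfl
            exact hτ1 hσ1
          rw [if_neg hne] at e1
          have e2 := pair_le (k := n) (m := m - 1) hM (by omega) (Or.inl rfl) f4 p4 q4 h41 h42
            (σ := σ) (τ := swap (τ (Fin.last n)) (Fin.last n) * τ)
            (fun _ => Sn_mul hσ1 (Sn_inv cross_Sn))
            (by
              have := cross_agree hσ1 hτ1
              have := hA σ hσA τ hτA
              omega)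
          have e3 : (if σ = swap (τ (Fin.last n)) (Fin.last n) * τ then p4 else 0) ≤ 0 := by
            split_ifs
            · exact hp4
            · exact le_rfl
          have e4 : q4 / (m - 1).factorial = m * q4 / m.factorial := by
            rw [hmm]
            have : (m : ℝ) ≠ 0 := by
              have : 0 < m := hm1
              positivity
            field_simp
          rw [add_div]
          rw [e4] at e2
          linarith
      _ = _ := by
          rw [Finset.sum_const, Finset.sum_const, nsmul_eq_mul, nsmul_eq_mul]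
          ring
  -- YY95
  have h3 : vec C ⬝ᵥ ((G (n + 1) M f0 (n + 1) + G (n + 1) M f1 n + rv (G (n + 1) M f2 n)).mulVec
      (vec C)) ≤ (w0 + w1 + w2) * C.card - S22 / m.factorial * (C.card : ℝ) ^ 2 := by
    rw [vec_quad]
    calc ∑ σ ∈ C, ∑ τ ∈ C, (G (n + 1) M f0 (n + 1) + G (n + 1) M f1 n +
          rv (G (n + 1) M f2 n) : Mat (n + 1)) σ τ ≤
        ∑ σ ∈ C, ∑ τ ∈ C, ((if σ = τ then (w0 + w1 + w2) else 0) - S22 / m.factorial) := by
          refine Finset.sum_le_sum fun σ hσ => Finset.sum_le_sum fun τ hτ => ?_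
          have hag := hA σ (hCm σ hσ).1 τ (hCm τ hτ).1
          rw [Matrix.add_apply, Matrix.add_apply]
          have hbd1 : Bd n (G (n + 1) M f1 n) :=
            (Al.sum _ _ fun B _ => ((good (N := n + 1) hM n (by omega)).al B).smul _).1
          have hbd2 : Bd n (G (n + 1) M f2 n) :=
            (Al.sum _ _ fun B _ => ((good (N := n + 1) hM n (by omega)).al B).smul _).1
          have e0 := pair_le hM hm (Or.inr rfl) f0 w0 s22 h01 h02 (σ := σ) (τ := τ)
            (fun h => by omega) hag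
          have e1 : G (n + 1) M f1 n σ τ = 0 ∧ σ ≠ τ ∨
              G (n + 1) M f1 n σ τ ≤ (if σ = τ then w1 else 0) - q1 / m.factorial := by
            by_cases h : Sn n (σ * τ⁻¹)
            · exact Or.inr (pair_le hM hm (Or.inl rfl) f1 w1 q1 h11 h12 (fun _ => h) hag)
            · refine Or.inl ⟨hbd1 _ _ h, fun hh => h ?_⟩
              rw [hh, mul_inv_cancel]
              exact Sn_one n
          have e2 : rv (G (n + 1) M f2 n) σ τ = 0 ∧ σ ≠ τ ∨
              rv (G (n + 1) M f2 n) σ τ ≤ (if σ = τ then w2 else 0) - q2 / m.factorial := by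
            change G (n + 1) M f2 n σ⁻¹ τ⁻¹ = 0 ∧ σ ≠ τ ∨
              G (n + 1) M f2 n σ⁻¹ τ⁻¹ ≤ (if σ = τ then w2 else 0) - q2 / m.factorial
            by_cases h : Sn n (σ⁻¹ * (τ⁻¹)⁻¹)
            · refine Or.inr ?_
              have := pair_le hM hm (Or.inl rfl) f2 w2 q2 h21 h22 (σ := σ⁻¹) (τ := τ⁻¹)
                (fun _ => h) (by rw [inv_count]; exact hag)
              refine this.trans (le_of_eq ?_)
              congr 1
              exact if_congr inv_inj rfl rfl
            · refine Or.inl ⟨hbd2 _ _ h, fun hh => h ?_⟩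
              rw [hh, inv_inv, inv_mul_cancel]
              exact Sn_one n
          have d0 : S22 / m.factorial ≤ s22 / m.factorial := by gcongr
          have d1 : S22 / m.factorial ≤ s22 / m.factorial + q1 / m.factorial := by
            rw [← add_div]; gcongr
          have d2 : S22 / m.factorial ≤ s22 / m.factorial + q2 / m.factorial := by
            rw [← add_div]; gcongr
          have d3 : S22 / m.factorial ≤ s22 / m.factorial + q1 / m.factorial +
              q2 / m.factorial := by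
            rw [← add_div, ← add_div]; gcongr
          rcases e1 with ⟨e1, hne⟩ | e1
          · rw [if_neg hne] at e0 ⊢
            rcases e2 with ⟨e2, _⟩ | e2
            · rw [e1, e2]
              linarith
            · rw [if_neg hne] at e2
              rw [e1]
              linarith
          · rcases e2 with ⟨e2, hne⟩ | e2
            · rw [if_neg hne] at e0 e1 ⊢
              rw [e2]
              linarith
            · by_cases h : σ = τ
              · rw [if_pos h] at e0 e1 e2 ⊢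
                linarith
              · rw [if_neg h] at e0 e1 e2 ⊢
                linarith
      _ = ∑ σ ∈ C, ((w0 + w1 + w2) - C.card * (S22 / m.factorial)) := by
          refine Finset.sum_congr rfl fun σ hσ => ?_
          rw [Finset.sum_sub_distrib, Finset.sum_ite_eq, if_pos hσ, Finset.sum_const,
            nsmul_eq_mul]
      _ = _ := by
          rw [Finset.sum_const, nsmul_eq_mul]
          ring
  have e : (W1 * X + (w0 + w1 + w2) * Y) -
      (s11 * X ^ 2 + 2 * (s12 + m * q4) * X * Y + S22 * Y ^ 2) / m.factorial =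
      (W1 * B.card - s11 / m.factorial * (B.card : ℝ) ^ 2) +
      2 * (- ((s12 + m * q4) / m.factorial) * ((B.card : ℝ) * C.card)) +
      ((w0 + w1 + w2) * C.card - S22 / m.factorial * (C.card : ℝ) ^ 2) := by
    simp only [X, Y]
    field_simp
    ring
  rw [e]
  linarith

end vals

end Pool.JM
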