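import Pool.Agent.Work.MP_46fa68_95.Mark
import Pool.Agent.Work.MP_46fa68_95.Flag

/-! # Values of one-mark elements on permutations with many fixed points -/

set_option autoImplicit false

open Finset Equiv

namespace Pool.JM

variable {N M : ℕ}

/-- harmonic one-mark functions between the levels `m₁` and `n` -/
def Harm1 (M m₁ n : ℕ) (a : Finset ℕ → Finset ℕ → ℝ) : Prop :=
  ∀ k, m₁ ≤ k → k < n → ∀ C ∈ Lv M k, ∀ x ∈ ad C, a (mv C x) C = res a C x

/-- `T1` commutes with `S_n` -/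
theorem T1_comm (hM : N < M) {n : ℕ} (hn : n < N) (a : Finset ℕ → Finset ℕ → ℝ)
    {σ : Perm (Fin N)} (hσ : Sn n σ) : U σ * T1 N M n a = T1 N M n a * U σ := by
  unfold T1
  rw [Finset.mul_sum, Finset.sum_mul]
  refine Finset.sum_congr rfl fun q hq => ?_
  obtain ⟨hq1, -⟩ := mem_sigma.1 hq
  rw [Matrix.mul_smul, Matrix.smul_mul, pc_comm hM hn hq1 q.2 (Al_U hσ)]

theorem T1_conj (hM : N < M) {n : ℕ} (hn : n < N) (a : Finset ℕ → Finset ℕ → ℝ)
    {τ : Perm (Fin N)} (hτ : Sn n τ) (σ : Perm (Fin N)) :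
    T1 N M n a (τ * σ * τ⁻¹) 1 = T1 N M n a σ 1 := by
  have e1 : (U τ⁻¹ * T1 N M n a) (σ * τ⁻¹) 1 = T1 N M n a (τ * σ * τ⁻¹) 1 := by
    rw [U_mul_apply, inv_inv, mul_assoc]
  rw [← e1, T1_comm hM hn a (Sn_inv hτ), mul_U_apply, mul_one]
  have := (T1_al hM hn.le a).2 σ 1 τ⁻¹
  rwa [one_mul] at this

theorem fix_conj (σ τ : Perm (Fin N)) :
    (univ.filter fun i => (τ * σ * τ⁻¹) i = i).card = (univ.filter fun i => σ i = i).card := by
  refine Finset.card_bij (fun i _ => τ⁻¹ i) ?_ ?_ ?_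
  · intro i hi
    have hi' := (mem_filter.1 hi).2
    refine mem_filter.2 ⟨mem_univ _, ?_⟩
    rw [Perm.mul_apply, Perm.mul_apply] at hi'
    have h2 : τ⁻¹ (τ (σ (τ⁻¹ i))) = τ⁻¹ i := congrArg (fun z => τ⁻¹ z) hi'
    rwa [show τ⁻¹ (τ (σ (τ⁻¹ i))) = σ (τ⁻¹ i) from τ.symm_apply_apply _] at h2
  · intro a _ b _ hab
    exact (τ⁻¹).injective hab
  · intro b hb
    have hb' := (mem_filter.1 hb).2
    refine ⟨τ b, mem_filter.2 ⟨mem_univ _, ?_⟩, τ.symm_apply_apply b⟩
    rw [Perm.mul_apply, Perm.mul_apply, show τ⁻¹ (τ b) = b from τ.symm_apply_apply b, hb']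

theorem card_ge (N k : ℕ) (hk : k ≤ N) :
    (univ.filter fun i : Fin N => k ≤ (i : ℕ)).card = N - k := by
  have e := Finset.card_filter_add_card_filter_not (s := (univ : Finset (Fin N)))
    (fun i : Fin N => k ≤ (i : ℕ))
  have h2 : (univ.filter fun i : Fin N => ¬ k ≤ (i : ℕ)).card = min k N := by
    simp only [not_le]
    rw [Fin.card_filter_val_lt, min_comm]
  rw [h2, card_univ, Fintype.card_fin] at e
  omega

/-- reduction of the value at a permutation with many fixed points which moves the marked point -/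
theorem mark_chain (hM : N < M) {m : ℕ} (hm : 1 ≤ m) (a : Finset ℕ → Finset ℕ → ℝ) :
    ∀ d : ℕ, ∀ (hk : m - 1 + d < N), Harm1 M (m - 1) (m - 1 + d) a →
    ∀ g : Perm (Fin N), Sn (m - 1 + d + 1) g → g ⟨m - 1 + d, hk⟩ ≠ ⟨m - 1 + d, hk⟩ →
    N - m ≤ (univ.filter fun i => g i = i).card →
    ∃ g' : Perm (Fin N), Sn m g' ∧ g' ⟨m - 1, by omega⟩ ≠ ⟨m - 1, by omega⟩ ∧
      T1 N M (m - 1 + d) a g 1 = T1 N M (m - 1) a g' 1 := by
  intro d
  induction d with
  | zero =>
    intro hk _ g hg hne _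
    refine ⟨g, ?_, hne, rfl⟩
    have : m - 1 + 0 + 1 = m := by omega
    rwa [this] at hg
  | succ d ih =>
    intro hk hH g hg hne hf
    set k := m - 1 + d with hkdef
    have hk' : k + 1 < N := by omega
    have ekk : m - 1 + (d + 1) = k + 1 := by omega
    set pk : Fin N := ⟨k + 1, hk'⟩ with hpk
    have epk : (⟨m - 1 + (d + 1), hk⟩ : Fin N) = pk := Fin.ext ekk
    rw [epk] at hne
    -- a fixed point below k + 1
    obtain ⟨j, hj1, hj2⟩ : ∃ j : Fin N, (j : ℕ) < k + 1 ∧ g j = j := by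
      by_contra hcon
      push Not at hcon
      have hsub : (univ.filter fun i => g i = i) ⊆
          (univ.filter fun i : Fin N => k + 2 ≤ (i : ℕ)) := by
        intro i hi
        have hi' := (mem_filter.1 hi).2
        refine mem_filter.2 ⟨mem_univ _, ?_⟩
        by_contra hlt
        rw [not_le] at hlt
        rcases Nat.lt_succ_iff_lt_or_eq.1 hlt with h1 | h1
        · exact hcon i h1 hi'
        · exact hne ((Fin.ext h1 : i = pk) ▸ hi')
      have := card_le_card hsub
      rw [card_ge N (k + 2) (by omega)] at this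
      omega
    -- conjugate
    set q : Fin N := ⟨k, by omega⟩ with hq
    set ρ : Perm (Fin N) := swap j q with hρ
    have hρS : Sn (k + 1) ρ := swap_Sn hj1 (by simp [hq])
    set g1 : Perm (Fin N) := ρ * g * ρ⁻¹ with hg1
    have hg1S : Sn (k + 2) g1 := by
      have hg' : Sn (k + 2) g := by
        have : m - 1 + (d + 1) + 1 = k + 2 := by omega
        rwa [this] at hg
      exact Sn_mul (Sn_mul (Sn_mono (by omega) hρS) hg') (Sn_inv (Sn_mono (by omega) hρS))
    have hρpk : ρ pk = pk := hρS pk (by simp [hpk])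
    have hg1q : g1 q = q := by
      rw [hg1, Perm.mul_apply, Perm.mul_apply, hρ, swap_inv, swap_apply_right, hj2,
        swap_apply_left]
    have hg1pk : g1 pk ≠ pk := by
      intro h
      rw [hg1, Perm.mul_apply, Perm.mul_apply, hρ, swap_inv, ← hρ, hρpk] at h
      apply hne
      have h2 := congrArg ρ h
      rw [hρpk, hρ, swap_apply_self] at h2
      exact h2
    have hv1 : T1 N M (k + 1) a g1 1 = T1 N M (k + 1) a g 1 := T1_conj hM hk' a hρS g
    have hf1 : N - m ≤ (univ.filter fun i => g1 i = i).card := by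
      rw [hg1, fix_conj]
      exact hf
    -- move the mark
    set s' : Perm (Fin N) := s k hk' with hs'
    have hs1 : s' q = pk := by
      rw [hs']
      exact swap_apply_left _ _
    have hs2 : s' pk = q := by
      rw [hs']
      exact swap_apply_right _ _
    have hsi : s'⁻¹ = s' := s_inv k hk'
    set g2 : Perm (Fin N) := s' * g1 * s'⁻¹ with hg2
    have hg2S : Sn (k + 1) g2 := by
      intro i hi
      rcases eq_or_lt_of_le hi with h1 | h1
      · have : i = pk := Fin.ext h1.symm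
        rw [this, hg2, Perm.mul_apply, Perm.mul_apply, hsi, hs2, hg1q, hs1]
      · have hsS : Sn (k + 2) s' := s_Sn k hk'
        rw [hg2, Perm.mul_apply, Perm.mul_apply, hsi, hsS i h1, hg1S i h1, hsS i h1]
    have hg2q : g2 q ≠ q := by
      intro h
      rw [hg2, Perm.mul_apply, Perm.mul_apply, hsi, hs1] at h
      have h2 := congrArg s' h
      rw [hs1] at h2
      have h3 : s' (s' (g1 pk)) = g1 pk := by
        rw [← Perm.mul_apply, s_mul, Perm.one_apply]
      rw [h3] at h2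
      exact hg1pk h2
    have hf2 : N - m ≤ (univ.filter fun i => g2 i = i).card := by
      rw [hg2, fix_conj]
      exact hf1
    have hv2 : T1 N M (k + 1) a g1 1 = T1 N M k a g2 1 := by
      have hres := T1_res (N := N) hM hk' a a (hH k (by omega) (by omega))
      rw [← hres, E_apply_of (by simpa using hg2S), mul_U_apply, U_mul_apply, ← hs', hsi, mul_one]
      have e1 : s' * g2 = g1 * s' := by
        rw [hg2, hsi, ← mul_assoc, ← mul_assoc]
        rw [show s' * s' = 1 from s_mul k hk', one_mul]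
      rw [e1]
      have := (T1_al hM hk'.le a).2 g1 1 s'
      rw [one_mul] at this
      exact this.symm
    have hH' : Harm1 M (m - 1) k a := fun l h1 h2 => hH l h1 (by omega)
    obtain ⟨g', h1, h2, h3⟩ := ih (by omega) hH' g2 hg2S hg2q hf2
    refine ⟨g', h1, h2, ?_⟩
    have e : T1 N M (m - 1 + (d + 1)) a g 1 = T1 N M (k + 1) a g 1 := by rw [ekk]
    rw [e, ← hv1, hv2, h3]

/-- values of a one-mark element off the stabiliser of the mark, level `m` -/
def ValN (N M m : ℕ) (a : Finset ℕ → Finset ℕ → ℝ) (q : ℝ) : Prop :=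
  ∀ (h : m - 1 < N) (g : Perm (Fin N)), Sn m g → g ⟨m - 1, h⟩ ≠ ⟨m - 1, h⟩ →
    T1 N M (m - 1) a g 1 ≤ - q / m.factorial

/-- sum over the pairs, general level -/
theorem T1_hi (f : Finset ℕ → ℝ) (n : ℕ) :
    T1 N M n (fun B _ => f B) = G N M f (n + 1) := by
  unfold G T1
  have h1 : ∀ B ∈ Lv M (n + 1), f B • P N M (n + 1) B =
      ∑ q ∈ (Lv M n).sigma fun C => ad C,
        if mv q.1 q.2 = B then f (mv q.1 q.2) • Pc N M n q.1 q.2 else 0 := by
    intro B _
    rw [P_succ, Finset.smul_sum]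
    refine Finset.sum_congr rfl fun q _ => ?_
    split_ifs with h
    · rw [h]
    · rw [smul_zero]
  rw [Finset.sum_congr rfl h1, Finset.sum_comm]
  refine Finset.sum_congr rfl fun q hq => ?_
  obtain ⟨hq1, hq2⟩ := mem_sigma.1 hq
  rw [Finset.sum_ite_eq, if_pos (mv_mem hq1 hq2)]

theorem T1_lo (hM : N < M) {n : ℕ} (hn : n ≤ N) (f : Finset ℕ → ℝ) :
    T1 N M n (fun _ C => f C) = G N M f n := by
  unfold T1 G
  rw [Finset.sum_sigma]
  refine Finset.sum_congr rfl fun C hC => ?_
  simp only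
  rw [← Finset.smul_sum, pc_sum hC (by omega)]

theorem T1_add (n : ℕ) (a b : Finset ℕ → Finset ℕ → ℝ) :
    T1 N M n (fun B C => a B C + b B C) = T1 N M n a + T1 N M n b := by
  unfold T1
  rw [← Finset.sum_add_distrib]
  refine Finset.sum_congr rfl fun q _ => ?_
  rw [add_smul]

theorem T1_congr {n : ℕ} {a b : Finset ℕ → Finset ℕ → ℝ}
    (h : ∀ C ∈ Lv M n, ∀ x ∈ ad C, a (mv C x) C = b (mv C x) C) :
    T1 N M n a = T1 N M n b := by
  unfold T1
  refine Finset.sum_congr rfl fun q hq => ?_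
  obtain ⟨hq1, hq2⟩ := mem_sigma.1 hq
  rw [h q.1 hq1 q.2 hq2]

/-- the boundary values which need no characters -/
theorem ValN_of_const (hM : N < M) {m : ℕ} (hm1 : 1 ≤ m) (hm : m ≤ N)
    (a : Finset ℕ → Finset ℕ → ℝ) (c : Finset ℕ → ℝ) (q : ℝ)
    (h : ∀ C ∈ Lv M (m - 1), ∀ x ∈ ad C,
      a (mv C x) C = c C - if mv C x = Rw M m then q else 0) : ValN N M m a q := by
  intro hmN g hg hne
  have e1 : T1 N M (m - 1) a = G N M (fun B => 0 - if B = Rw M m then q else 0) (m - 1 + 1) +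
      G N M c (m - 1) := by
    rw [← T1_hi, ← T1_lo hM (by omega : m - 1 ≤ N), ← T1_add]
    refine T1_congr fun C hC x hx => ?_
    rw [h C hC x hx]
    ring
  have e2 : m - 1 + 1 = m := by omega
  have e3 : G N M c (m - 1) g 1 = 0 := by
    have hbd : Bd (m - 1) (G N M c (m - 1)) :=
      (Al.sum _ _ fun B _ => ((good (N := N) hM (m - 1) (by omega)).al B).smul _).1
    refine hbd _ _ fun h' => hne ?_
    have h2 : Sn (m - 1) g := by simpa using h'
    exact h2 _ le_rfl
  have e4 := G_const hM hm (fun B => 0 - if B = Rw M m then q else 0) 0 q (fun C _ => rfl) hg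
  have hg1 : g ≠ 1 := by
    rintro rfl
    exact hne rfl
  rw [if_neg hg1] at e4
  rw [e1, Matrix.add_apply, e3, e2, e4]
  exact le_of_eq (by ring)

/-- the value of a one-mark element on a pair which does not share the marked value -/
theorem pair_leN {n m : ℕ} (hM : n + 1 < M) (hm1 : 1 ≤ m) (hm : m ≤ n)
    (a : Finset ℕ → Finset ℕ → ℝ) (q : ℝ) (h1 : Harm1 M (m - 1) n a)
    (h2 : ValN (n + 1) M m a q) {σ τ : Perm (Fin (n + 1))} (hst : ¬ Sn n (σ * τ⁻¹))
    (hA : n + 1 - m ≤ (univ.filter fun i => σ i = τ i).card) :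
    T1 (n + 1) M n a σ τ ≤ - q / m.factorial := by
  have hgal := (T1_al (N := n + 1) (n := n) hM (by omega) a).2
  have e1 : T1 (n + 1) M n a σ τ = T1 (n + 1) M n a (σ * τ⁻¹) 1 := by
    have := hgal (σ * τ⁻¹) 1 τ
    rw [one_mul] at this
    rw [← this]
    congr 1
    group
  have hfix : n + 1 - m ≤ (univ.filter fun i => (σ * τ⁻¹) i = i).card := by
    rwa [fix_count]
  have en : m - 1 + (n - (m - 1)) = n := by omega
  have hk : m - 1 + (n - (m - 1)) < n + 1 := by omega
  have hch := mark_chain (N := n + 1) hM hm1 a (n - (m - 1)) hk (by rw [en]; exact h1)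
    (σ * τ⁻¹) (fun i hi => absurd i.2 (by omega)) (by
      intro h
      apply hst
      rw [Sn_last95]
      have e : (⟨m - 1 + (n - (m - 1)), hk⟩ : Fin (n + 1)) = Fin.last n := Fin.ext (by simp; omega)
      rwa [e] at h) hfix
  obtain ⟨g', hg1, hg2, hg3⟩ := hch
  have e : T1 (n + 1) M n a (σ * τ⁻¹) 1 = T1 (n + 1) M (m - 1 + (n - (m - 1))) a (σ * τ⁻¹) 1 := by
    rw [en]
  rw [e1, e, hg3]
  exact h2 _ g' hg1 hg2

/-- the conditional expectation of a one-mark element -/
theorem T1_E {n : ℕ} (hM : N < M) (hn : n < N) (a : Finset ℕ → Finset ℕ → ℝ) (b : Finset ℕ → ℝ)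
    (h : ∀ C ∈ Lv M n, b C = ∑ x ∈ ad C, w C x * a (mv C x) C) :
    E n (T1 N M n a) = G N M b n := by
  have hg := good (N := N) hM n hn.le
  unfold T1 G
  rw [E_sum, Finset.sum_sigma]
  refine Finset.sum_congr rfl fun C hC => ?_
  rw [h C hC, Finset.sum_smul]
  refine Finset.sum_congr rfl fun x hx => ?_
  simp only
  rw [E_smul, hg.pc_E hn hC hx, smul_smul, mul_comm]

end Pool.JM
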