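import Pool.Agent.Work.MP_46fa68_82.KKdef

/-! # An integer positive definiteness check by fraction free elimination -/

set_option autoImplicit false

open Finset

namespace Pool.PsdZ

/-- `a * r_i - u_i * (u_i, u_(i+1), ..)` for the upper triangular rows `r_i` -/
def row (a ui : ℤ) : List ℤ → List ℤ → List ℤ
  | z :: zs, y :: ys => (a * z - ui * y) :: row a ui zs ys
  | _, _ => []

/-- one elimination step -/
def step (a : ℤ) : List ℤ → List (List ℤ) → List (List ℤ)
  | ui :: us, r :: rs => row a ui r (ui :: us) :: step a us rs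
  | _, _ => []

/-- the check; rows are upper triangular: row `i` contains the entries `(i, i), (i, i+1), ..` -/
def psdT : ℕ → List (List ℤ) → Bool
  | _, [] => true
  | n + 1, (a :: u) :: rows => Nat.ble 1 a.toNat && psdT n (step a u rows)
  | _, _ => false

/-- `∑ u_i x_i` -/
noncomputable def dot : List ℤ → List ℝ → ℝ
  | a :: u, x :: xs => a * x + dot u xs
  | _, _ => 0

/-- the quadratic form of upper triangular rows -/
noncomputable def quad : List (List ℤ) → List ℝ → ℝ
  | (a :: u) :: rows, x :: xs => a * x ^ 2 + 2 * x * dot u xs + quad rows xs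
  | _, _ => 0

/-- shape of triangular rows of size `k` -/
def Tri : ℕ → List (List ℤ) → Prop
  | 0, rows => rows = []
  | k + 1, rows => ∃ a u rs, rows = (a :: u) :: rs ∧ u.length = k ∧ Tri k rs

theorem dot_row (a ui : ℤ) : ∀ (r us : List ℤ) (xs : List ℝ), r.length = us.length →
    dot (row a ui r us) xs = a * dot r xs - ui * dot us xs := by
  intro r
  induction r with
  | nil =>
    intro us xs h
    cases us with
    | nil => simp [row, dot]
    | cons _ _ => simp at h
  | cons z zs ih =>
    intro us xs h
    cases us with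
    | nil => simp at h
    | cons y ys =>
      cases xs with
      | nil => simp [row, dot]
      | cons x xs =>
        simp only [row, dot]
        rw [ih ys xs (by simpa using h)]
        push_cast
        ring

theorem row_length (a ui : ℤ) : ∀ (r us : List ℤ), r.length = us.length →
    (row a ui r us).length = r.length := by
  intro r
  induction r with
  | nil => intro us h; cases us <;> simp [row]
  | cons z zs ih =>
    intro us h
    cases us with
    | nil => simp at h
    | cons y ys =>
      simp only [row, List.length_cons]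
      rw [ih ys (by simpa using h)]

theorem step_tri (a : ℤ) : ∀ (k : ℕ) (us : List ℤ) (rows : List (List ℤ)), us.length = k →
    Tri k rows → Tri k (step a us rows) := by
  intro k
  induction k with
  | zero =>
    intro us rows h1 h2
    simp only [Tri] at h2
    subst h2
    cases us <;> simp [step, Tri]
  | succ k ih =>
    intro us rows h1 h2
    obtain ⟨b, v, rs, rfl, hv, hrs⟩ := h2
    cases us with
    | nil => simp at h1
    | cons ui us =>
      have hus : us.length = k := by simpa using h1
      refine ⟨a * b - ui * ui, row a ui v us, step a us rs, ?_, ?_, ih us rs hus hrs⟩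
      · simp [step, row]
      · rw [row_length a ui v us (hv.trans hus.symm), hv]

theorem quad_step (a : ℤ) : ∀ (k : ℕ) (us : List ℤ) (rows : List (List ℤ)) (xs : List ℝ),
    us.length = k → xs.length = k → Tri k rows →
    quad (step a us rows) xs = a * quad rows xs - (dot us xs) ^ 2 := by
  intro k
  induction k with
  | zero =>
    intro us rows xs h1 h2 h3
    have e1 : us = [] := List.length_eq_zero_iff.1 h1
    have e2 : xs = [] := List.length_eq_zero_iff.1 h2
    simp only [Tri] at h3
    subst e1 e2 h3
    simp [step, quad, dot]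
  | succ k ih =>
    intro us rows xs h1 h2 h3
    obtain ⟨b, v, rs, rfl, hv, hrs⟩ := h3
    cases us with
    | nil => simp at h1
    | cons ui us =>
      cases xs with
      | nil => simp at h2
      | cons x xs =>
        have hus : us.length = k := by simpa using h1
        have hxs : xs.length = k := by simpa using h2
        simp only [step, row, quad, dot]
        rw [ih us rs xs hus hxs hrs, dot_row a ui v us xs (hv.trans hus.symm)]
        push_cast
        ring

theorem psdT_sound : ∀ (k f : ℕ) (rows : List (List ℤ)) (xs : List ℝ), xs.length = k →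
    Tri k rows → psdT f rows = true → 0 ≤ quad rows xs := by
  intro k
  induction k with
  | zero =>
    intro f rows xs h1 h2 _
    simp only [Tri] at h2
    subst h2
    simp [quad]
  | succ k ih =>
    intro f rows xs h1 h2 h3
    obtain ⟨a, u, rs, rfl, hu, hrs⟩ := h2
    cases xs with
    | nil => simp at h1
    | cons x xs =>
      have hxs : xs.length = k := by simpa using h1
      cases f with
      | zero => simp [psdT] at h3
      | succ f =>
        simp only [psdT, Bool.and_eq_true] at h3
        obtain ⟨h4, h5⟩ := h3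
        have ha : 1 ≤ a.toNat := Nat.le_of_ble_eq_true h4
        have ha' : (0 : ℤ) < a := by omega
        have haR : (0 : ℝ) < (a : ℝ) := by exact_mod_cast ha'
        have h6 := ih f (step a u rs) xs hxs (step_tri a k u rs hu hrs) h5
        rw [quad_step a k u rs xs hu hxs hrs] at h6
        simp only [quad]
        have h7 : 0 ≤ (a : ℝ) * (a * x ^ 2 + 2 * x * dot u xs + quad rs xs) := by
          have e : (a : ℝ) * (a * x ^ 2 + 2 * x * dot u xs + quad rs xs) =
              (a * x + dot u xs) ^ 2 + (a * quad rs xs - (dot u xs) ^ 2) := by ring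
          rw [e]
          positivity
        exact (mul_nonneg_iff_of_pos_left haR).1 h7

/-- the triangular rows of a function on a list of indices -/
def mk (B : ℕ → ℕ → ℤ) : List ℕ → List (List ℤ)
  | [] => []
  | x :: xs => (B x x :: xs.map (B x)) :: mk B xs

theorem mk_tri (B : ℕ → ℕ → ℤ) : ∀ xs : List ℕ, Tri xs.length (mk B xs)
  | [] => rfl
  | x :: xs => ⟨B x x, xs.map (B x), mk B xs, rfl, by simp, mk_tri B xs⟩

theorem dot_map (f : ℕ → ℤ) (v : ℕ → ℝ) : ∀ xs : List ℕ,
    dot (xs.map f) (xs.map v) = (xs.map fun y => (f y : ℝ) * v y).sum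
  | [] => by simp [dot]
  | x :: xs => by
    simp only [List.map_cons, dot, List.sum_cons]
    rw [dot_map f v xs]

theorem quad_mk (B : ℕ → ℕ → ℤ) (v : ℕ → ℝ) : ∀ xs : List ℕ,
    (∀ x ∈ xs, ∀ y ∈ xs, B x y = B y x) → xs.Nodup →
    quad (mk B xs) (xs.map v) =
      ∑ x ∈ xs.toFinset, ∑ y ∈ xs.toFinset, (B x y : ℝ) * (v x * v y)
  | [], _, _ => by simp [mk, quad]
  | x :: xs, hs, hn => by
    have hx : x ∉ xs := (List.nodup_cons.1 hn).1
    have hn' : xs.Nodup := (List.nodup_cons.1 hn).2
    have hx' : x ∉ xs.toFinset := by simpa using hx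
    simp only [mk, List.map_cons, quad]
    rw [quad_mk B v xs (fun a ha b hb => hs a (List.mem_cons_of_mem _ ha) b
      (List.mem_cons_of_mem _ hb)) hn', dot_map, List.toFinset_cons, sum_insert hx',
      sum_insert hx']
    have e1 : (xs.map fun y => (B x y : ℝ) * v y).sum = ∑ y ∈ xs.toFinset, (B x y : ℝ) * v y := by
      rw [List.sum_toFinset _ hn']
    have e2 : ∑ z ∈ xs.toFinset, ∑ y ∈ insert x xs.toFinset, (B z y : ℝ) * (v z * v y) =
        ∑ z ∈ xs.toFinset, (B x z : ℝ) * (v z * v x) +
          ∑ z ∈ xs.toFinset, ∑ y ∈ xs.toFinset, (B z y : ℝ) * (v z * v y) := by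
      rw [← Finset.sum_add_distrib]
      refine Finset.sum_congr rfl fun z hz => ?_
      rw [sum_insert hx', hs z (List.mem_cons_of_mem _ (by simpa using hz)) x
        List.mem_cons_self]
    rw [e1, e2]
    have e3 : ∑ y ∈ xs.toFinset, (B x y : ℝ) * (v x * v y) =
        v x * ∑ y ∈ xs.toFinset, (B x y : ℝ) * v y := by
      rw [Finset.mul_sum]
      exact Finset.sum_congr rfl fun y _ => by ring
    have e4 : ∑ z ∈ xs.toFinset, (B x z : ℝ) * (v z * v x) =
        v x * ∑ y ∈ xs.toFinset, (B x y : ℝ) * v y := by
      rw [Finset.mul_sum]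
      exact Finset.sum_congr rfl fun y _ => by ring
    rw [e3, e4]
    ring

/-- **the check on a list of indices** -/
theorem psd_list (B : ℕ → ℕ → ℤ) (xs : List ℕ) (hs : ∀ x ∈ xs, ∀ y ∈ xs, B x y = B y x)
    (hn : xs.Nodup) (f : ℕ) (h : psdT f (mk B xs) = true) (v : ℕ → ℝ) :
    0 ≤ ∑ x ∈ xs.toFinset, ∑ y ∈ xs.toFinset, (B x y : ℝ) * (v x * v y) := by
  rw [← quad_mk B v xs hs hn]
  exact psdT_sound xs.length f _ _ (by simp) (mk_tri B xs) h

end Pool.PsdZ

namespace Pool.JM

/-- from the normalised data `Bh = c * w * w * b` to the hypothesis of `full_marked` -/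
theorem psd_norm {C : Finset ℕ} {b : ℕ → ℕ → ℝ} {Bh : ℕ → ℕ → ℝ} {c : ℝ} (hc : 0 < c)
    (hw : ∀ x ∈ ad C, w C x ≠ 0)
    (hB : ∀ x ∈ ad C, ∀ y ∈ ad C, Bh x y = c * w C x * w C y * b x y)
    (h : ∀ v : ℕ → ℝ, 0 ≤ ∑ x ∈ ad C, ∑ y ∈ ad C, Bh x y * (v x * v y)) (v : ℕ → ℝ) :
    0 ≤ ∑ x ∈ ad C, ∑ y ∈ ad C, b x y * (v x * v y) := by
  have h1 := h fun x => v x / w C x
  have h2 : ∑ x ∈ ad C, ∑ y ∈ ad C, Bh x y * (v x / w C x * (v y / w C y)) =
      c * ∑ x ∈ ad C, ∑ y ∈ ad C, b x y * (v x * v y) := by
    rw [Finset.mul_sum]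
    refine Finset.sum_congr rfl fun x hx => ?_
    rw [Finset.mul_sum]
    refine Finset.sum_congr rfl fun y hy => ?_
    rw [hB x hx y hy]
    have := hw x hx
    have := hw y hy
    field_simp
  rw [h2] at h1
  exact (mul_nonneg_iff_of_pos_left hc).1 h1

end Pool.JM
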