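import Pool.Agent.Work.MP_46fa68_95.RowZ
import Pool.Agent.Work.MP_46fa68_82.Srel

/-! # The projections `Zr` -/

set_option autoImplicit false

open Finset Equiv

namespace Pool.JM

variable {N M : ℕ}

/-- rank one data of `Zr` -/
noncomputable def bZ (C : Finset ℕ) (u : ℕ) (ν : Finset ℕ) (x y : ℕ) : ℝ :=
  if ν = mv C u then (w C u)⁻¹ * (((x : ℝ) - u)⁻¹ * ((y : ℝ) - u)⁻¹) else 0

/-- block data of `Zr` -/
noncomputable def dZ (C : Finset ℕ) (u : ℕ) (μ ν : Finset ℕ) : ℝ := by
  classical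
  exact if ν = mv C u ∧ ∃ y ∈ ad C, mv C y = μ then 1 else 0

section Z

variable {k : ℕ} (hM : N < M) (hk : k + 1 < N) {C : Finset ℕ} (hC : C ∈ Lv M k) {u : ℕ}
  (hu : u ∈ ad C)

/-- the vector operator -/
noncomputable def Vz (N M k : ℕ) (C : Finset ℕ) (u : ℕ) : Mat N :=
  ∑ x ∈ ad (mv C u), ((x : ℝ) - u)⁻¹ • Pc N M (k + 1) (mv C u) x

/-- the other shapes above `C` -/
noncomputable def Qz (N M k : ℕ) (C : Finset ℕ) (u : ℕ) : Mat N := by
  classical
  exact ∑ μ ∈ ((Lv M (k + 1)).erase (mv C u)).filter (fun μ => ∃ y ∈ ad C, mv C y = μ),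
    P N M (k + 1) μ

include hC hu in
theorem Zr_eq : KK N M (k + 1) (bZ C u) (dZ C u) =
    (w C u)⁻¹ • (Vz N M k C u * Dg N (k + 1) * Vz N M k C u) +
      Qz N M k C u * rv (P N M (k + 1) (mv C u)) * Dg N (k + 2) := by
  classical
  have hB : mv C u ∈ Lv M (k + 1) := mv_mem hC hu
  unfold KK
  congr 1
  · rw [Finset.sum_eq_single (mv C u)]
    · unfold Vz bZ
      rw [Finset.sum_mul, Finset.sum_mul, Finset.smul_sum]
      refine Finset.sum_congr rfl fun x _ => ?_
      rw [Finset.mul_sum, Finset.smul_sum]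
      refine Finset.sum_congr rfl fun y _ => ?_
      rw [if_pos rfl, Matrix.smul_mul, Matrix.smul_mul, Matrix.mul_smul, smul_smul, smul_smul]
      congr 1
      ring
    · intro ν _ hne
      refine Finset.sum_eq_zero fun x _ => Finset.sum_eq_zero fun y _ => ?_
      unfold bZ
      rw [if_neg hne, zero_smul]
    · intro h
      exact absurd hB h
  · have e : k + 1 + 1 = k + 2 := rfl
    rw [e]
    congr 1
    unfold Qz
    rw [Finset.sum_mul, Finset.sum_filter]
    have h1 : ∀ μ ∈ Lv M (k + 1), ∑ ν ∈ (Lv M (k + 1)).erase μ, dZ C u μ ν •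
        (P N M (k + 1) μ * rv (P N M (k + 1) ν)) =
        if mv C u ≠ μ ∧ ∃ y ∈ ad C, mv C y = μ then
          P N M (k + 1) μ * rv (P N M (k + 1) (mv C u)) else 0 := by
      intro μ _
      by_cases hne : mv C u = μ
      · rw [if_neg fun h => h.1 hne]
        refine Finset.sum_eq_zero fun ν hν => ?_
        unfold dZ
        rw [if_neg, zero_smul]
        rintro ⟨h2, -⟩
        exact (mem_erase.1 hν).1 (h2.trans hne)
      · rw [Finset.sum_eq_single (mv C u)]
        · unfold dZ
          by_cases h3 : ∃ y ∈ ad C, mv C y = μ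
          · rw [if_pos ⟨rfl, h3⟩, if_pos ⟨hne, h3⟩, one_smul]
          · rw [if_neg fun h => h3 h.2, if_neg fun h => h3 h.2, zero_smul]
        · intro ν _ hν
          unfold dZ
          rw [if_neg fun h => hν h.1, zero_smul]
        · intro h
          exact absurd (mem_erase.2 ⟨hne, hB⟩) h
    rw [Finset.sum_congr rfl h1, ← Finset.sum_erase (Lv M (k + 1)) (a := mv C u)]
    · refine Finset.sum_congr rfl fun μ hμ => ?_
      have hne := (mem_erase.1 hμ).1
      by_cases h3 : ∃ y ∈ ad C, mv C y = μ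
      · rw [if_pos ⟨hne.symm, h3⟩, if_pos h3]
      · rw [if_neg fun h => h3 h.2, if_neg h3]
    · rw [if_neg fun h => h.1 rfl]

include hM hk in
theorem Vz_symm : (Vz N M k C u).transpose = Vz N M k C u := by
  have hg := good (N := N) hM (k + 1) hk.le
  unfold Vz
  rw [Matrix.transpose_sum]
  refine Finset.sum_congr rfl fun x _ => ?_
  rw [Matrix.transpose_smul, hg.pc_symm hk]

include hM hk in
theorem Vz_P : Vz N M k C u * P N M (k + 1) (mv C u) = Vz N M k C u := by
  unfold Vz
  rw [Finset.sum_mul]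
  refine Finset.sum_congr rfl fun x _ => ?_
  rw [Matrix.smul_mul, Pc_mul_P hM hk]

include hM hk hC hu in
theorem Vz_sq : Vz N M k C u * Vz N M k C u =
    ∑ x ∈ ad (mv C u), (((x : ℝ) - u)⁻¹) ^ 2 • Pc N M (k + 1) (mv C u) x := by
  have hg := good (N := N) hM (k + 1) hk.le
  have hB : mv C u ∈ Lv M (k + 1) := mv_mem hC hu
  unfold Vz
  rw [Finset.sum_mul]
  refine Finset.sum_congr rfl fun x hx => ?_
  rw [Finset.mul_sum, Finset.sum_eq_single x]
  · rw [Matrix.smul_mul, Matrix.mul_smul, hg.pc_mul hk hB hx, if_pos ⟨rfl, rfl⟩, smul_smul, sq]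
  · intro y hy hne
    rw [Matrix.smul_mul, Matrix.mul_smul, hg.pc_mul hk hB hy, if_neg, smul_zero, smul_zero]
    rintro ⟨-, h⟩
    exact hne h.symm
  · intro h
    exact absurd hx h

include hM hk in
theorem Dg_Pc_Dg {B : Finset ℕ} (hB : B ∈ Lv M (k + 1)) {x : ℕ} (hx : x ∈ ad B) :
    Dg N (k + 1) * Pc N M (k + 1) B x * Dg N (k + 1) = w B x • (P N M (k + 1) B * Dg N (k + 1)) := by
  have hg := good (N := N) hM (k + 1) hk.le
  rw [Dg_T_Dg, hg.pc_E hk hB hx, Matrix.smul_mul]

include hM hk hC hu in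
theorem D_V_D : Dg N (k + 1) * Vz N M k C u * Dg N (k + 1) = 0 := by
  have hB : mv C u ∈ Lv M (k + 1) := mv_mem hC hu
  unfold Vz
  rw [Finset.mul_sum, Finset.sum_mul]
  have h1 : ∀ x ∈ ad (mv C u), Dg N (k + 1) * ((((x : ℝ) - u)⁻¹) • Pc N M (k + 1) (mv C u) x) *
      Dg N (k + 1) = (w (mv C u) x * ((x : ℝ) - u)⁻¹) • (P N M (k + 1) (mv C u) * Dg N (k + 1)) := by
    intro x hx
    rw [Matrix.mul_smul, Matrix.smul_mul, Dg_Pc_Dg hM hk hB hx, smul_smul, mul_comm]
  rw [Finset.sum_congr rfl h1, ← Finset.sum_smul, wsum1 hC (by omega) hu, zero_smul]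

include hM hk hC hu in
theorem D_VV_D : Dg N (k + 1) * (Vz N M k C u * Vz N M k C u) * Dg N (k + 1) =
    w C u • (P N M (k + 1) (mv C u) * Dg N (k + 1)) := by
  have hB : mv C u ∈ Lv M (k + 1) := mv_mem hC hu
  rw [Vz_sq hM hk hC hu, Finset.mul_sum, Finset.sum_mul]
  have h1 : ∀ x ∈ ad (mv C u), Dg N (k + 1) * (((((x : ℝ) - u)⁻¹) ^ 2) •
      Pc N M (k + 1) (mv C u) x) * Dg N (k + 1) =
      (w (mv C u) x * (((x : ℝ) - u)⁻¹) ^ 2) • (P N M (k + 1) (mv C u) * Dg N (k + 1)) := by
    intro x hx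
    rw [Matrix.mul_smul, Matrix.smul_mul, Dg_Pc_Dg hM hk hB hx, smul_smul, mul_comm]
  rw [Finset.sum_congr rfl h1, ← Finset.sum_smul, wsum2 hC (by omega) hu]

include hM hk in
theorem Qz_symm : (Qz N M k C u).transpose = Qz N M k C u := by
  have hg := good (N := N) hM (k + 1) hk.le
  unfold Qz
  rw [Matrix.transpose_sum]
  exact Finset.sum_congr rfl fun μ _ => hg.symm μ

include hM hk in
theorem Qz_al : Al (k + 1) (Qz N M k C u) := by
  have hg := good (N := N) hM (k + 1) hk.le
  unfold Qz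
  exact Al.sum _ _ fun μ _ => hg.al μ

include hM hk in
theorem Qz_sq : Qz N M k C u * Qz N M k C u = Qz N M k C u := by
  have hg := good (N := N) hM (k + 1) hk.le
  unfold Qz
  rw [Finset.sum_mul]
  refine Finset.sum_congr rfl fun μ hμ => ?_
  rw [Finset.mul_sum, Finset.sum_eq_single μ]
  · exact hg.idem μ
  · intro ν _ hne
    exact hg.orth _ _ (Ne.symm hne)
  · intro h
    exact absurd hμ h

include hM hk in
theorem P_Qz : P N M (k + 1) (mv C u) * Qz N M k C u = 0 := by
  have hg := good (N := N) hM (k + 1) hk.le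
  unfold Qz
  rw [Finset.mul_sum]
  refine Finset.sum_eq_zero fun μ hμ => ?_
  have hne := (mem_erase.1 (mem_filter.1 hμ).1).1
  exact hg.orth _ _ (Ne.symm hne)

include hM hk hC hu in
/-- `Zr` is symmetric, idempotent and killed by the indicator of the stabiliser of the mark -/
theorem Zr_proj : (KK N M (k + 1) (bZ C u) (dZ C u)).transpose = KK N M (k + 1) (bZ C u) (dZ C u) ∧
    KK N M (k + 1) (bZ C u) (dZ C u) * KK N M (k + 1) (bZ C u) (dZ C u) =
      KK N M (k + 1) (bZ C u) (dZ C u) ∧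
    Dg N (k + 1) * KK N M (k + 1) (bZ C u) (dZ C u) = 0 := by
  classical
  have hB : mv C u ∈ Lv M (k + 1) := mv_mem hC hu
  have hg := good (N := N) hM (k + 1) hk.le
  rw [Zr_eq hC hu]
  set V := Vz N M k C u with hV
  set Q := Qz N M k C u with hQ
  set D := Dg N (k + 1) with hD
  set D2 := Dg N (k + 2) with hD2
  set Pn := P N M (k + 1) (mv C u) with hPn
  have hVs : V.transpose = V := Vz_symm hM hk
  have hVP : V * Pn = V := Vz_P hM hk
  have hDVD : D * V * D = 0 := D_V_D hM hk hC hu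
  have hDVVD : D * (V * V) * D = w C u • (Pn * D) := D_VV_D hM hk hC hu
  have hQs : Q.transpose = Q := Qz_symm hM hk
  have hQQ : Q * Q = Q := Qz_sq hM hk
  have hPQ : Pn * Q = 0 := P_Qz hM hk
  have hQal : Al (k + 1) Q := Qz_al hM hk
  have hQP : Q * Pn = 0 := by
    have := congrArg Matrix.transpose hPQ
    rwa [Matrix.transpose_mul, hQs, hPn, hg.symm, Matrix.transpose_zero, ← hPn] at this
  have hPP : Pn * Pn = Pn := hg.idem _
  have hPs : Pn.transpose = Pn := hg.symm _
  have hDs : D.transpose = D := Dg_transpose _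
  have hD2s : D2.transpose = D2 := Dg_transpose _
  have hDD : D * D = D := Dg_idem _
  have hD22 : D2 * D2 = D2 := Dg_idem _
  have hQr : Q * rv Pn = rv Pn * Q := rv_comm hQal.2 (hg.al _).2
  have hrr : rv Pn * rv Pn = rv Pn := by rw [← rv_mul, hPP]
  have hrs : (rv Pn).transpose = rv Pn := by rw [rv_transpose, hPs]
  have hD2Q : D2 * Q = Q * D2 := Dg_comm (show k + 1 ≤ k + 2 by omega) hQal.1
  have hD2r : D2 * rv Pn = rv Pn * D2 := Dg_comm_rv (show k + 1 ≤ k + 2 by omega) (hg.al _).1
  have hDr : D * rv Pn = Pn * D := Dg_rvP hM hk.le hB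
  have hDQ : D * Q = Q * D := Dg_comm le_rfl hQal.1
  have hw : w C u ≠ 0 := (ad_w_pos hu).ne'
  clear_value V Q D D2 Pn
  have hBs : (V * D * V).transpose = V * D * V := by
    rw [Matrix.transpose_mul, Matrix.transpose_mul, hVs, hDs, mul_assoc]
  have hDs' : (Q * rv Pn * D2).transpose = Q * rv Pn * D2 := by
    rw [Matrix.transpose_mul, Matrix.transpose_mul, hQs, hD2s, hrs]
    calc D2 * (rv Pn * Q) = D2 * (Q * rv Pn) := by rw [hQr]
      _ = (D2 * Q) * rv Pn := by noncomm_ring
      _ = Q * (D2 * rv Pn) := by rw [hD2Q]; noncomm_ring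
      _ = _ := by rw [hD2r]; noncomm_ring
  have hBB : V * D * V * (V * D * V) = w C u • (V * D * V) := by
    calc V * D * V * (V * D * V) = V * (D * (V * V) * D) * V := by noncomm_ring
      _ = w C u • (V * Pn * D * V) := by
          rw [hDVVD, Matrix.mul_smul, Matrix.smul_mul]
          congr 1
          noncomm_ring
      _ = _ := by rw [hVP]
  have hDDd : Q * rv Pn * D2 * (Q * rv Pn * D2) = Q * rv Pn * D2 := by
    calc Q * rv Pn * D2 * (Q * rv Pn * D2) = Q * rv Pn * (D2 * Q) * rv Pn * D2 := by noncomm_ring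
      _ = Q * (rv Pn * Q) * (D2 * rv Pn) * D2 := by rw [hD2Q]; noncomm_ring
      _ = Q * Q * (rv Pn * rv Pn) * (D2 * D2) := by rw [← hQr, hD2r]; noncomm_ring
      _ = _ := by rw [hQQ, hrr, hD22]
  have hVQ : V * Q = 0 := by
    rw [← hVP, mul_assoc, hPQ, mul_zero]
  have hBD : V * D * V * (Q * rv Pn * D2) = 0 := by
    calc V * D * V * (Q * rv Pn * D2) = V * D * (V * Q) * (rv Pn * D2) := by noncomm_ring
      _ = 0 := by rw [hVQ]; noncomm_ring
  have hDB : Q * rv Pn * D2 * (V * D * V) = 0 := by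
    have := congrArg Matrix.transpose hBD
    rwa [Matrix.transpose_mul, hBs, hDs', Matrix.transpose_zero] at this
  refine ⟨?_, ?_, ?_⟩
  · rw [Matrix.transpose_add, Matrix.transpose_smul, hBs, hDs']
  · rw [add_mul, mul_add, mul_add, Matrix.smul_mul, Matrix.mul_smul, hBB, Matrix.smul_mul, hBD,
      Matrix.mul_smul, hDB, hDDd, smul_smul, smul_smul, smul_zero, add_zero, zero_add]
    congr 2
    field_simp
  · rw [mul_add, Matrix.mul_smul]
    have e1 : D * (V * D * V) = 0 := by
      calc D * (V * D * V) = D * V * D * V := by noncomm_ring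
        _ = 0 := by rw [hDVD, zero_mul]
    have e2 : D * (Q * rv Pn * D2) = 0 := by
      calc D * (Q * rv Pn * D2) = D * Q * rv Pn * D2 := by noncomm_ring
        _ = Q * (D * rv Pn) * D2 := by rw [hDQ]; noncomm_ring
        _ = Q * Pn * D * D2 := by rw [hDr]; noncomm_ring
        _ = 0 := by rw [hQP]; noncomm_ring
    rw [e1, e2, smul_zero, add_zero]

/-- the row function of `Zr` -/
theorem rowF_Z {B' C' : Finset ℕ} (hM : N < M) (hk : k + 1 < N) (hC : C ∈ Lv M k)
    (hu : u ∈ ad C) (hC' : C' ∈ Lv M k) {u' : ℕ} (hu' : u' ∈ ad C') (hB' : mv C' u' = B') :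
    rowF (bZ C u) (dZ C u) B' C' = if B' = mv C u ∧ C' = C then 1 else 0 := by
  classical
  unfold rowF
  rw [Finset.sum_eq_single u']
  · rw [if_pos hB']
    by_cases hBB : B' = mv C u
    · by_cases hCC : C' = C
      · subst hCC
        have huu : u' = u := mv_inj82 hu' (hB'.trans hBB)
        subst huu
        rw [if_pos ⟨hBB, rfl⟩, hBB]
        have e1 : ∑ x ∈ ad (mv C' u'), ∑ y ∈ ad (mv C' u'), w (mv C' u') x * w (mv C' u') y *
            (((x : ℝ) - u')⁻¹ * ((y : ℝ) - u')⁻¹) * bZ C' u' (mv C' u') x y =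
            (w C' u')⁻¹ * ((∑ x ∈ ad (mv C' u'), w (mv C' u') x * (((x : ℝ) - u')⁻¹) ^ 2) *
              ∑ y ∈ ad (mv C' u'), w (mv C' u') y * (((y : ℝ) - u')⁻¹) ^ 2) := by
          rw [Finset.sum_mul, Finset.mul_sum]
          refine Finset.sum_congr rfl fun x _ => ?_
          rw [Finset.mul_sum, Finset.mul_sum]
          refine Finset.sum_congr rfl fun y _ => ?_
          unfold bZ
          rw [if_pos rfl]
          ring
        have e2 : ∑ y ∈ (ad C').erase u', w (mv C' u') y * (1 - (((y : ℝ) - u')⁻¹) ^ 2) *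
            dZ C' u' (mv C' y) (mv C' u') = 1 - w C' u' := by
          have h1 : ∀ y ∈ (ad C').erase u', w (mv C' u') y * (1 - (((y : ℝ) - u')⁻¹) ^ 2) *
              dZ C' u' (mv C' y) (mv C' u') = w C' y := by
            intro y hy
            rw [wsum4 hu hy]
            unfold dZ
            rw [if_pos ⟨rfl, y, (mem_erase.1 hy).2, rfl⟩, mul_one]
          rw [Finset.sum_congr rfl h1]
          have h2 : ∑ y ∈ ad C', w C' y = 1 := by
            have := ad_sum C' (fun _ => 1)
            simp only [mul_one] at this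
            rw [this, w_sum C' (Lv_zero_mem hC (by omega))]
          rw [← h2, ← Finset.sum_erase_add _ _ hu, add_sub_cancel_right]
        rw [e1, e2, wsum2 hC (by omega) hu]
        have hw : w C' u' ≠ 0 := (ad_w_pos hu).ne'
        field_simp
        ring
      · rw [if_neg fun h => hCC h.2]
        have hne : u ≠ u' := by
          rintro rfl
          apply hCC
          -- equal covers by the same bead
          have h1 : mv C' u = mv C u := hB'.trans hBB
          have h2 : ∀ A : Finset ℕ, u ∈ ad A → A = insert u ((mv A u).erase (u + 1)) := by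
            intro A hA
            obtain ⟨a1, a2⟩ := mem_ad.1 hA
            ext z
            simp only [mv, mem_insert, mem_erase]
            constructor
            · intro hz
              by_cases hzu : z = u
              · exact Or.inl hzu
              · refine Or.inr ⟨fun h => a2 (h ▸ hz), Or.inr ⟨hzu, hz⟩⟩
            · rintro (h | ⟨h3, h4 | ⟨h5, h6⟩⟩)
              · rw [h]; exact a1
              · exact absurd h4 h3
              · exact h6
          rw [h2 C' hu', h2 C hu, h1]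
        have e1 : ∑ x ∈ ad B', ∑ y ∈ ad B', w B' x * w B' y *
            (((x : ℝ) - u')⁻¹ * ((y : ℝ) - u')⁻¹) * bZ C u B' x y =
            (w C u)⁻¹ * ((∑ x ∈ ad (mv C u), w (mv C u) x * (((x : ℝ) - u)⁻¹ * ((x : ℝ) - u')⁻¹)) *
              ∑ y ∈ ad (mv C u), w (mv C u) y * (((y : ℝ) - u)⁻¹ * ((y : ℝ) - u')⁻¹)) := by
          rw [hBB, Finset.sum_mul, Finset.mul_sum]
          refine Finset.sum_congr rfl fun x _ => ?_
          rw [Finset.mul_sum, Finset.mul_sum]
          refine Finset.sum_congr rfl fun y _ => ?_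
          unfold bZ
          rw [if_pos rfl]
          ring
        have h3 := wsum3 hC hC' (show k + 1 < M by omega) hu hu' (hBB.symm.trans hB'.symm) hne
        rw [e1, h3, zero_mul, mul_zero, zero_add]
        refine Finset.sum_eq_zero fun y hy => ?_
        obtain ⟨hy1, hy2⟩ := mem_erase.1 hy
        unfold dZ
        rw [if_neg, mul_zero]
        rintro ⟨-, z, hz, hzy⟩
        exact hy1 (cover_unique hCC hy2 hz hzy.symm hu' hu (hB'.trans hBB))
    · rw [if_neg fun h => hBB h.1]
      have e1 : ∀ x y : ℕ, bZ C u B' x y = 0 := fun x y => if_neg hBB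
      have e2 : ∀ μ, dZ C u μ B' = 0 := fun μ => if_neg fun h => hBB h.1
      simp only [e1, e2, mul_zero, Finset.sum_const_zero, add_zero]
  · intro v hv hne
    rw [if_neg]
    intro h
    exact hne (mv_inj82 hv (h.trans hB'.symm))
  · intro h
    exact absurd hu' h

end Z

end Pool.JM
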