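import Pool.Agent.Work.MP_46fa68_95.Star

/-! # The rank one identity: proof by a trace count -/

set_option autoImplicit false

open Finset Equiv

namespace Pool.JM

/-- trace of the projection on a block -/
theorem trace_block {k M : ℕ} (hM : k + 2 < M) {C : Finset ℕ} (hC : C ∈ Lv M (k + 1)) {x : ℕ}
    (hx : x ∈ ad C) :
    (Pc (k + 2) M (k + 1) C x * rv (P (k + 2) M (k + 1) C)).trace =
      (k + 1).factorial ^ 2 * ex C ^ 2 *
        (w C x * (1 + ∑ v ∈ rm C, (w (mvd C v) (v - 1))⁻¹ *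
          (((x : ℝ) - ((v - 1 : ℕ) : ℝ))⁻¹) ^ 2)) := by
  have hg1 := good (N := k + 2) hM (k + 1) (by omega)
  have hg0 := good (N := k + 2) hM k (by omega)
  have hk1 : k + 1 < k + 2 := by omega
  have hk0 : k < k + 2 := by omega
  set T : Mat (k + 2) := Pc (k + 2) M (k + 1) C x with hT
  set Pm : Mat (k + 2) := P (k + 2) M (k + 1) C with hPm
  have hcomm : ∀ σ : Perm (Fin (k + 2)), Sn (k + 1) σ → U σ * T = T * U σ := fun σ hσ =>
    pc_comm hM hk1 hC x (Al_U hσ)
  rw [trace_rv (hg1.pc_al C x).2 hcomm (hg1.al C) (hg1.symm C)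
    (fun σ hσ => P_cent_k hM (by omega) hC σ hσ)]
  -- first term
  have t1 : (Pm * E (k + 1) T : Mat (k + 2)) 1 1 = w C x * ((k + 1).factorial * ex C ^ 2) := by
    rw [hg1.pc_E hk1 hC hx, Matrix.mul_smul, hg1.idem, Matrix.smul_apply,
      P_diag hM (k + 1) (by omega) C hC, smul_eq_mul]
  -- second term
  set δ : Finset ℕ → Finset ℕ → ℝ := fun B C' => if B = mv C x ∧ C' = C then 1 else 0 with hδ
  have hTδ : T = T1 (k + 2) M (k + 1) δ := by
    unfold T1
    rw [Finset.sum_eq_single ⟨C, x⟩]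
    · rw [hδ]
      simp only
      rw [if_pos ⟨trivial, trivial⟩, one_smul]
    · rintro ⟨D, y⟩ hq hne
      obtain ⟨hD, hy⟩ := mem_sigma.1 hq
      rw [hδ]
      simp only
      rw [if_neg, zero_smul]
      rintro ⟨h1, rfl⟩
      have h2 : y = x := mv_injOn hy hx h1
      exact hne (by rw [h2])
    · intro h'
      exact absurd (mem_sigma.2 ⟨hC, hx⟩) h'
  have hres : ∀ q ∈ (Lv M k).sigma fun C => ad C, mv q.1 q.2 = C →
      res δ q.1 q.2 = w C x * (((x : ℝ) - q.2)⁻¹) ^ 2 := by
    intro q hq hqC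
    unfold res
    rw [hqC, Finset.sum_eq_single x]
    · rw [hδ]
      simp only
      rw [if_pos ⟨trivial, trivial⟩, if_neg]
      · ring
      · rintro ⟨-, h2⟩
        have h3 : x ∈ mv q.1 x := by rw [h2]; exact (mem_ad.1 hx).1
        unfold mv at h3
        rcases mem_insert.1 h3 with h4 | h4
        · omega
        · exact (mem_erase.1 h4).1 rfl
    · intro y hy hne
      rw [hδ]
      simp only
      rw [if_neg, if_neg]
      · ring
      · rintro ⟨-, h2⟩
        have h3 : y ∈ mv q.1 y := by rw [h2]; exact (mem_ad.1 hy).1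
        unfold mv at h3
        rcases mem_insert.1 h3 with h4 | h4
        · omega
        · exact (mem_erase.1 h4).1 rfl
      · rintro ⟨h1, -⟩
        exact hne (mv_injOn hy hx h1)
    · intro h'
      exact absurd hx h'
  have t2 : (Pm * E (k + 1) (U (s k (by omega)) * T * U (s k (by omega))) : Mat (k + 2)) 1 1 =
      ∑ v ∈ rm C, w C x * (((x : ℝ) - ((v - 1 : ℕ) : ℝ))⁻¹) ^ 2 *
        (k.factorial * ex (mvd C v) * ex C) := by
    rw [hTδ, T1_res (N := k + 2) hM hk1 δ
      (fun B C' => ∑ q ∈ (Lv M k).sigma fun C => ad C,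
        if mv q.1 q.2 = B ∧ q.1 = C' then res δ q.1 q.2 else 0)]
    · unfold T1
      rw [Finset.mul_sum, Matrix.sum_apply]
      have e1 : ∀ q ∈ (Lv M k).sigma fun C => ad C,
          (Pm * ((∑ q' ∈ (Lv M k).sigma fun C => ad C,
            if mv q'.1 q'.2 = mv q.1 q.2 ∧ q'.1 = q.1 then res δ q'.1 q'.2 else 0) •
              Pc (k + 2) M k q.1 q.2) : Mat (k + 2)) 1 1 =
          if mv q.1 q.2 = C then w C x * (((x : ℝ) - q.2)⁻¹) ^ 2 *
            (k.factorial * ex q.1 * ex C) else 0 := by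
        intro q hq
        obtain ⟨hq1, hq2⟩ := mem_sigma.1 hq
        have e2 : (∑ q' ∈ (Lv M k).sigma fun C => ad C,
            if mv q'.1 q'.2 = mv q.1 q.2 ∧ q'.1 = q.1 then res δ q'.1 q'.2 else 0) =
            res δ q.1 q.2 := by
          rw [Finset.sum_eq_single q]
          · rw [if_pos ⟨rfl, rfl⟩]
          · rintro ⟨D, y⟩ hq' hne
            obtain ⟨hD, hy⟩ := mem_sigma.1 hq'
            rw [if_neg]
            rintro ⟨h1, h2⟩
            simp only at h1 h2 hy
            subst h2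
            exact hne (by rw [mv_injOn hy hq2 h1])
          · intro h'
            exact absurd hq h'
        rw [e2, Matrix.mul_smul, Matrix.smul_apply, smul_eq_mul]
        have e3 : Pm * Pc (k + 2) M k q.1 q.2 =
            if mv q.1 q.2 = C then Pc (k + 2) M k q.1 q.2 else 0 := by
          have h4 := P_Pc (N := k + 2) hM hk0 hq1 hq2
          split_ifs with h5
          · rw [hPm, ← h5, h4]
          · rw [← h4, ← mul_assoc, hPm, hg1.orth _ _ (Ne.symm h5), zero_mul]
        rw [e3]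
        split_ifs with h5
        · rw [hres q hq h5, Pc_diag hM hk0 hq1 hq2, P_diag hM k (by omega) q.1 hq1]
          have h6 := ex_mv hq2
          rw [h5] at h6
          rw [h6]
          ring
        · simp
      rw [Finset.sum_congr rfl e1,
        sum_below hC (fun D u => w C x * (((x : ℝ) - u)⁻¹) ^ 2 * (k.factorial * ex D * ex C))]
    · intro D hD y hy
      rw [Finset.sum_eq_single ⟨D, y⟩]
      · rw [if_pos ⟨rfl, rfl⟩]
      · rintro ⟨D', y'⟩ hq' hne
        obtain ⟨hD', hy'⟩ := mem_sigma.1 hq'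
        rw [if_neg]
        rintro ⟨h1, h2⟩
        simp only at h1 h2 hy'
        subst h2
        exact hne (by rw [mv_injOn hy' hy h1])
      · intro h'
        exact absurd (mem_sigma.2 ⟨hD, hy⟩) h'
  rw [t1, t2]
  have e4 : (∑ v ∈ rm C, w C x * (((x : ℝ) - ((v - 1 : ℕ) : ℝ))⁻¹) ^ 2 *
      (k.factorial * ex (mvd C v) * ex C)) =
      k.factorial * ex C ^ 2 * (w C x * ∑ v ∈ rm C, (w (mvd C v) (v - 1))⁻¹ *
          (((x : ℝ) - ((v - 1 : ℕ) : ℝ))⁻¹) ^ 2) := by
    rw [Finset.mul_sum, Finset.mul_sum]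
    refine Finset.sum_congr rfl fun v hv => ?_
    obtain ⟨h1, h2⟩ := mv_mvd hv
    have h3 := ex_mv h1
    rw [h2] at h3
    have h4 : w (mvd C v) (v - 1) ≠ 0 := (ad_w_pos h1).ne'
    have h5 : ex (mvd C v) = (w (mvd C v) (v - 1))⁻¹ * ex C := by
      rw [h3, ← mul_assoc, inv_mul_cancel₀ h4, one_mul]
    rw [h5]
    ring
  rw [e4, Nat.factorial_succ]
  push_cast
  ring

/-- the sum of the normalised traces -/
theorem sum_trace {k M : ℕ} (hM : k + 2 < M) {C : Finset ℕ} (hC : C ∈ Lv M (k + 1)) :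
    ∑ x ∈ ad C, w C x * (1 + ∑ v ∈ rm C, (w (mvd C v) (v - 1))⁻¹ *
          (((x : ℝ) - ((v - 1 : ℕ) : ℝ))⁻¹) ^ 2) = (ad C).card := by
  have h0 : 0 ∈ C := Lv_zero_mem hC (by omega)
  have hext : ∀ f : ℕ → ℝ, ∑ x ∈ ad C, w C x * f x = ∑ x ∈ C, w C x * f x := by
    intro f
    refine sum_subset (filter_subset _ _) fun x hx hx' => ?_
    rw [w_zero, zero_mul]
    by_contra h
    exact hx' (mem_ad.2 ⟨hx, h⟩)
  rw [hext, card_ad_rm h0]
  have h1 : ∀ x ∈ C, w C x * (1 + ∑ v ∈ rm C, (w (mvd C v) (v - 1))⁻¹ *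
      (((x : ℝ) - ((v - 1 : ℕ) : ℝ))⁻¹) ^ 2) = w C x + ∑ v ∈ rm C, (w (mvd C v) (v - 1))⁻¹ *
        (w C x * (((x : ℝ) - ((v - 1 : ℕ) : ℝ))⁻¹) ^ 2) := by
    intro x _
    rw [mul_add, mul_one, Finset.mul_sum]
    congr 1
    refine Finset.sum_congr rfl fun v _ => ?_
    ring
  rw [Finset.sum_congr rfl h1, Finset.sum_add_distrib, w_sum C h0, Finset.sum_comm]
  have h2 : ∀ v ∈ rm C, ∑ x ∈ C, (w (mvd C v) (v - 1))⁻¹ *
      (w C x * (((x : ℝ) - ((v - 1 : ℕ) : ℝ))⁻¹) ^ 2) = 1 := by
    intro v hv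
    obtain ⟨h3, h4⟩ := mv_mvd hv
    have h5 : mvd C v ∈ Lv M k := mvd_mem hC hv
    have h6 := sum_w_sq (Lv_zero_mem h5 (by omega)) h3 (by rw [h4]; exact h0)
    rw [h4] at h6
    rw [← Finset.mul_sum, h6, inv_mul_cancel₀ (ad_w_pos h3).ne']
  rw [Finset.sum_congr rfl h2, Finset.sum_const, nsmul_eq_mul, mul_one]
  push_cast
  ring

/-- a symmetric matrix with square of trace zero vanishes -/
theorem eq_zero_of_trace {N : ℕ} {W : Mat N} (hs : W.transpose = W) (h : (W * W).trace = 0) :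
    W = 0 := by
  have h1 : (W * W).trace = ∑ g, ∑ x, W g x * W g x := by
    unfold Matrix.trace
    refine Finset.sum_congr rfl fun g _ => ?_
    rw [Matrix.diag_apply, Matrix.mul_apply]
    refine Finset.sum_congr rfl fun x _ => ?_
    have : W x g = W g x := by
      have := congrFun (congrFun hs g) x
      rwa [Matrix.transpose_apply] at this
    rw [this]
  rw [h1] at h
  have h2 := (Finset.sum_eq_zero_iff_of_nonneg (fun g _ =>
    Finset.sum_nonneg fun x _ => mul_self_nonneg (W g x))).1 h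
  ext g x
  have h3 := (Finset.sum_eq_zero_iff_of_nonneg (fun x _ => mul_self_nonneg (W g x))).1
    (h2 g (mem_univ _)) x (mem_univ _)
  exact mul_self_eq_zero.1 h3

/-- **the rank one identity** -/
theorem star95 {k M : ℕ} (hM : k + 2 < M) {C : Finset ℕ} (hC : C ∈ Lv M (k + 1)) {x : ℕ}
    (hx : x ∈ ad C) :
    Pc (k + 2) M (k + 1) C x * Dg (k + 2) (k + 1) * Pc (k + 2) M (k + 1) C x =
      w C x • (Pc (k + 2) M (k + 1) C x * rv (P (k + 2) M (k + 1) C)) := by
  have hg1 := good (N := k + 2) hM (k + 1) (by omega)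
  have hk1 : k + 1 < k + 2 := by omega
  have hPcent : ∀ σ : Perm (Fin (k + 2)), Sn (k + 1) σ →
      U σ * P (k + 2) M (k + 1) C = P (k + 2) M (k + 1) C * U σ :=
    fun σ hσ => P_cent_k hM (by omega) hC σ hσ
  -- general facts for all addable boxes
  have facts : ∀ y ∈ ad C, ∃ Q Z W : Mat (k + 2),
      Q = Pc (k + 2) M (k + 1) C y * Dg (k + 2) (k + 1) * Pc (k + 2) M (k + 1) C y ∧
      Z = Pc (k + 2) M (k + 1) C y * rv (P (k + 2) M (k + 1) C) ∧
      W = w C y • Z - Q ∧ W.transpose = W ∧ W * W = w C y • W ∧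
      W.trace = w C y * (Z.trace - (k + 1).factorial ^ 2 * ex C ^ 2) := by
    intro y hy
    set T : Mat (k + 2) := Pc (k + 2) M (k + 1) C y with hT
    set Pm : Mat (k + 2) := P (k + 2) M (k + 1) C with hPm
    set D : Mat (k + 2) := Dg (k + 2) (k + 1) with hD
    set Q : Mat (k + 2) := T * D * T with hQ
    set Z : Mat (k + 2) := T * rv Pm with hZ
    have hTT : T * T = T := by
      have := hg1.pc_mul (N := k + 2) hk1 (C := C) (x := y) hC hy
      rw [if_pos ⟨rfl, rfl⟩] at this
      exact this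
    have hTs : T.transpose = T := hg1.pc_symm hk1 C y
    have hPs : Pm.transpose = Pm := hg1.symm C
    have hDT : D * T * D = w C y • (Pm * D) := by
      rw [hD, Dg_T_Dg, hg1.pc_E hk1 hC hy, Matrix.smul_mul]
    have hTP : T * Pm = T := Pc_P_self hM C y
    have hPT : Pm * T = T := P_Pc_self hM C y
    have hTr : T * rv Pm = rv Pm * T := rv_comm (hg1.pc_al C y).2 (hg1.al C).2
    have hrr : rv Pm * rv Pm = rv Pm := by rw [← rv_mul, hg1.idem]
    have hDP : D * Pm = Pm * D := Dg_comm le_rfl (hg1.al C).1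
    have hDr : D * rv Pm = rv Pm * D := Dg_comm_rv le_rfl (hg1.al C).1
    have hrD : rv Pm * D = Pm * D := rv_mul_Dg (hg1.al C) hPs hPcent
    have hQQ : Q * Q = w C y • Q := by
      calc Q * Q = T * (D * (T * T) * D) * T := by rw [hQ]; noncomm_ring
        _ = T * (D * T * D) * T := by rw [hTT]
        _ = w C y • (T * Pm * D * T) := by
            rw [hDT, Matrix.mul_smul, Matrix.smul_mul, ← mul_assoc T Pm D]
        _ = _ := by rw [hTP]
    have hZZ : Z * Z = Z := by
      calc Z * Z = T * (rv Pm * T) * rv Pm := by rw [hZ]; noncomm_ring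
        _ = T * T * (rv Pm * rv Pm) := by rw [← hTr]; noncomm_ring
        _ = _ := by rw [hTT, hrr]
    have hQZ : Q * Z = Q := by
      calc Q * Z = T * D * (T * T) * rv Pm := by rw [hQ, hZ]; noncomm_ring
        _ = T * D * (T * rv Pm) := by rw [hTT]; noncomm_ring
        _ = T * (D * rv Pm) * T := by rw [hTr]; noncomm_ring
        _ = T * (D * Pm) * T := by rw [hDr, hrD, hDP]
        _ = T * D * (Pm * T) := by noncomm_ring
        _ = _ := by rw [hPT]
    have hQs : Q.transpose = Q := by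
      rw [hQ, Matrix.transpose_mul, Matrix.transpose_mul, hTs, hD, Dg_transpose]
      noncomm_ring
    have hZs : Z.transpose = Z := by
      rw [hZ, Matrix.transpose_mul, rv_transpose, hPs, hTs, hTr]
    have hZQ : Z * Q = Q := by
      have := congrArg Matrix.transpose hQZ
      rwa [Matrix.transpose_mul, hQs, hZs] at this
    refine ⟨Q, Z, w C y • Z - Q, rfl, rfl, rfl, ?_, ?_, ?_⟩
    · rw [Matrix.transpose_sub, Matrix.transpose_smul, hQs, hZs]
    · rw [mul_sub, sub_mul, sub_mul, Matrix.smul_mul, Matrix.mul_smul, hZZ, Matrix.mul_smul, hQZ,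
        Matrix.smul_mul, hZQ, hQQ, smul_sub, smul_smul]
      abel
    · rw [Matrix.trace_sub, Matrix.trace_smul, smul_eq_mul]
      have e1 : Q.trace = w C y * ((k + 1).factorial * ((k + 1).factorial * ex C ^ 2)) := by
        have e2 : Q.trace = (D * T * D).trace := by
          rw [hQ, Matrix.trace_mul_comm, ← mul_assoc, hTT]
          calc (T * D).trace = (T * (D * D)).trace := by rw [hD, Dg_idem]
            _ = (T * D * D).trace := by rw [← mul_assoc]
            _ = (D * (T * D)).trace := by rw [Matrix.trace_mul_comm]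
            _ = (D * T * D).trace := by rw [← mul_assoc]
        rw [e2, hDT, Matrix.trace_smul, hD, trace_mul_Dg (hg1.al C).2,
          P_diag hM (k + 1) (by omega) C hC, smul_eq_mul]
      rw [e1]
      ring
  -- each normalised trace is at least one
  have hex : 0 < ex C := ex_pos C
  have hfac : (0 : ℝ) < (k + 1).factorial := by exact_mod_cast (k + 1).factorial_pos
  set tr : ℕ → ℝ := fun y => w C y * (1 + ∑ v ∈ rm C, (w (mvd C v) (v - 1))⁻¹ *
          (((y : ℝ) - ((v - 1 : ℕ) : ℝ))⁻¹) ^ 2) with htr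
  have hge : ∀ y ∈ ad C, 1 ≤ tr y := by
    intro y hy
    obtain ⟨Q, Z, W, hQ, hZ, hW, hWs, hWW, hWt⟩ := facts y hy
    have h1 : 0 ≤ (W * W).trace := by
      have h2 : (W * W).trace = ∑ g, ∑ x, W g x * W g x := by
        unfold Matrix.trace
        refine Finset.sum_congr rfl fun g _ => ?_
        rw [Matrix.diag_apply, Matrix.mul_apply]
        refine Finset.sum_congr rfl fun x _ => ?_
        have : W x g = W g x := by
          have := congrFun (congrFun hWs g) x
          rwa [Matrix.transpose_apply] at this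
        rw [this]
      rw [h2]
      exact Finset.sum_nonneg fun g _ => Finset.sum_nonneg fun x _ => mul_self_nonneg _
    have hw := ad_w_pos hy
    rw [hWW, Matrix.trace_smul, smul_eq_mul, hWt, hZ, trace_block hM hC hy] at h1
    have h3 : 0 ≤ (k + 1).factorial ^ 2 * ex C ^ 2 * tr y - (k + 1).factorial ^ 2 * ex C ^ 2 := by
      have h4 := (mul_nonneg_iff_of_pos_left hw).1 h1
      exact (mul_nonneg_iff_of_pos_left hw).1 h4
    have h5 : 0 < ((k + 1).factorial : ℝ) ^ 2 * ex C ^ 2 := by positivity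
    nlinarith
  have hsum := sum_trace hM hC
  have heq : ∀ y ∈ ad C, tr y = 1 := by
    intro y hy
    by_contra hne
    have hlt : 1 < tr y := lt_of_le_of_ne (hge y hy) (Ne.symm hne)
    have h1 : ∑ z ∈ ad C, (1 : ℝ) < ∑ z ∈ ad C, tr z :=
      Finset.sum_lt_sum hge ⟨y, hy, hlt⟩
    rw [Finset.sum_const, nsmul_eq_mul, mul_one, hsum] at h1
    exact lt_irrefl _ h1
  obtain ⟨Q, Z, W, hQ, hZ, hW, hWs, hWW, hWt⟩ := facts x hx
  have hZt := trace_block hM hC hx
  have hW0 : W = 0 := by
    refine eq_zero_of_trace hWs ?_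
    rw [hWW, Matrix.trace_smul, hWt, hZ, hZt]
    have := heq x hx
    rw [htr] at this
    simp only at this
    rw [this]
    simp
  rw [hW, sub_eq_zero] at hW0
  rw [← hQ, ← hZ]
  exact hW0.symm

end Pool.JM
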